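import Pool.Agent.Lib.MP_8d00da_gt.h62a.Defs
import Pool.Agent.Lib.MP_8d00da_gt.h42k.KA4
import Pool.Agent.Lib.MP_8d00da_gt.h42k.B1a
import Pool.Agent.Lib.MP_8d00da_gt.h42k.U2a
import Pool.Agent.Lib.MP_8d00da_gt.h62a.Words
import Pool.Agent.Lib.MP_8d00da_gt.h62a.Sym
import Pool.Agent.Lib.MP_8d00da_gt.F28.EX

section

/-! # General facts about the symmetriser `U` (helper24) -/

open scoped BigOperators InnerProductSpace
open Finset

namespace Pool.Agent.Lib.MP_8d00da_gt.h62a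

variable {M : ℕ} {E : Type*} [NormedAddCommGroup E] [InnerProductSpace ℝ E]

/-- the permutations that fix all slots `≥ j`. -/
def Fix (M j : ℕ) (σ : Equiv.Perm (Fin M)) : Prop := ∀ p : Fin M, j ≤ p.val → σ p = p

theorem tau_self (M j : ℕ) : tau M j j = 1 := by
  unfold tau
  split_ifs with h
  · exact Equiv.swap_self _
  · rfl

theorem tau_of_lt {i j : ℕ} (hi : i < M) (hj : j < M) :
    tau M i j = Equiv.swap ⟨i, hi⟩ ⟨j, hj⟩ := by
  unfold tau
  rw [dif_pos ⟨hi, hj⟩]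

theorem tau_fix {i j l : ℕ} (hi : i < l) (hj : j < l) : Fix M l (tau M i j) := by
  intro p hp
  unfold tau
  split_ifs with h
  · apply Equiv.swap_apply_of_ne_of_ne
    · intro h'
      rw [h'] at hp
      simp at hp
      omega
    · intro h'
      rw [h'] at hp
      simp at hp
      omega
  · rfl

theorem Fix.mono {j l : ℕ} (hjl : j ≤ l) {σ : Equiv.Perm (Fin M)} (h : Fix M j σ) :
    Fix M l σ := fun p hp => h p (hjl.trans hp)

theorem U_succ' (ρ : Equiv.Perm (Fin M) →* (E ≃ₗᵢ[ℝ] E)) (X : E) (j : ℕ) :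
    U ρ X (j + 1) = ((j : ℝ) + 1)⁻¹ • ∑ i ∈ range (j + 1), ρ (tau M i j) (U ρ X j) := by
  rw [Finset.sum_range_succ, tau_self, map_one]
  simp only [U]
  rw [add_comm (U ρ X j)]
  rfl

/-- `U ρ X j` is invariant under all permutations fixing the slots `≥ j`. -/
theorem U_inv (ρ : Equiv.Perm (Fin M) →* (E ≃ₗᵢ[ℝ] E)) (X : E) :
    ∀ j : ℕ, j ≤ M → ∀ σ : Equiv.Perm (Fin M), Fix M j σ → ρ σ (U ρ X j) = U ρ X j := by
  intro j
  induction j with
  | zero =>
    intro _ σ hσ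
    have : σ = 1 := by
      ext p
      rw [hσ p (Nat.zero_le _)]
      rfl
    rw [this, map_one]
    rfl
  | succ j ih =>
    intro hj σ hσ
    have hjM : j < M := hj
    rw [U_succ', map_smul, map_sum]
    congr 1
    have hval : ∀ i : ℕ, ∀ hi : i < j + 1, (σ ⟨i, by omega⟩).val < j + 1 := by
      intro i hi
      by_contra hc
      push Not at hc
      have h1 := hσ _ hc
      have h2 := σ.injective h1
      have h3 := congrArg Fin.val h2
      simp only at h3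
      omega
    refine Finset.sum_bij'
      (fun i hi => (σ ⟨i, by have := Finset.mem_range.1 hi; omega⟩).val)
      (fun i hi => (σ.symm ⟨i, by have := Finset.mem_range.1 hi; omega⟩).val) ?_ ?_ ?_ ?_ ?_
    · intro i hi
      rw [Finset.mem_range]
      exact hval i (Finset.mem_range.1 hi)
    · intro i hi
      rw [Finset.mem_range] at hi ⊢
      by_contra hc
      push Not at hc
      have h1 := hσ (σ.symm ⟨i, by omega⟩) hc
      rw [Equiv.apply_symm_apply] at h1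
      have h3 := congrArg Fin.val h1
      simp only at h3
      omega
    · intro i hi
      simp
    · intro i hi
      simp
    · intro i hi
      have hi' := Finset.mem_range.1 hi
      have hiM : i < M := by omega
      have hv := hval i hi'
      have hvM : (σ ⟨i, hiM⟩).val < M := (σ ⟨i, hiM⟩).isLt
      set q : Fin M := σ ⟨i, hiM⟩ with hq
      -- `τ_{q j}⁻¹ σ τ_{i j}` fixes everything `≥ j`
      have hfix : Fix M j ((tau M q.val j)⁻¹ * (σ * tau M i j)) := by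
        intro p hp
        rw [tau_of_lt hiM hjM, tau_of_lt hvM hjM]
        simp only [Equiv.Perm.mul_apply, Equiv.swap_inv]
        rcases Nat.eq_or_lt_of_le hp with h | h
        · have hp' : p = ⟨j, hjM⟩ := Fin.ext h.symm
          rw [hp', Equiv.swap_apply_right]
          have : σ ⟨i, hiM⟩ = (⟨q.val, hvM⟩ : Fin M) := by rw [← hq]
          rw [this, Equiv.swap_apply_left]
        · have h1 : p ≠ (⟨i, hiM⟩ : Fin M) := by
            intro h'
            rw [h'] at h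
            simp at h
            omega
          have h2 : p ≠ (⟨j, hjM⟩ : Fin M) := by
            intro h'
            rw [h'] at h
            simp at h
          rw [Equiv.swap_apply_of_ne_of_ne h1 h2, hσ p (by omega)]
          apply Equiv.swap_apply_of_ne_of_ne
          · intro h'
            have := congrArg Fin.val h'
            simp at this
            omega
          · exact h2
      have h1 := ih (by omega) _ hfix
      rw [map_mul, map_inv, map_mul] at h1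
      have h2 : ρ (tau M q.val j) ((ρ (tau M q.val j))⁻¹ (ρ σ (ρ (tau M i j) (U ρ X j))))
          = ρ (tau M q.val j) (U ρ X j) := congrArg _ h1
      have h3 : ρ (tau M q.val j) ((ρ (tau M q.val j))⁻¹ (ρ σ (ρ (tau M i j) (U ρ X j))))
          = ρ σ (ρ (tau M i j) (U ρ X j)) :=
        (ρ (tau M q.val j)).apply_symm_apply _
      rw [h3] at h2
      exact h2

theorem U_sub (ρ : Equiv.Perm (Fin M) →* (E ≃ₗᵢ[ℝ] E)) (X Y : E) (j : ℕ) :
    U ρ (X - Y) j = U ρ X j - U ρ Y j := by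
  induction j with
  | zero => rfl
  | succ j ih =>
    rw [U_succ', U_succ', U_succ', ih, ← smul_sub, ← Finset.sum_sub_distrib]
    simp only [map_sub]

theorem U_smul (ρ : Equiv.Perm (Fin M) →* (E ≃ₗᵢ[ℝ] E)) (c : ℝ) (X : E) (j : ℕ) :
    U ρ (c • X) j = c • U ρ X j := by
  induction j with
  | zero => rfl
  | succ j ih =>
    rw [U_succ', U_succ', ih, smul_comm]
    congr 1
    rw [Finset.smul_sum]
    simp only [map_smul]

theorem inner_act_left (ρ : Equiv.Perm (Fin M) →* (E ≃ₗᵢ[ℝ] E)) (σ : Equiv.Perm (Fin M))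
    (X W : E) (hW : ρ σ W = W) : ⟪ρ σ X, W⟫_ℝ = ⟪X, W⟫_ℝ := by
  conv_lhs => rw [← hW]
  exact (ρ σ).inner_map_map X W

/-- orthogonality of the projection. -/
theorem inner_U_of_inv (ρ : Equiv.Perm (Fin M) →* (E ≃ₗᵢ[ℝ] E)) (X W : E) (j : ℕ)
    (hW : ∀ σ : Equiv.Perm (Fin M), Fix M j σ → ρ σ W = W) :
    ⟪U ρ X j, W⟫_ℝ = ⟪X, W⟫_ℝ := by
  induction j with
  | zero => rfl
  | succ j ih =>
    have ih' := ih (fun σ hσ => hW σ (hσ.mono (Nat.le_succ j)))
    rw [U_succ', real_inner_smul_left, sum_inner]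
    have : ∀ i ∈ range (j + 1), ⟪ρ (tau M i j) (U ρ X j), W⟫_ℝ = ⟪X, W⟫_ℝ := by
      intro i hi
      rw [Finset.mem_range] at hi
      rw [inner_act_left ρ _ _ _ (hW _ (tau_fix hi (Nat.lt_succ_self j))), ih']
    rw [Finset.sum_congr rfl this, Finset.sum_const, Finset.card_range, nsmul_eq_mul]
    push_cast
    have hj : (j : ℝ) + 1 ≠ 0 := by positivity
    field_simp

theorem inner_U_self (ρ : Equiv.Perm (Fin M) →* (E ≃ₗᵢ[ℝ] E)) (X : E) (j : ℕ) (hj : j ≤ M) :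
    ⟪U ρ X j, X⟫_ℝ = ‖U ρ X j‖ ^ 2 := by
  rw [real_inner_comm, ← inner_U_of_inv ρ X (U ρ X j) j (U_inv ρ X j hj),
    real_inner_self_eq_norm_sq]

theorem norm_U_le (ρ : Equiv.Perm (Fin M) →* (E ≃ₗᵢ[ℝ] E)) (X : E) (j : ℕ) (hj : j ≤ M) :
    ‖U ρ X j‖ ≤ ‖X‖ := by
  have h := inner_U_self ρ X j hj
  have h2 := real_inner_le_norm (U ρ X j) X
  rw [h] at h2
  rcases eq_or_lt_of_le (norm_nonneg (U ρ X j)) with h0 | h0
  · rw [← h0]; exact norm_nonneg _
  · have : ‖U ρ X j‖ * ‖U ρ X j‖ ≤ ‖U ρ X j‖ * ‖X‖ := by nlinarith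
    exact le_of_mul_le_mul_left this h0

/-- `U` commutes with the permutations fixing the slots `< j`. -/
theorem U_comm (ρ : Equiv.Perm (Fin M) →* (E ≃ₗᵢ[ℝ] E)) (X : E) (σ : Equiv.Perm (Fin M)) :
    ∀ j : ℕ, j ≤ M → (∀ p : Fin M, p.val < j → σ p = p) →
      ρ σ (U ρ X j) = U ρ (ρ σ X) j := by
  intro j
  induction j with
  | zero => intro _ _; rfl
  | succ j ih =>
    intro hj hσ
    rw [U_succ', U_succ', map_smul, map_sum]
    congr 1
    refine Finset.sum_congr rfl (fun i hi => ?_)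
    have hi' := Finset.mem_range.1 hi
    have hiM : i < M := by omega
    have hjM : j < M := by omega
    rw [← ih (by omega) (fun p hp => hσ p (by omega))]
    have hc : σ * tau M i j = tau M i j * σ := by
      rw [tau_of_lt hiM hjM]
      have h1 : σ ⟨i, hiM⟩ = ⟨i, hiM⟩ := hσ _ (by simpa using hi')
      have h2 : σ ⟨j, hjM⟩ = ⟨j, hjM⟩ := hσ _ (by simp)
      have := Equiv.swap_apply_apply σ ⟨i, hiM⟩ ⟨j, hjM⟩
      rw [h1, h2] at this
      calc σ * Equiv.swap ⟨i, hiM⟩ ⟨j, hjM⟩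
          = (σ * Equiv.swap ⟨i, hiM⟩ ⟨j, hjM⟩ * σ⁻¹) * σ := by
            rw [inv_mul_cancel_right]
        _ = Equiv.swap ⟨i, hiM⟩ ⟨j, hjM⟩ * σ := by rw [← this]
    have h3 : ρ (σ * tau M i j) (U ρ X j) = ρ (tau M i j * σ) (U ρ X j) := by rw [hc]
    rw [map_mul, map_mul] at h3
    exact h3

theorem tau_below {i k j : ℕ} (hi : j ≤ i) (hk : j ≤ k) (p : Fin M) (hp : p.val < j) :
    tau M i k p = p := by
  unfold tau
  split_ifs with h
  · apply Equiv.swap_apply_of_ne_of_ne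
    · intro h'
      rw [h'] at hp
      simp at hp
      omega
    · intro h'
      rw [h'] at hp
      simp at hp
      omega
  · rfl

end Pool.Agent.Lib.MP_8d00da_gt.h62a
end

section

section

/-!
# Full KLS, part (delta): the change of coordinates `x = P z`, `P Pᵀ = 1 + Cov V`
-/

namespace Pool.Agent.Lib.MP_8d00da_gt.h28k

open h42k

set_option linter.unusedSectionVars false
set_option linter.unusedVariables false

variable {ι : Type} [Fintype ι] [DecidableEq ι] {κ M : ℝ} {V : (ι → ℝ) → ℝ}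

/-- `P Pᵀ = 1 + Cov V`, `|u| ≤ |P u|`.  PROOF: `CM V = eᵀ diag(λ) e`, `λ ≥ 0` (`PSD.exists_eig`,
`CM_PSD`, as in `U1b`/`U2a`); `L = eᵀ diag(√(1+λ))`, `L' = diag(1/√(1+λ)) e`;
`|L u|² = ∑ (1+λ_i) u_i² ≥ |u|²`; `P` = the continuous linear equivalence with matrix `L`. -/
theorem exists_sqrt (H : Nice κ M V) : ∃ (P : (ι → ℝ) ≃L[ℝ] (ι → ℝ)) (L L' : Matrix ι ι ℝ),
    (∀ z, P z = L.mulVec z) ∧ L * L' = 1 ∧ L * L.transpose = 1 + CM V ∧
      ∀ u, h42k.sq u ≤ h42k.sq (P u) := by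
  obtain ⟨e, lam, he, hlam⟩ := (CM_PSD H).exists_eig
  have hpos : ∀ i, 0 < √(1 + lam i) := fun i => Real.sqrt_pos.2 (by linarith [hlam i])
  set L : Matrix ι ι ℝ := e.transpose * Matrix.diagonal (fun i => √(1 + lam i)) with hLd
  set L' : Matrix ι ι ℝ := Matrix.diagonal (fun i => (√(1 + lam i))⁻¹) * e with hLd'
  have hL : L * L' = 1 := by
    have h1 : L * L' = e.transpose * (Matrix.diagonal (fun i => √(1 + lam i)) *
        Matrix.diagonal (fun i => (√(1 + lam i))⁻¹)) * e := by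
      rw [hLd, hLd']
      simp only [Matrix.mul_assoc]
    rw [h1, Matrix.diagonal_mul_diagonal]
    have h2 : (fun i => √(1 + lam i) * (√(1 + lam i))⁻¹) = fun _ : ι => (1 : ℝ) :=
      funext fun i => mul_inv_cancel₀ (hpos i).ne'
    rw [h2, Matrix.diagonal_one, Matrix.mul_one, he.orth']
  have hL2 : L' * L = 1 := mul_eq_one_comm.1 hL
  have hS : L * L.transpose = 1 + CM V := by
    have h1 : L * L.transpose = e.transpose * (Matrix.diagonal (fun i => √(1 + lam i)) *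
        Matrix.diagonal (fun i => √(1 + lam i))) * e := by
      rw [hLd, Matrix.transpose_mul, Matrix.transpose_transpose, Matrix.diagonal_transpose]
      simp only [Matrix.mul_assoc]
    rw [h1, Matrix.diagonal_mul_diagonal]
    have h2 : (fun i => √(1 + lam i) * √(1 + lam i)) = fun i : ι => 1 + lam i :=
      funext fun i => Real.mul_self_sqrt (by linarith [hlam i])
    have h3 : (Matrix.diagonal fun i => 1 + lam i) = 1 + Matrix.diagonal lam := by
      rw [← Matrix.diagonal_one, Matrix.diagonal_add]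
    rw [h2, h3, Matrix.mul_add, Matrix.add_mul, Matrix.mul_one, he.orth', ← he.diag]
  refine ⟨(Matrix.toLin'OfInv hL2 hL).toContinuousLinearEquiv, L, L', fun z => rfl, hL, hS,
    fun u => ?_⟩
  have h1 : (Matrix.toLin'OfInv hL2 hL).toContinuousLinearEquiv u =
      e.transpose.mulVec ((Matrix.diagonal (fun i => √(1 + lam i))).mulVec u) := by
    rw [Matrix.mulVec_mulVec]
    rfl
  have h2 := sum_sq_mulVec (e := e.transpose) (by rw [Matrix.transpose_transpose, he.orth])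
    ((Matrix.diagonal (fun i => √(1 + lam i))).mulVec u)
  rw [h1]
  unfold h42k.sq
  rw [h2]
  refine Finset.sum_le_sum fun i _ => ?_
  rw [Matrix.mulVec_diagonal, mul_pow, Real.sq_sqrt (by linarith [hlam i])]
  nlinarith [mul_nonneg (hlam i) (_root_.sq_nonneg (u i))]

private theorem chg_inv (P : (ι → ℝ) ≃L[ℝ] (ι → ℝ)) {L : Matrix ι ι ℝ}
    (hP : ∀ z, P z = L.mulVec z) :
    ∃ R : Matrix ι ι ℝ, (∀ x, R.mulVec (P x) = x) ∧ L * R = 1 ∧ R * L = 1 := by
  refine ⟨LinearMap.toMatrix' (P.symm : (ι → ℝ) →ₗ[ℝ] (ι → ℝ)), ?_⟩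
  have h1 : ∀ x, (LinearMap.toMatrix' (P.symm : (ι → ℝ) →ₗ[ℝ] (ι → ℝ))).mulVec x =
      P.symm x := by
    intro x
    rw [← Matrix.toLin'_apply, Matrix.toLin'_toMatrix']
    rfl
  have h2 : (LinearMap.toMatrix' (P.symm : (ι → ℝ) →ₗ[ℝ] (ι → ℝ))) * L = 1 := by
    apply Matrix.toLin'.injective
    apply LinearMap.ext
    intro x
    rw [Matrix.toLin'_apply, Matrix.toLin'_apply, Matrix.one_mulVec, ← Matrix.mulVec_mulVec, h1,
      ← hP]
    exact P.symm_apply_apply x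
  refine ⟨fun x => ?_, mul_eq_one_comm.1 h2, h2⟩
  rw [h1]
  exact P.symm_apply_apply x

/-- The covariance matrix after the change of coordinates (`x_i = ∑_k L_ik z_k`, bilinearity of the
covariance, `cov_comp_lin`). -/
theorem CM_comp_lin (H : Nice κ M V) (P : (ι → ℝ) ≃L[ℝ] (ι → ℝ)) {L : Matrix ι ι ℝ}
    (hP : ∀ z, P z = L.mulVec z) :
    L * CM (fun z => V (P z)) * L.transpose = CM V := by
  obtain ⟨R, hR, hLR, hRL⟩ := chg_inv P hP
  rw [h42k.CM_comp_lin H P R hR]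
  have h1 : R.transpose * L.transpose = 1 := by
    rw [← Matrix.transpose_mul, hLR, Matrix.transpose_one]
  calc L * (R * CM V * R.transpose) * L.transpose
      = (L * R) * CM V * (R.transpose * L.transpose) := by simp only [Matrix.mul_assoc]
    _ = CM V := by rw [hLR, h1, Matrix.one_mul, Matrix.mul_one]

/-- `W = V ∘ P` is in the class `KW κ`.  PROOF: `Nice κ M' W` from `Nice.comp_lin` with `c = 1`
(`c'` from the boundedness of `P`); `L_W = L'`, `L_W' = L`: `L' L = 1` (`mul_eq_one_comm`),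
`L' L'ᵀ + CM W = 1` since `L (L' L'ᵀ + CM W) Lᵀ = 1 + CM V = L Lᵀ` and `L` is invertible;
`hs W x u = hs V (P x) (P u) ≥ κ |P u|²` (`hs_comp`). -/
theorem KW_of_nice (H : Nice κ M V) (P : (ι → ℝ) ≃L[ℝ] (ι → ℝ)) {L L' : Matrix ι ι ℝ}
    (hP : ∀ z, P z = L.mulVec z) (hL : L * L' = 1) (hS : L * L.transpose = 1 + CM V)
    (h1 : ∀ u, h42k.sq u ≤ h42k.sq (P u)) : ∃ M', KW κ M' (fun z => V (P z)) := by
  have hL2 : L' * L = 1 := mul_eq_one_comm.1 hL
  obtain ⟨κ', M', H'⟩ := H.comp_lin' P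
  have hh : ∀ x u, hs (fun z => V (P z)) x u = hs V (P x) (P u) := fun x u =>
    hs_comp (P : (ι → ℝ) →L[ℝ] (ι → ℝ)) H.c2 x u
  have H2 : Nice κ M' (fun z => V (P z)) := by
    refine ⟨H.kpos, H'.c2, fun x u => ?_, H'.hi⟩
    rw [hh]
    exact (mul_le_mul_of_nonneg_left (h1 u) H.kpos.le).trans (H.lo _ _)
  refine ⟨M', H2, L', L, hL2, ?_, fun x u => ?_⟩
  · have hR : ∀ x, L'.mulVec (P x) = x := fun x => by
      rw [hP, Matrix.mulVec_mulVec, hL2, Matrix.one_mulVec]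
    rw [h42k.CM_comp_lin H P L' hR]
    have h2 : L.transpose * L'.transpose = 1 := by
      rw [← Matrix.transpose_mul, hL2, Matrix.transpose_one]
    have h3 : L' * L'.transpose + L' * CM V * L'.transpose =
        L' * (1 + CM V) * L'.transpose := by
      rw [Matrix.mul_add, Matrix.add_mul, Matrix.mul_one]
    rw [h3, ← hS]
    calc L' * (L * L.transpose) * L'.transpose = (L' * L) * (L.transpose * L'.transpose) := by
          simp only [Matrix.mul_assoc]
      _ = 1 := by rw [hL2, h2, Matrix.one_mul]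
  · rw [hh, ← hP]
    exact H.lo _ _

/-- `Cov W ≤ 1` for `W` in the class. PROOF: `θᵀ CM W θ = |θ|² - |Lᵀ θ|²`; the variance of `⟨θ, x⟩`
is `∑ θ_i (CM W)_ij θ_j` (see `CM_mulVec`, S5h `dt_mulVec_eq_form` or `U2a`). -/
theorem KW.cle {W : (ι → ℝ) → ℝ} (h : KW κ M W) : CLe W 1 := by
  obtain ⟨H, L, L', hL, hC, hlo⟩ := h
  intro θ
  rw [← CM_quad H, form_eq, one_mul]
  have h1 : CM W = 1 - L * L.transpose := by
    rw [← hC]
    abel
  have h2 : dotProduct θ ((L * L.transpose).mulVec θ) =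
      dotProduct (L.transpose.mulVec θ) (L.transpose.mulVec θ) := by
    rw [← Matrix.mulVec_mulVec, Matrix.dotProduct_mulVec, ← Matrix.mulVec_transpose]
  have h3 : 0 ≤ dotProduct (L.transpose.mulVec θ) (L.transpose.mulVec θ) :=
    Finset.sum_nonneg fun i _ => mul_self_nonneg _
  have h4 : dotProduct θ θ = h42k.sq θ := by
    unfold h42k.sq dotProduct
    exact Finset.sum_congr rfl fun i _ => by ring
  rw [h1, Matrix.sub_mulVec, dotProduct_sub, Matrix.one_mulVec, h2, h4]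
  linarith

/-- Larger `κ`, smaller class. -/
theorem KW.mono {W : (ι → ℝ) → ℝ} {κ' : ℝ} (h0 : 0 < κ) (hκ : κ ≤ κ') (h : KW κ' M W) :
    KW κ M W := by
  obtain ⟨H, L, L', hL, hC, hlo⟩ := h
  refine ⟨⟨h0, H.c2, fun x u => ?_, H.hi⟩, L, L', hL, hC, fun x u => ?_⟩
  · exact (mul_le_mul_of_nonneg_right hκ (sq_nn u)).trans (H.lo x u)
  · exact (mul_le_mul_of_nonneg_right hκ (sq_nn _)).trans (hlo x u)

end Pool.Agent.Lib.MP_8d00da_gt.h28k
end

section

/-!
# Full KLS, part (delta): words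
-/

open scoped BigOperators InnerProductSpace

namespace Pool.Agent.Lib.MP_8d00da_gt.h28k

variable {ι : Type} [Fintype ι] [DecidableEq ι] {H : Type*} [NormedAddCommGroup H]
  [InnerProductSpace ℝ H]

theorem word_eq (S : h62a.Sys ι H) (L : List ι) (g : H) : S.word L g = wd S.T L g := by
  induction L with
  | nil => rfl
  | cons i L ih => simp only [h62a.Sys.word, wd, ih]

theorem xw_eq (S : h62a.Sys ι H) (L : List ι) (g : H) : S.xw L g = xwd S.T S.x L g := by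
  cases L with
  | nil => rfl
  | cons i L => simp only [h62a.Sys.xw, xwd, word_eq]

theorem a_eq (S : h62a.Sys ι H) (k : ℕ) (g : H) : S.a k g = aT S.T k g := by
  simp only [h62a.Sys.a, aT, word_eq]

theorem Mom_iff (S : h62a.Sys ι H) (l : ℕ) (m : ℝ) : S.Mom l m ↔ MomT S.T S.x l m := by
  simp only [h62a.Sys.Mom, MomT, xw_eq]

theorem wd_append (T : ι → H →L[ℝ] H) (L L' : List ι) (g : H) :
    wd T (L ++ L') g = wd T L (wd T L' g) := by
  induction L with
  | nil => rfl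
  | cons i L ih => simp only [List.cons_append, wd, ih]

private theorem Wd_xwd_snoc (T : ι → H →L[ℝ] H) (x : ι → H) (L : List ι) (hL : L ≠ []) (i : ι)
    (g : H) : xwd T x (L ++ [i]) g = xwd T x L (T i g) := by
  cases L with
  | nil => exact absurd rfl hL
  | cons j L => rw [List.cons_append, xwd, xwd, wd_append]; rfl

/-- `h65a.tW` is `xwd` along the reversed word. -/
theorem tW_eq (T : ι → H →L[ℝ] H) (x : ι → H) (l : ℕ) (w : Fin (l + 1) → ι) (g : H) :
    h65a.tW T x l w g = xwd T x (List.ofFn fun i => w i.rev) g := by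
  induction l generalizing g with
  | zero =>
    rw [h65a.tW]
    have h : (List.ofFn fun i : Fin (0 + 1) => w i.rev) = [w 0] := by
      simp [List.ofFn_succ]
    rw [h]
    rfl
  | succ l ih =>
    rw [h65a.tW, ih]
    have h : (List.ofFn fun i : Fin (l + 1 + 1) => w i.rev) =
        (List.ofFn fun i : Fin (l + 1) => Fin.tail w i.rev) ++ [w 0] := by
      rw [List.ofFn_succ', List.concat_eq_append]
      congr 1
      · congr 1
        funext i
        rw [Fin.rev_castSucc]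
        rfl
      · rw [Fin.rev_last]
    rw [h, Wd_xwd_snoc]
    intro h0
    have h1 := congrArg List.length h0
    rw [List.length_ofFn] at h1
    simp at h1

/-- Reversal of words does not change sums. -/
theorem sum_rev {α : Type*} [AddCommMonoid α] (l : ℕ) (F : (Fin l → ι) → α) :
    ∑ w : Fin l → ι, F (fun i => w i.rev) = ∑ w : Fin l → ι, F w := by
  have hi : Function.Involutive (fun (w : Fin l → ι) (i : Fin l) => w i.rev) := by
    intro w
    funext i
    simp only [Fin.rev_rev]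
  exact Equiv.sum_comp (hi.toPerm _) F

/-- From `∑ ⟪x_i, g⟫² ≤ |g|²`. -/
theorem sum_tW_sq (T : ι → H →L[ℝ] H) (x : ι → H)
    (hx : ∀ g : H, ∑ i, ⟪x i, g⟫_ℝ ^ 2 ≤ ‖g‖ ^ 2) (l : ℕ) (g : H) :
    ∑ w : Fin (l + 1) → ι, h65a.tW T x l w g ^ 2 ≤ aT T l g := by
  have h1 : ∑ w : Fin (l + 1) → ι, h65a.tW T x l w g ^ 2 =
      ∑ w : Fin (l + 1) → ι, xwd T x (List.ofFn w) g ^ 2 := by
    simp only [tW_eq]
    exact sum_rev (l + 1) fun w => xwd T x (List.ofFn w) g ^ 2
  rw [h1]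
  have h2 := (Fin.consEquiv (fun _ : Fin (l + 1) => ι)).sum_comp
    (fun w => xwd T x (List.ofFn w) g ^ 2)
  rw [← h2, Fintype.sum_prod_type_right]
  unfold aT
  refine Finset.sum_le_sum fun w _ => ?_
  refine le_trans (le_of_eq (Finset.sum_congr rfl fun i _ => ?_)) (hx (wd T (List.ofFn w) g))
  have h3 : List.ofFn ((Fin.consEquiv fun _ : Fin (l + 1) => ι) (i, w)) = i :: List.ofFn w := by
    rw [List.ofFn_succ]
    simp [Fin.consEquiv]
  rw [h3]
  rfl

/-- The moment bound in the form of `h65a.appell_bound`. -/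
theorem MomT_of_tW (T : ι → H →L[ℝ] H) (x : ι → H) (l : ℕ) (m : ℝ)
    (h : ∀ C : (Fin (l + 1) → ι) → ℝ, h65a.Sy (l + 1) C → ∀ g : H,
      (∑ w, C w * h65a.tW T x l w g) ^ 2 ≤ m * (∑ w, C w ^ 2) * ‖g‖ ^ 2) :
    MomT T x (l + 1) m := by
  intro C hC g
  have h1 := h C hC g
  have h2 : ∑ w, C w * h65a.tW T x l w g = ∑ w, C w * xwd T x (List.ofFn w) g := by
    rw [← sum_rev (l + 1) fun w => C w * xwd T x (List.ofFn w) g]
    refine Finset.sum_congr rfl fun w _ => ?_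
    rw [tW_eq]
    congr 1
    exact (hC Fin.revPerm w).symm
  rwa [h2] at h1

end Pool.Agent.Lib.MP_8d00da_gt.h28k
end
end

section

section

/-! # (M_l) applied slot-wise -/

open scoped BigOperators InnerProductSpace
open Finset

namespace Pool.Agent.Lib.MP_8d00da_gt.h62a

variable {ι : Type} [Fintype ι] {H : Type*} [NormedAddCommGroup H] [InnerProductSpace ℝ H]
variable (S : Sys ι H)

namespace M24

lemma sum_append {j r : ℕ} (F : (Fin (j + r) → ι) → ℝ) :
    ∑ c, F c = ∑ t : Fin r → ι, ∑ u : Fin j → ι, F (Fin.append u t) := by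
  rw [← (Fin.appendEquiv j r (α := ι)).sum_comp, Fintype.sum_prod_type_right]
  rfl

lemma sum_append' {n j r : ℕ} (hn : n = j + r) (F : (Fin n → ι) → ℝ) :
    ∑ c, F c = ∑ t : Fin r → ι, ∑ u : Fin j → ι, F (Fin.append u t ∘ Fin.cast hn) := by
  subst hn
  exact sum_append F

/-- extend a permutation of the first `j` slots -/
def extP {j r : ℕ} (σ : Equiv.Perm (Fin j)) : Equiv.Perm (Fin (j + r)) :=
  (finSumFinEquiv.symm.trans ((Equiv.sumCongr σ (Equiv.refl (Fin r))).trans finSumFinEquiv))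

omit [Fintype ι] in
lemma append_extP {j r : ℕ} (σ : Equiv.Perm (Fin j)) (u : Fin j → ι) (t : Fin r → ι) :
    Fin.append u t ∘ extP σ = Fin.append (u ∘ σ) t := by
  funext i
  refine Fin.addCases (fun i => ?_) (fun i => ?_) i
  · simp [extP]
  · simp [extP]

lemma extP_fix {j r : ℕ} (σ : Equiv.Perm (Fin j)) (i : Fin (j + r)) (hi : j ≤ i.val) :
    extP (r := r) σ i = i := by
  revert hi
  refine Fin.addCases (fun i => ?_) (fun i => ?_) i
  · intro hi
    simp at hi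
    omega
  · intro _
    simp [extP]

lemma sum_cons {r : ℕ} (F : (Fin (r + 1) → ι) → ℝ) :
    ∑ t, F t = ∑ i : ι, ∑ v : Fin r → ι, F (Fin.cons i v) := by
  rw [← (Fin.consEquiv (fun _ : Fin (r + 1) => ι)).sum_comp, Fintype.sum_prod_type]
  rfl

omit [Fintype ι] in
lemma ofFn_append_cast {n j r : ℕ} (hn : n = j + r) (u : Fin j → ι) (t : Fin r → ι) :
    List.ofFn (Fin.append u t ∘ Fin.cast hn) = List.ofFn u ++ List.ofFn t := by
  subst hn
  simp [List.ofFn_fin_append u t]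

omit [Fintype ι] in
lemma append_swap {j r : ℕ} (u : Fin j → ι) (t : Fin r → ι) (p q : Fin r) :
    Fin.append u t ∘ Equiv.swap (Fin.natAdd j p) (Fin.natAdd j q)
      = Fin.append u (t ∘ Equiv.swap p q) := by
  funext i
  refine Fin.addCases (fun i => ?_) (fun i => ?_) i
  · have h1 : Fin.castAdd r i ≠ Fin.natAdd j p := by
      intro h
      have := congrArg Fin.val h
      simp at this
      omega
    have h2 : Fin.castAdd r i ≠ Fin.natAdd j q := by
      intro h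
      have := congrArg Fin.val h
      simp at this
      omega
    simp [Equiv.swap_apply_of_ne_of_ne h1 h2]
  · simp only [Function.comp_apply, Fin.append_right]
    by_cases hp : i = p
    · subst hp
      simp
    · by_cases hq : i = q
      · subst hq
        simp
      · have h1 : Fin.natAdd j i ≠ Fin.natAdd j p := by
          intro h
          exact hp (Fin.natAdd_injective _ _ h)
        have h2 : Fin.natAdd j i ≠ Fin.natAdd j q := by
          intro h
          exact hq (Fin.natAdd_injective _ _ h)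
        rw [Equiv.swap_apply_of_ne_of_ne h1 h2, Equiv.swap_apply_of_ne_of_ne hp hq]
        simp


theorem PJ {n j r : ℕ} (hn : n = j + r) {m : ℝ} (hm : 0 ≤ m)
    (hM : S.Mom j m) (Y : EuclideanSpace ℝ (Fin n → ι))
    (h : (Fin r → ι) → H)
    (hY : ∀ (u : Fin j → ι) (t : Fin r → ι),
      Y (Fin.append u t ∘ Fin.cast hn) = S.xw (List.ofFn u) (h t)) :
    ‖U (act ι n) Y j‖ ^ 2 ≤ m * ∑ t, ‖h t‖ ^ 2 := by
  have hjn : j ≤ n := by omega
  set Z : (Fin n → ι) → ℝ := fun c => U (act ι n) Y j c with hZdef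
  have hZ : ∀ σ : Equiv.Perm (Fin n), (∀ i : Fin n, j ≤ i.val → σ i = i) →
      ∀ c, Z (c ∘ σ) = Z c := by
    intro σ hσ c
    have h1 := U_inv (act ι n) Y j hjn σ hσ
    have h2 := act_apply ι n σ (U (act ι n) Y j) c
    rw [h1] at h2
    exact h2.symm
  have hnorm : ‖U (act ι n) Y j‖ ^ 2 = ∑ c, Z c ^ 2 := by
    rw [EuclideanSpace.norm_sq_eq]
    refine Finset.sum_congr rfl (fun c _ => ?_)
    rw [Real.norm_eq_abs, sq_abs]
  have hZY : ∑ c, Z c * Y c = ∑ c, Z c ^ 2 := by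
    have h1 := inner_U_self (act ι n) Y j hjn
    rw [hnorm] at h1
    rw [← h1, PiLp.inner_apply]
    refine Finset.sum_congr rfl (fun c _ => ?_)
    simp [hZdef, mul_comm]
  rw [hnorm]
  clear_value Z
  subst hn
  have hY' : ∀ (u : Fin j → ι) (t : Fin r → ι),
      Y (Fin.append u t) = S.xw (List.ofFn u) (h t) := fun u t => hY u t
  set Q : ℝ := ∑ c, Z c ^ 2 with hS
  have hS0 : 0 ≤ Q := Finset.sum_nonneg (fun c _ => sq_nonneg _)
  have hN0 : 0 ≤ ∑ t, ‖h t‖ ^ 2 := Finset.sum_nonneg (fun c _ => sq_nonneg _)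
  set A : (Fin r → ι) → ℝ := fun t => ∑ u : Fin j → ι, Z (Fin.append u t) ^ 2 with hA
  have hA0 : ∀ t, 0 ≤ A t := fun t => Finset.sum_nonneg (fun c _ => sq_nonneg _)
  have hSA : Q = ∑ t, A t := by rw [hS, sum_append]
  set p : (Fin r → ι) → ℝ := fun t => ∑ u : Fin j → ι,
    Z (Fin.append u t) * S.xw (List.ofFn u) (h t) with hp
  have hSp : Q = ∑ t, p t := by
    rw [← hZY, sum_append]
    refine Finset.sum_congr rfl (fun t _ => Finset.sum_congr rfl (fun u _ => ?_))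
    rw [hY']
  have hpt : ∀ t, p t ^ 2 ≤ m * A t * ‖h t‖ ^ 2 := by
    intro t
    refine hM (fun u => Z (Fin.append u t)) ?_ (h t)
    intro σ c
    show Z (Fin.append (c ∘ σ) t) = Z (Fin.append c t)
    rw [← append_extP σ c t]
    exact hZ (extP σ) (fun i hi => extP_fix σ i hi) _
  have hle : Q ≤ ∑ t, Real.sqrt (m * A t) * ‖h t‖ := by
    rw [hSp]
    refine Finset.sum_le_sum (fun t _ => ?_)
    have h1 : p t ≤ |p t| := le_abs_self _
    refine h1.trans ?_
    rw [← Real.sqrt_sq (norm_nonneg (h t)), ← Real.sqrt_mul (mul_nonneg hm (hA0 t)),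
      ← Real.sqrt_sq_eq_abs]
    exact Real.sqrt_le_sqrt (hpt t)
  have hsq : Q ^ 2 ≤ (m * Q) * ∑ t, ‖h t‖ ^ 2 := by
    have h1 : Q ^ 2 ≤ (∑ t, Real.sqrt (m * A t) * ‖h t‖) ^ 2 :=
      pow_le_pow_left₀ hS0 hle 2
    have h2 := Finset.sum_mul_sq_le_sq_mul_sq Finset.univ (fun t => Real.sqrt (m * A t))
      (fun t => ‖h t‖)
    have h3 : ∑ t, Real.sqrt (m * A t) ^ 2 = m * Q := by
      rw [hSA, Finset.mul_sum]
      refine Finset.sum_congr rfl (fun t _ => ?_)
      rw [Real.sq_sqrt (mul_nonneg hm (hA0 t))]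
    rw [h3] at h2
    exact h1.trans h2
  rcases eq_or_lt_of_le hS0 with h0 | h0
  · rw [← h0]; positivity
  · have : Q * Q ≤ Q * (m * ∑ t, ‖h t‖ ^ 2) := by nlinarith [hsq]
    exact le_of_mul_le_mul_left this h0

omit [Fintype ι] in
theorem ofFn_ne_nil {j : ℕ} (hj : 0 < j) (u : Fin j → ι) : List.ofFn u ≠ [] := by
  intro h0
  have := congrArg List.length h0
  simp at this
  omega

/-- commutator of the letters `j`, `j+1`. -/
theorem bound_K {n j r : ℕ} (hn : n = j + (r + 2))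
    (hj : 0 < j) {m : ℝ} (hm : 0 ≤ m) (hM : S.Mom j m) (g : H) :
    e0 (act ι n) (S.XX n g) j ^ 2 ≤ m * S.al r g := by
  have hjn : j ≤ n := by omega
  have hjn1 : j < n := by omega
  have hjn2 : j + 1 < n := by omega
  set Y : EuclideanSpace ℝ (Fin n → ι) :=
    (1 / 2 : ℝ) • (S.XX n g - act ι n (tau n j (j + 1)) (S.XX n g)) with hYdef
  have he : e0 (act ι n) (S.XX n g) j = ‖U (act ι n) Y j‖ := by
    rw [hYdef, U_smul, U_sub, ← U_comm (act ι n) _ _ j hjn
      (fun p hp => tau_below le_rfl (Nat.le_succ j) p hp), norm_smul]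
    unfold e0
    norm_num
    ring
  rw [he]
  have hYc : ∀ c, Y c = (1 / 2) * (S.xw (List.ofFn c) g
      - S.xw (List.ofFn (c ∘ Equiv.swap ⟨j, by omega⟩ ⟨j + 1, by omega⟩)) g) := by
    intro c
    have h1 := act_apply ι n (tau n j (j + 1)) (S.XX n g) c
    rw [tau_of_lt hjn1 hjn2] at h1
    have h2 : Y c = (1 / 2 : ℝ) * (S.XX n g c - act ι n (tau n j (j + 1)) (S.XX n g) c) := rfl
    rw [h2, tau_of_lt hjn1 hjn2, h1]
    rfl
  clear_value Y
  have key := PJ S hn hm hM Y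
    (fun t => (1 / 2 : ℝ) • (S.T (t 0) (S.T (t 1)
        (S.word (List.ofFn (fun i => t i.succ.succ)) g))
      - S.T (t 1) (S.T (t 0) (S.word (List.ofFn (fun i => t i.succ.succ)) g)))) ?_
  · refine key.trans (le_of_eq ?_)
    congr 1
    rw [Sys.al]
    have : ∀ F : ι → ι → (Fin r → ι) → ℝ, ∑ v, (∑ i, ∑ j, F i j v) / 4
        = ∑ i, ∑ j, ∑ v, F i j v / 4 := by
      intro F
      simp only [Finset.sum_div]
      rw [Finset.sum_comm]
      refine Finset.sum_congr rfl (fun i _ => ?_)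
      rw [Finset.sum_comm]
    rw [this (fun i j v => ‖S.T i (S.T j (S.word (List.ofFn v) g))
      - S.T j (S.T i (S.word (List.ofFn v) g))‖ ^ 2), sum_cons]
    refine Finset.sum_congr rfl (fun i _ => ?_)
    rw [sum_cons]
    refine Finset.sum_congr rfl (fun i' _ => ?_)
    refine Finset.sum_congr rfl (fun v _ => ?_)
    rw [norm_smul, mul_pow]
    have e1 : (Fin.cons i (Fin.cons i' v : Fin (r + 1) → ι) : Fin (r + 2) → ι) 1 = i' := rfl
    have e2 : (fun p : Fin r => (Fin.cons i (Fin.cons i' v : Fin (r + 1) → ι) : Fin (r + 2) → ι)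
      p.succ.succ) = v := rfl
    rw [e1, e2]
    simp only [Fin.cons_zero]
    norm_num
    ring
  · intro u t
    subst hn
    rw [hYc]
    have ec : (Fin.append u t ∘ Fin.cast rfl : Fin (j + (r + 2)) → ι) = Fin.append u t := rfl
    rw [ec]
    have es : (Equiv.swap (⟨j, by omega⟩ : Fin (j + (r + 2))) ⟨j + 1, by omega⟩)
        = Equiv.swap (Fin.natAdd j (0 : Fin (r + 2))) (Fin.natAdd j 1) := rfl
    rw [es, append_swap]
    have hu : List.ofFn u ≠ [] := ofFn_ne_nil hj u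
    have o1 : ∀ t : Fin (r + 2) → ι, List.ofFn (Fin.append u t) = List.ofFn u ++ List.ofFn t :=
      fun t => List.ofFn_fin_append u t
    rw [o1, o1, S.xw_append _ _ _ hu, S.xw_append _ _ _ hu, ← S.xw_sub, ← S.xw_smul]
    congr 2
    have o2 : ∀ t : Fin (r + 2) → ι, S.word (List.ofFn t) g
        = S.T (t 0) (S.T (t 1) (S.word (List.ofFn (fun i => t i.succ.succ)) g)) := by
      intro t
      rw [List.ofFn_succ, List.ofFn_succ]
      rfl
    rw [o2, o2]
    have s0 : (t ∘ Equiv.swap (0 : Fin (r + 2)) 1) 0 = t 1 := by simp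
    have s1 : (t ∘ Equiv.swap (0 : Fin (r + 2)) 1) 1 = t 0 := by simp
    have s2 : (fun i : Fin r => (t ∘ Equiv.swap (0 : Fin (r + 2)) 1) i.succ.succ)
        = fun i : Fin r => t i.succ.succ := by
      funext i
      simp only [Function.comp_apply]
      rw [Equiv.swap_apply_of_ne_of_ne]
      · exact Fin.succ_ne_zero _
      · intro h
        have := congrArg Fin.val h
        simp at this
    rw [s0, s1, s2]

/-- commutator of the letters `j+1`, `j+2`. -/
theorem bound_K' {n j r : ℕ} (hn : n = j + (r + 3))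
    (hj : 0 < j) {m : ℝ} (hm : 0 ≤ m) (hM : S.Mom j m)
    {A : ℝ} (hA : ∀ g : H, ∑ i, ‖S.T i g‖ ^ 2 ≤ A * ‖g‖ ^ 2) (g : H) :
    e1 (act ι n) (S.XX n g) j ^ 2 ≤ m * (A * S.al r g) := by
  have hjn : j ≤ n := by omega
  have hjn1 : j + 1 < n := by omega
  have hjn2 : j + 2 < n := by omega
  set Y : EuclideanSpace ℝ (Fin n → ι) :=
    (1 / 2 : ℝ) • (S.XX n g - act ι n (tau n (j + 1) (j + 2)) (S.XX n g)) with hYdef
  have he : e1 (act ι n) (S.XX n g) j = ‖U (act ι n) Y j‖ := by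
    rw [hYdef, U_smul, U_sub, ← U_comm (act ι n) _ _ j hjn
      (fun p hp => tau_below (by omega) (by omega) p hp), norm_smul]
    unfold e1
    norm_num
    ring
  rw [he]
  have hYc : ∀ c, Y c = (1 / 2) * (S.xw (List.ofFn c) g
      - S.xw (List.ofFn (c ∘ Equiv.swap ⟨j + 1, by omega⟩ ⟨j + 2, by omega⟩)) g) := by
    intro c
    have h1 := act_apply ι n (tau n (j + 1) (j + 2)) (S.XX n g) c
    rw [tau_of_lt hjn1 hjn2] at h1
    have h2 : Y c = (1 / 2 : ℝ) * (S.XX n g c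
      - act ι n (tau n (j + 1) (j + 2)) (S.XX n g) c) := rfl
    rw [h2, tau_of_lt hjn1 hjn2, h1]
    rfl
  clear_value Y
  have key := PJ S hn hm hM Y
    (fun t => (1 / 2 : ℝ) • S.T (t 0)
      (S.T (t 1) (S.T (t 2) (S.word (List.ofFn (fun i => t i.succ.succ.succ)) g))
      - S.T (t 2) (S.T (t 1) (S.word (List.ofFn (fun i => t i.succ.succ.succ)) g)))) ?_
  · refine key.trans (mul_le_mul_of_nonneg_left ?_ hm)
    rw [Sys.al]
    have : ∀ F : ι → ι → (Fin r → ι) → ℝ, ∑ v, (∑ i, ∑ j, F i j v) / 4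
        = ∑ i, ∑ j, ∑ v, F i j v / 4 := by
      intro F
      simp only [Finset.sum_div]
      rw [Finset.sum_comm]
      refine Finset.sum_congr rfl (fun i _ => ?_)
      rw [Finset.sum_comm]
    rw [this (fun i j v => ‖S.T i (S.T j (S.word (List.ofFn v) g))
      - S.T j (S.T i (S.word (List.ofFn v) g))‖ ^ 2), sum_cons, Finset.sum_comm, sum_cons,
      Finset.mul_sum]
    refine Finset.sum_le_sum (fun i _ => ?_)
    rw [sum_cons, Finset.mul_sum]
    refine Finset.sum_le_sum (fun i' _ => ?_)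
    rw [Finset.mul_sum]
    refine Finset.sum_le_sum (fun v _ => ?_)
    have e1 : ∀ y : ι, (Fin.cons y (Fin.cons i (Fin.cons i' v : Fin (r + 1) → ι) :
      Fin (r + 2) → ι) : Fin (r + 3) → ι) 1 = i := fun _ => rfl
    have e3 : ∀ y : ι, (Fin.cons y (Fin.cons i (Fin.cons i' v : Fin (r + 1) → ι) :
      Fin (r + 2) → ι) : Fin (r + 3) → ι) 2 = i' := fun _ => rfl
    have e2 : ∀ y : ι, (fun p : Fin r => (Fin.cons y (Fin.cons i
      (Fin.cons i' v : Fin (r + 1) → ι) : Fin (r + 2) → ι) : Fin (r + 3) → ι)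
      p.succ.succ.succ) = v := fun _ => rfl
    simp only [e1, e2, e3, Fin.cons_zero]
    have h1 := hA (S.T i (S.T i' (S.word (List.ofFn v) g))
      - S.T i' (S.T i (S.word (List.ofFn v) g)))
    have h2 : ∑ y, ‖(1 / 2 : ℝ) • S.T y (S.T i (S.T i' (S.word (List.ofFn v) g))
        - S.T i' (S.T i (S.word (List.ofFn v) g)))‖ ^ 2
        = (∑ y, ‖S.T y (S.T i (S.T i' (S.word (List.ofFn v) g))
        - S.T i' (S.T i (S.word (List.ofFn v) g)))‖ ^ 2) / 4 := by
      rw [Finset.sum_div]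
      refine Finset.sum_congr rfl (fun y _ => ?_)
      rw [norm_smul, mul_pow]
      norm_num
      ring
    rw [h2]
    linarith
  · intro u t
    subst hn
    rw [hYc]
    have ec : (Fin.append u t ∘ Fin.cast rfl : Fin (j + (r + 3)) → ι) = Fin.append u t := rfl
    rw [ec]
    have es : (Equiv.swap (⟨j + 1, by omega⟩ : Fin (j + (r + 3))) ⟨j + 2, by omega⟩)
        = Equiv.swap (Fin.natAdd j (1 : Fin (r + 3))) (Fin.natAdd j 2) := rfl
    rw [es, append_swap]
    have hu : List.ofFn u ≠ [] := ofFn_ne_nil hj u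
    have o1 : ∀ t : Fin (r + 3) → ι, List.ofFn (Fin.append u t) = List.ofFn u ++ List.ofFn t :=
      fun t => List.ofFn_fin_append u t
    rw [o1, o1, S.xw_append _ _ _ hu, S.xw_append _ _ _ hu, ← S.xw_sub, ← S.xw_smul]
    congr 2
    have o2 : ∀ t : Fin (r + 3) → ι, S.word (List.ofFn t) g
        = S.T (t 0) (S.T (t 1) (S.T (t 2)
          (S.word (List.ofFn (fun i => t i.succ.succ.succ)) g))) := by
      intro t
      rw [List.ofFn_succ, List.ofFn_succ, List.ofFn_succ]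
      rfl
    rw [o2, o2]
    have s0 : (t ∘ Equiv.swap (1 : Fin (r + 3)) 2) 0 = t 0 := by
      simp only [Function.comp_apply]
      rw [Equiv.swap_apply_of_ne_of_ne]
      · intro h
        have := congrArg Fin.val h
        simp at this
      · intro h
        have h2 : (0 : ℕ) = 2 % (r + 3) := congrArg Fin.val h
        rw [Nat.mod_eq_of_lt (by omega)] at h2
        omega
    have s1 : (t ∘ Equiv.swap (1 : Fin (r + 3)) 2) 1 = t 2 := by simp
    have s3 : (t ∘ Equiv.swap (1 : Fin (r + 3)) 2) 2 = t 1 := by simp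
    have s2 : (fun i : Fin r => (t ∘ Equiv.swap (1 : Fin (r + 3)) 2) i.succ.succ.succ)
        = fun i : Fin r => t i.succ.succ.succ := by
      funext i
      simp only [Function.comp_apply]
      rw [Equiv.swap_apply_of_ne_of_ne]
      · intro h
        have := congrArg Fin.val h
        simp at this
      · intro h
        have h2 : (i : ℕ) + 1 + 1 + 1 = 2 % (r + 3) := congrArg Fin.val h
        rw [Nat.mod_eq_of_lt (by omega)] at h2
        omega
    rw [s0, s1, s2, s3, ← map_sub]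

end M24

/-- key lemma: the first `l` slots come from a family `h` of vectors indexed by the last `t`
slots. Proof: `U (act ι (l+t)) Y l` at `Fin.append A B` equals `U (act ι l) (Y (Fin.append · B)) l`
at `A`; for fixed `B` put `C := U (act ι l) (Y (Fin.append · B)) l`: it is symmetric and
`∑ C * Y = ∑ C ^ 2` (orthogonal projection), so (M_l) gives `∑ C ^ 2 ≤ m ‖h B‖ ^ 2`. -/
theorem Sys.mom_split (l t : ℕ) (_hl : 1 ≤ l) (m : ℝ) (hm : 0 ≤ m) (hM : S.Mom l m)
    (h : (Fin t → ι) → H) :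
    ‖U (act ι (l + t)) (WithLp.toLp 2 (fun I : Fin (l + t) → ι =>
        S.xw (List.ofFn (fun p : Fin l => I (Fin.castAdd t p)))
          (h (fun q : Fin t => I (Fin.natAdd l q))))) l‖ ^ 2
      ≤ m * ∑ B : Fin t → ι, ‖h B‖ ^ 2 := by
  refine M24.PJ S rfl hm hM _ h ?_
  intro u v
  show S.xw (List.ofFn (fun p : Fin l => Fin.append u v (Fin.castAdd t p)))
    (h (fun q : Fin t => Fin.append u v (Fin.natAdd l q))) = _
  simp only [Fin.append_left, Fin.append_right]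

/-- `|P_l X_M|² ≤ m_l a_{M-l}`. -/
theorem Sys.U_XX_le (M l : ℕ) (hl : 1 ≤ l) (hlM : l ≤ M) (m : ℝ) (hm : 0 ≤ m) (hM : S.Mom l m)
    (g : H) : ‖U (act ι M) (S.XX M g) l‖ ^ 2 ≤ m * S.a (M - l) g := by
  have hn : M = l + (M - l) := by omega
  refine M24.PJ S hn hm hM (S.XX M g) (fun t => S.word (List.ofFn t) g) ?_
  intro u t
  show S.xw (List.ofFn (Fin.append u t ∘ Fin.cast hn)) g = _
  rw [M24.ofFn_append_cast hn, S.xw_append _ _ _ (M24.ofFn_ne_nil hl u)]

/-- `e_j² ≤ m_j al (k-j)`. -/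
theorem Sys.e0_le (k j : ℕ) (hj : 1 ≤ j) (hjk : j ≤ k) (m : ℝ) (hm : 0 ≤ m) (hM : S.Mom j m)
    (g : H) : e0 (act ι (k + 2)) (S.XX (k + 2) g) j ^ 2 ≤ m * S.al (k - j) g :=
  M24.bound_K S (by omega) hj hm hM g

/-- `e'_j² ≤ m_j t_1 al (k-1-j)`. -/
theorem Sys.e1_le (k j : ℕ) (hj : 1 ≤ j) (hjk : j + 1 ≤ k) (m : ℝ) (hm : 0 ≤ m) (hM : S.Mom j m)
    (t1 : ℝ) (ht : ∀ h, S.a 1 h ≤ t1 * ‖h‖ ^ 2)
    (g : H) : e1 (act ι (k + 2)) (S.XX (k + 2) g) j ^ 2 ≤ m * (t1 * S.al (k - 1 - j) g) := by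
  refine M24.bound_K' S (by omega) hj hm hM (fun h => ?_) g
  have h1 := ht h
  rw [Sys.a, M24.sum_cons] at h1
  simpa [Sys.word] using h1

end Pool.Agent.Lib.MP_8d00da_gt.h62a
end

section

/-! # the bound for `|X_{k+2}|²` -/

open scoped BigOperators InnerProductSpace
open Finset

namespace Pool.Agent.Lib.MP_8d00da_gt.h62a

variable {ι : Type} [Fintype ι] {H : Type*} [NormedAddCommGroup H] [InnerProductSpace ℝ H]
variable (S : Sys ι H)

theorem sum_inv_sq_le (s : Finset ℕ) : ∑ j ∈ s, 1 / (j : ℝ) ^ 2 ≤ 5 / 3 := by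
  have h := hasSum_zeta_two
  have h1 : ∑ j ∈ s, 1 / (j : ℝ) ^ 2 ≤ Real.pi ^ 2 / 6 :=
    sum_le_hasSum s (fun j _ => by positivity) h
  have h2 : Real.pi ^ 2 / 6 ≤ 5 / 3 := by
    have := Real.pi_lt_d2
    have h0 := Real.pi_pos
    nlinarith
  exact h1.trans h2

theorem Sys.zz_eq (k : ℕ) (g : H) : S.zz k g = ‖S.XX (k + 2) g‖ ^ 2 := by
  rw [EuclideanSpace.norm_sq_eq]
  simp [Sys.zz, Sys.XX]

/-- (early): `42 (∑ j(j+1)(e_j+e'_j))² ≤ 42 · (5/3) · 2 · ∑ j⁴(j+1)² (e_j²+e'_j²)`. -/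
theorem Sys.early (k b : ℕ) (hb : 1 ≤ b) (hbk : b ≤ k + 1) (m : ℕ → ℝ) (hm : ∀ l, 0 ≤ m l)
    (hM : ∀ l, 1 ≤ l → l ≤ b → S.Mom l (m l)) (t1 : ℝ) (ht0 : 0 ≤ t1)
    (ht : ∀ h, S.a 1 h ≤ t1 * ‖h‖ ^ 2) (g : H) :
    S.zz k g ≤ 2 * (b : ℝ) ^ 2 * m b * S.a (k + 2 - b) g
      + 140 * ∑ j ∈ Icc 1 (b - 1), (j : ℝ) ^ 4 * ((j : ℝ) + 1) ^ 2 * m j *
          (S.al (k - j) g + if j + 1 ≤ k then t1 * S.al (k - (j + 1)) g else 0) := by
  have hI : Icc 1 (b - 1) = Ico 1 b := by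
    ext j; simp only [mem_Icc, mem_Ico]; omega
  rw [hI, S.zz_eq]
  have hsym := sym_lemma (act ι (k + 2)) (S.XX (k + 2) g) b hb (by omega)
  have hU := S.U_XX_le (k + 2) b hb (by omega) (m b) (hm b) (hM b hb le_rfl) g
  set E0 : ℕ → ℝ := fun j => e0 (act ι (k + 2)) (S.XX (k + 2) g) j with hE0
  set E1 : ℕ → ℝ := fun j => if j < b - 1 then e1 (act ι (k + 2)) (S.XX (k + 2) g) j else 0
    with hE1
  set W : ℕ → ℝ := fun j => (j : ℝ) ^ 4 * ((j : ℝ) + 1) ^ 2 * m j *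
          (S.al (k - j) g + if j + 1 ≤ k then t1 * S.al (k - (j + 1)) g else 0) with hW
  have hsum : (∑ j ∈ Ico 1 b, (j : ℝ) * ((j : ℝ) + 1) * e0 (act ι (k + 2)) (S.XX (k + 2) g) j
      + ∑ j ∈ Ico 1 (b - 1), (j : ℝ) * ((j : ℝ) + 1) * e1 (act ι (k + 2)) (S.XX (k + 2) g) j)
      = ∑ j ∈ Ico 1 b, (j : ℝ) * ((j : ℝ) + 1) * (E0 j + E1 j) := by
    have h1 : ∑ j ∈ Ico 1 (b - 1), (j : ℝ) * ((j : ℝ) + 1) *
        e1 (act ι (k + 2)) (S.XX (k + 2) g) j = ∑ j ∈ Ico 1 b, (j : ℝ) * ((j : ℝ) + 1) * E1 j := by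
      have h2 : ∑ j ∈ Ico 1 (b - 1), (j : ℝ) * ((j : ℝ) + 1) * E1 j
          = ∑ j ∈ Ico 1 b, (j : ℝ) * ((j : ℝ) + 1) * E1 j := by
        refine sum_subset (Ico_subset_Ico_right (by omega)) fun j hj hj' => ?_
        have : ¬ j < b - 1 := by
          simp only [mem_Ico] at hj hj'; omega
        simp [hE1, this]
      rw [← h2]
      refine sum_congr rfl fun j hj => ?_
      have : j < b - 1 := (mem_Ico.1 hj).2
      simp [hE1, this]
    rw [h1, ← sum_add_distrib]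
    exact sum_congr rfl fun j _ => by simp only [hE0]; ring
  have hterm : ∀ j ∈ Ico 1 b, (j : ℝ) ^ 4 * ((j : ℝ) + 1) ^ 2 * (E0 j + E1 j) ^ 2 ≤ 2 * W j := by
    intro j hj
    have hj1 := (mem_Ico.1 hj).1
    have hj2 := (mem_Ico.1 hj).2
    have h0 : E0 j ^ 2 ≤ m j * S.al (k - j) g :=
      S.e0_le k j hj1 (by omega) (m j) (hm j) (hM j hj1 hj2.le) g
    have h1 : E1 j ^ 2 ≤ m j * (if j + 1 ≤ k then t1 * S.al (k - (j + 1)) g else 0) := by
      by_cases hjb : j < b - 1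
      · have hjk : j + 1 ≤ k := by omega
        have := S.e1_le k j hj1 hjk (m j) (hm j) (hM j hj1 hj2.le) t1 ht g
        simp only [hE1, hjb, if_true, hjk]
        rwa [show k - 1 - j = k - (j + 1) by omega] at this
      · simp only [hE1, hjb, if_false]
        have : 0 ≤ (if j + 1 ≤ k then t1 * S.al (k - (j + 1)) g else 0) := by
          split_ifs
          · exact mul_nonneg ht0 (S.al_nonneg _ _)
          · exact le_rfl
        simpa using mul_nonneg (hm j) this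
    have h2 : (E0 j + E1 j) ^ 2 ≤ 2 * (m j * (S.al (k - j) g +
        if j + 1 ≤ k then t1 * S.al (k - (j + 1)) g else 0)) := by
      nlinarith [sq_nonneg (E0 j - E1 j)]
    have h3 : 0 ≤ (j : ℝ) ^ 4 * ((j : ℝ) + 1) ^ 2 := by positivity
    calc (j : ℝ) ^ 4 * ((j : ℝ) + 1) ^ 2 * (E0 j + E1 j) ^ 2
        ≤ (j : ℝ) ^ 4 * ((j : ℝ) + 1) ^ 2 * (2 * (m j * (S.al (k - j) g +
          if j + 1 ≤ k then t1 * S.al (k - (j + 1)) g else 0))) :=
          mul_le_mul_of_nonneg_left h2 h3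
      _ = 2 * W j := by simp only [hW]; ring
  have hcs : (∑ j ∈ Ico 1 b, (j : ℝ) * ((j : ℝ) + 1) * (E0 j + E1 j)) ^ 2
      ≤ (∑ j ∈ Ico 1 b, 1 / (j : ℝ) ^ 2) *
        ∑ j ∈ Ico 1 b, (j : ℝ) ^ 4 * ((j : ℝ) + 1) ^ 2 * (E0 j + E1 j) ^ 2 := by
    refine sum_sq_le_sum_mul_sum_of_sq_le_mul _ (fun j _ => by positivity)
      (fun j _ => by positivity) fun j hj => ?_
    have hj0 : (j : ℝ) ≠ 0 := by
      have := (mem_Ico.1 hj).1
      positivity
    refine le_of_eq ?_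
    field_simp
  have hnn : 0 ≤ ∑ j ∈ Ico 1 b, (j : ℝ) ^ 4 * ((j : ℝ) + 1) ^ 2 * (E0 j + E1 j) ^ 2 :=
    sum_nonneg fun j _ => by positivity
  have h5 : ∑ j ∈ Ico 1 b, (j : ℝ) ^ 4 * ((j : ℝ) + 1) ^ 2 * (E0 j + E1 j) ^ 2
      ≤ 2 * ∑ j ∈ Ico 1 b, W j := by
    rw [mul_sum]
    exact sum_le_sum hterm
  have h6 : (∑ j ∈ Ico 1 b, (j : ℝ) * ((j : ℝ) + 1) * (E0 j + E1 j)) ^ 2
      ≤ 5 / 3 * (2 * ∑ j ∈ Ico 1 b, W j) :=
    hcs.trans (mul_le_mul (sum_inv_sq_le _) h5 hnn (by norm_num))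
  rw [hsum] at hsym
  have h7 : 2 * (b : ℝ) ^ 2 * ‖U (act ι (k + 2)) (S.XX (k + 2) g) b‖ ^ 2
      ≤ 2 * (b : ℝ) ^ 2 * (m b * S.a (k + 2 - b) g) :=
    mul_le_mul_of_nonneg_left hU (by positivity)
  calc ‖S.XX (k + 2) g‖ ^ 2 ≤ _ := hsym
    _ ≤ 2 * (b : ℝ) ^ 2 * (m b * S.a (k + 2 - b) g)
        + 42 * (5 / 3 * (2 * ∑ j ∈ Ico 1 b, W j)) := by linarith
    _ = 2 * (b : ℝ) ^ 2 * m b * S.a (k + 2 - b) g + 140 * ∑ j ∈ Ico 1 b, W j := by ring

end Pool.Agent.Lib.MP_8d00da_gt.h62a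
end

section

/-! # Final theorem of (alpha) -/

open scoped BigOperators InnerProductSpace
open Finset

namespace Pool.Agent.Lib.MP_8d00da_gt.h62a

variable {ι : Type} [Fintype ι] {H : Type*} [NormedAddCommGroup H] [InnerProductSpace ℝ H]

theorem Sys.a_zero_vec (S : Sys ι H) (k : ℕ) : S.a k 0 = 0 := by
  have := S.a_smul k 0 0
  simpa using this

theorem Sys.a_le_pow (S : Sys ι H) (k : ℕ) (g : H) :
    S.a k g ≤ (S.kap⁻¹) ^ k * ‖g‖ ^ 2 := by
  induction k with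
  | zero => simp [S.a_zero]
  | succ k ih =>
    have h := S.a_bound k g
    have hk := S.kap_pos
    have : S.a (k + 1) g ≤ S.kap⁻¹ * S.a k g := by
      rw [inv_mul_eq_div, le_div_iff₀ hk]
      linarith
    calc S.a (k + 1) g ≤ S.kap⁻¹ * S.a k g := this
      _ ≤ S.kap⁻¹ * ((S.kap⁻¹) ^ k * ‖g‖ ^ 2) := mul_le_mul_of_nonneg_left ih (by positivity)
      _ = (S.kap⁻¹) ^ (k + 1) * ‖g‖ ^ 2 := by ring

/-- the norm of the `k`-th power. -/
noncomputable def Sys.tt (S : Sys ι H) (k : ℕ) : ℝ := ⨆ x : {g : H // ‖g‖ = 1}, S.a k x.1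

theorem Sys.tt_bdd (S : Sys ι H) (k : ℕ) :
    BddAbove (Set.range fun x : {g : H // ‖g‖ = 1} => S.a k x.1) := by
  refine ⟨(S.kap⁻¹) ^ k, ?_⟩
  rintro _ ⟨x, rfl⟩
  have := S.a_le_pow k x.1
  rw [x.2] at this
  simpa using this

theorem Sys.a_le_tt (S : Sys ι H) (k : ℕ) (g : H) : S.a k g ≤ S.tt k * ‖g‖ ^ 2 := by
  rcases eq_or_ne g 0 with rfl | hg
  · simp [S.a_zero_vec]
  · have hn : ‖g‖ ≠ 0 := norm_ne_zero_iff.2 hg
    have h1 : ‖(‖g‖⁻¹ • g : H)‖ = 1 := by
      rw [norm_smul, norm_inv, norm_norm, inv_mul_cancel₀ hn]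
    have h2 : S.a k (‖g‖⁻¹ • g) ≤ S.tt k := le_ciSup (S.tt_bdd k) ⟨_, h1⟩
    rw [S.a_smul] at h2
    have h3 : S.a k g = ‖g‖ ^ 2 * ((‖g‖⁻¹) ^ 2 * S.a k g) := by
      field_simp
    rw [h3, mul_comm (S.tt k)]
    exact mul_le_mul_of_nonneg_left h2 (by positivity)

/-- ABSTRACT OPERATOR THEOREM (alpha). -/
theorem alpha_main (S : Sys ι H) (w : ℕ) (hw : 2 ≤ w) (m : ℕ → ℝ) (hm : ∀ l, 0 ≤ m l)
    (hM : ∀ l, 1 ≤ l → l ≤ w → S.Mom l (m l)) (s : ℝ) (hs : 0 < s)
    (h1 : 12500 * ∑ j ∈ Icc 1 (w - 1), (j : ℝ) ^ 7 * m j / s ^ j ≤ 1)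
    (h2 : 45 * (w : ℝ) ^ 2 * m w / s ^ w ≤ S.kap * s) (k : ℕ) (g : H) :
    S.a k g ≤ 2 * s ^ k * ‖g‖ ^ 2 := by
  rcases eq_or_ne g 0 with rfl | hg
  · simp [S.a_zero_vec]
  have hne : Nonempty {g : H // ‖g‖ = 1} := by
    have hn : ‖g‖ ≠ 0 := norm_ne_zero_iff.2 hg
    exact ⟨⟨‖g‖⁻¹ • g, by rw [norm_smul, norm_inv, norm_norm, inv_mul_cancel₀ hn]⟩⟩
  have ht0 : ∀ l, 0 ≤ S.tt l := fun l => by
    obtain ⟨x⟩ := hne
    exact (S.a_nonneg l x.1).trans (le_ciSup (S.tt_bdd l) x)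
  have key := F28.excursion (X := {g : H // ‖g‖ = 1}) (a := fun x k => S.a k x.1)
    (α := fun x k => S.al k x.1) (z := fun x k => S.zz k x.1) (t := S.tt) (m := m)
    (κ := S.kap) (s := s) (w := w) S.kap_pos hs hw
    (fun x k => S.al_nonneg k x.1) hm (fun x k => S.a_nonneg k x.1)
    (fun x => by rw [S.a_zero, x.2]; norm_num)
    (fun x k l => by
      have := S.a_mul_le l k (S.tt l) (S.a_le_tt l) x.1
      rwa [add_comm l k] at this)
    (fun l δ hδ => exists_lt_of_lt_ciSup (sub_lt_self _ hδ))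
    (fun x k => by have := S.a_bound k x.1; linarith)
    (fun x k => S.a_chain k x.1)
    (fun x k => S.early k (min w (k + 1)) (by omega) (by omega) m hm
      (fun l hl hl' => hM l hl (hl'.trans (min_le_left _ _))) (S.tt 1) (ht0 1) (S.a_le_tt 1) x.1)
    h1 h2 k
  exact (S.a_le_tt k g).trans (mul_le_mul_of_nonneg_right key (by positivity))

end Pool.Agent.Lib.MP_8d00da_gt.h62a
end

section

/-!
# Full KLS, part (epsilon): the hypotheses of the scale induction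
-/

open scoped BigOperators
open Finset

namespace Pool.Agent.Lib.MP_8d00da_gt.h28k

open h42k

/-- The abstract system of a representation. -/
noncomputable def Rep.sys {ι : Type} [Fintype ι] [DecidableEq ι] {V : (ι → ℝ) → ℝ} {H : Type}
    [NormedAddCommGroup H] [InnerProductSpace ℝ H] (R : Rep V H) {κ M : ℝ} (h : Nice κ M V) :
    h62a.Sys ι H where
  T := R.T
  x := R.x
  kap := κ
  kap_pos := h.kpos
  chain := R.chain κ M h
  bound := R.bound κ M h

/-- `KW.mono` and monotonicity of `2 s^k |g|²` in `s`. -/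
theorem hG (κ κ' s s' : ℝ) (h0 : 0 < κ) (hκ : κ ≤ κ') (hs : 0 ≤ s) (hss : s ≤ s')
    (h : GP κ s) : GP κ' s' := by
  intro ι _ _ M W hW H _ _ R k g
  refine (h ι M W (hW.mono h0 hκ) H R k g).trans ?_
  refine mul_le_mul_of_nonneg_right ?_ (sq_nonneg _)
  exact mul_le_mul_of_nonneg_left (pow_le_pow_left₀ hs hss k) (by norm_num)

/-- `κ ∑ |T_i g|² ≤ |g|²`, so `aT k g ≤ κ^(-k) |g|²` by induction on `k`. -/
theorem hG0 (κ : ℝ) (h0 : 0 < κ) (h1 : κ ≤ 1) : GP κ (1 / κ) := by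
  intro ι _ _ M W hW H _ _ R k g
  have h2 := (R.sys hW.1).a_le_pow k g
  rw [show (R.sys hW.1).a k g = aT R.T k g from a_eq _ k g,
    show (R.sys hW.1).kap = κ from rfl, ← one_div] at h2
  have h3 : 0 ≤ (1 / κ) ^ k * ‖g‖ ^ 2 := by positivity
  linarith

/-- `alpha_main` for `R.sys`. -/
theorem hex (κ : ℝ) (h0 : 0 < κ) (h1 : κ ≤ 1) (s : ℝ) (hs : 1 ≤ s) (w : ℕ) (hw : 2 ≤ w)
    (m : ℕ → ℝ) (hm : ∀ l, 0 ≤ m l) (hA : ∀ l, 1 ≤ l → l ≤ w → AP κ l (m l))
    (h2 : 100000 * ∑ j ∈ Ico 1 w, (j : ℝ) ^ 7 * m j / s ^ j ≤ 1)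
    (h3 : 1000 * (w : ℝ) ^ 2 * m w / s ^ w ≤ κ * s) : GP κ s := by
  intro ι _ _ M W hW H _ _ R k g
  rw [← show (R.sys hW.1).a k g = aT R.T k g from a_eq _ k g]
  have s0 : 0 < s := by linarith
  have e0 : Icc 1 (w - 1) = Ico 1 w := by
    ext j
    simp only [mem_Icc, mem_Ico]
    omega
  have e1 : 0 ≤ ∑ j ∈ Ico 1 w, (j : ℝ) ^ 7 * m j / s ^ j :=
    sum_nonneg fun j _ => by
      have := hm j
      positivity
  have e2 : 0 ≤ (w : ℝ) ^ 2 * m w / s ^ w := by
    have := hm w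
    positivity
  have e3 : 1000 * (w : ℝ) ^ 2 * m w / s ^ w = 1000 * ((w : ℝ) ^ 2 * m w / s ^ w) := by ring
  have e4 : 45 * (w : ℝ) ^ 2 * m w / s ^ w = 45 * ((w : ℝ) ^ 2 * m w / s ^ w) := by ring
  exact h62a.alpha_main (R.sys hW.1) w hw m hm
    (fun l hl1 hl2 => (Mom_iff _ l (m l)).2 (hA l hl1 hl2 ι M W hW H R)) s s0
    (by rw [e0]; linarith)
    (by
      rw [e3] at h3
      rw [e4]
      show 45 * ((w : ℝ) ^ 2 * m w / s ^ w) ≤ κ * s
      linarith) k g

end Pool.Agent.Lib.MP_8d00da_gt.h28k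
end
end
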