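import Mathlib
import Pool.Agent.Lib.MP_8d00da_gt.h42k.U2a
import Pool.Agent.Lib.MP_8d00da_gt.h42k.GP8b
import Pool.Agent.Lib.MP_8d00da_gt.h42k.B1a
import Pool.Agent.Lib.MP_8d00da_gt.h42k.U4e
import Pool.Agent.Lib.MP_8d00da_gt.h42k.KD1
import Pool.Agent.Lib.MP_8d00da_gt.h42k.KA4
import Pool.Agent.Lib.MP_8d00da_gt.h42k.G49b

section

section

/-!
# The flow for polynomials (full KLS, part gamma): substitutions of linear forms and translations
-/

namespace Pool.Agent.Lib.MP_8d00da_gt.h42k.G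

open MeasureTheory Set Filter
open scoped Topology NNReal ENNReal ContDiff
open Pool.Agent.Lib.MP_8d00da_gt.h42k.U (NF sw QT)

set_option linter.unusedSectionVars false
set_option linter.unusedVariables false

variable {ι : Type} [Fintype ι] [DecidableEq ι]

variable {κ M : ℝ} {V : (ι → ℝ) → ℝ}

private theorem gp3a_eval_bind (f : ι → MvPolynomial ι ℝ) (p : MvPolynomial ι ℝ) (z : ι → ℝ) :
    MvPolynomial.eval z (MvPolynomial.bind₁ f p) =
      MvPolynomial.eval (fun i => MvPolynomial.eval z (f i)) p := by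
  have h := MvPolynomial.eval₂Hom_bind₁ (RingHom.id ℝ) z f p
  exact h

private theorem gp3a_deg_bind (f : ι → MvPolynomial ι ℝ) (hf : ∀ i, (f i).totalDegree ≤ 1)
    (p : MvPolynomial ι ℝ) : (MvPolynomial.bind₁ f p).totalDegree ≤ p.totalDegree := by
  have e : MvPolynomial.bind₁ f p =
      ∑ d ∈ p.support, MvPolynomial.bind₁ f (MvPolynomial.monomial d (p.coeff d)) := by
    conv_lhs => rw [p.as_sum]
    rw [map_sum]
  rw [e]
  refine MvPolynomial.totalDegree_finsetSum_le fun d hd => ?_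
  rw [MvPolynomial.bind₁_monomial]
  refine (MvPolynomial.totalDegree_mul _ _).trans ?_
  rw [MvPolynomial.totalDegree_C, zero_add]
  refine (MvPolynomial.totalDegree_finsetProd _ _).trans ?_
  refine le_trans ?_ (MvPolynomial.le_totalDegree hd)
  unfold Finsupp.sum
  refine Finset.sum_le_sum fun i _ => ?_
  refine (MvPolynomial.totalDegree_pow _ _).trans ?_
  calc d i * (f i).totalDegree ≤ d i * 1 := Nat.mul_le_mul_left _ (hf i)
    _ = d i := mul_one _

theorem ev_pc (L : Matrix ι ι ℝ) (p : MvPolynomial ι ℝ) (z : ι → ℝ) :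
    ev (pc L p) z = ev p (L.mulVec z) := by
  unfold ev pc
  rw [gp3a_eval_bind]
  congr 2
  funext i
  simp [Matrix.mulVec, dotProduct]

theorem totalDegree_pc_le (L : Matrix ι ι ℝ) (p : MvPolynomial ι ℝ) :
    (pc L p).totalDegree ≤ p.totalDegree := by
  unfold pc
  refine gp3a_deg_bind _ (fun i => ?_) p
  refine MvPolynomial.totalDegree_finsetSum_le fun k _ => ?_
  refine (MvPolynomial.totalDegree_mul _ _).trans ?_
  rw [MvPolynomial.totalDegree_C, zero_add, MvPolynomial.totalDegree_X]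

theorem pderiv_pc (L : Matrix ι ι ℝ) (p : MvPolynomial ι ℝ) (k : ι) :
    MvPolynomial.pderiv k (pc L p) = ∑ i, L i k • pc L (MvPolynomial.pderiv i p) := by
  unfold pc
  induction p using MvPolynomial.induction_on with
  | C a => simp
  | add p q hp hq =>
    rw [map_add, map_add, hp, hq, ← Finset.sum_add_distrib]
    refine Finset.sum_congr rfl fun i _ => ?_
    rw [map_add, map_add, smul_add]
  | mul_X p j hp =>
    rw [map_mul, MvPolynomial.pderiv_mul, hp, MvPolynomial.bind₁_X_right]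
    have h1 : MvPolynomial.pderiv k
        (∑ l, MvPolynomial.C (L j l) * MvPolynomial.X l : MvPolynomial ι ℝ) =
          MvPolynomial.C (L j k) := by
      rw [map_sum]
      simp only [MvPolynomial.pderiv_C_mul, MvPolynomial.pderiv_X]
      rw [Finset.sum_eq_single k]
      · simp
      · intro l _ hl
        rw [Pi.single_eq_of_ne hl, mul_zero]
      · intro h
        exact absurd (Finset.mem_univ k) h
    rw [h1]
    have h2 : ∀ i, MvPolynomial.bind₁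
        (fun i => ∑ k, MvPolynomial.C (L i k) * MvPolynomial.X k : ι → MvPolynomial ι ℝ)
        (MvPolynomial.pderiv i (p * MvPolynomial.X j)) =
        MvPolynomial.bind₁ (fun i => ∑ k, MvPolynomial.C (L i k) * MvPolynomial.X k)
          (MvPolynomial.pderiv i p) *
          (∑ k, MvPolynomial.C (L j k) * MvPolynomial.X k) +
        (if i = j then MvPolynomial.bind₁
          (fun i => ∑ k, MvPolynomial.C (L i k) * MvPolynomial.X k) p else 0) := by
      intro i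
      rw [MvPolynomial.pderiv_mul, map_add, map_mul, MvPolynomial.bind₁_X_right,
        MvPolynomial.pderiv_X]
      by_cases hij : i = j
      · subst hij
        rw [if_pos rfl, Pi.single_eq_same, mul_one]
      · rw [if_neg hij, Pi.single_eq_of_ne (Ne.symm hij), mul_zero, map_zero]
    simp only [h2, smul_add, Finset.sum_add_distrib, smul_ite, smul_zero, Finset.sum_ite_eq',
      Finset.mem_univ, if_true]
    rw [Finset.sum_mul]
    congr 1
    · refine Finset.sum_congr rfl fun i _ => ?_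
      rw [smul_mul_assoc]
    · rw [MvPolynomial.smul_eq_C_mul, mul_comm]

theorem ev_ptr (a : ι → ℝ) (p : MvPolynomial ι ℝ) (x : ι → ℝ) :
    ev (ptr a p) x = ev p (x + a) := by
  unfold ev ptr
  rw [gp3a_eval_bind]
  congr 2
  funext i
  simp

theorem totalDegree_ptr_le (a : ι → ℝ) (p : MvPolynomial ι ℝ) :
    (ptr a p).totalDegree ≤ p.totalDegree := by
  unfold ptr
  refine gp3a_deg_bind _ (fun i => ?_) p
  refine (MvPolynomial.totalDegree_add _ _).trans ?_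
  rw [MvPolynomial.totalDegree_C, MvPolynomial.totalDegree_X]
  simp

theorem pderiv_ptr (a : ι → ℝ) (p : MvPolynomial ι ℝ) (k : ι) :
    MvPolynomial.pderiv k (ptr a p) = ptr a (MvPolynomial.pderiv k p) := by
  unfold ptr
  induction p using MvPolynomial.induction_on with
  | C a => simp
  | add p q hp hq =>
    rw [map_add, map_add, hp, hq, map_add, map_add]
  | mul_X p j hp =>
    rw [map_mul, MvPolynomial.pderiv_mul, hp, MvPolynomial.bind₁_X_right,
      MvPolynomial.pderiv_mul, map_add, map_add, map_mul, map_mul, MvPolynomial.bind₁_X_right,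
      MvPolynomial.pderiv_C, add_zero]
    congr 2
    rw [MvPolynomial.pderiv_X]
    by_cases hkj : k = j
    · subst hkj
      rw [Pi.single_eq_same, map_one]
    · rw [Pi.single_eq_of_ne (Ne.symm hkj), map_zero]

end Pool.Agent.Lib.MP_8d00da_gt.h42k.G
end

section

/-!
# The flow for polynomials (full KLS, part gamma): Q_j after a change of coordinates; the class inequality for D²V >= tau (L Lᵀ)⁻¹
-/

namespace Pool.Agent.Lib.MP_8d00da_gt.h42k.G

open MeasureTheory Set Filter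
open scoped Topology NNReal ENNReal ContDiff
open Pool.Agent.Lib.MP_8d00da_gt.h42k.U (NF sw QT)

set_option linter.unusedSectionVars false
set_option linter.unusedVariables false

variable {ι : Type} [Fintype ι] [DecidableEq ι]

variable {κ M : ℝ} {V : (ι → ℝ) → ℝ}

private theorem GP3b_ex (P : (ι → ℝ) ≃L[ℝ] (ι → ℝ)) {L : Matrix ι ι ℝ}
    (hP : ∀ z, P z = L.mulVec z) (p : MvPolynomial ι ℝ) :
    ex (fun z => V (P z)) (ev (pc L p)) = ex V (ev p) := by
  rw [← ex_comp_lin P V (ev p)]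
  congr 1
  funext z
  rw [ev_pc, hP]

/-- `x = P z = L z`, `L L' = 1`. -/
theorem Qj_pc (H : Nice κ M V) (P : (ι → ℝ) ≃L[ℝ] (ι → ℝ)) {L : Matrix ι ι ℝ}
    (hP : ∀ z, P z = L.mulVec z) (X : Matrix ι ι ℝ) (j : ℕ) (p q : MvPolynomial ι ℝ) :
    Qj (fun z => V (P z)) X j (pc L p) (pc L q) = Qj V (L * X * L.transpose) j p q := by
  obtain ⟨κ', M', H'⟩ := H.comp_lin' P
  induction j generalizing p q with
  | zero =>
    show ex (fun z => V (P z)) (ev (pc L p)) * ex (fun z => V (P z)) (ev (pc L q)) =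
      ex V (ev p) * ex V (ev q)
    rw [GP3b_ex P hP, GP3b_ex P hP]
  | succ j ih =>
    show ∑ i, ∑ k, X i k * Qj (fun z => V (P z)) X j (MvPolynomial.pderiv i (pc L p))
        (MvPolynomial.pderiv k (pc L q)) =
      ∑ a, ∑ b, (L * X * L.transpose) a b *
        Qj V (L * X * L.transpose) j (MvPolynomial.pderiv a p) (MvPolynomial.pderiv b q)
    have h1 : ∀ i k, Qj (fun z => V (P z)) X j (MvPolynomial.pderiv i (pc L p))
        (MvPolynomial.pderiv k (pc L q)) = ∑ a, ∑ b, L a i * (L b k *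
          Qj V (L * X * L.transpose) j (MvPolynomial.pderiv a p) (MvPolynomial.pderiv b q)) := by
      intro i k
      rw [pderiv_pc, pderiv_pc, Qj_sum_left H']
      refine Finset.sum_congr rfl fun a _ => ?_
      rw [Qj_smul_left, Qj_sum_right H', Finset.mul_sum]
      refine Finset.sum_congr rfl fun b _ => ?_
      rw [Qj_smul_right, ih]
    have h2 : ∀ a b, (L * X * L.transpose) a b = ∑ i, ∑ k, L a i * X i k * L b k := by
      intro a b
      rw [Matrix.mul_apply, Finset.sum_comm]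
      refine Finset.sum_congr rfl fun k _ => ?_
      rw [Matrix.mul_apply, Finset.sum_mul]
      rfl
    simp only [h1]
    calc ∑ i, ∑ k, X i k * ∑ a, ∑ b, L a i * (L b k *
          Qj V (L * X * L.transpose) j (MvPolynomial.pderiv a p) (MvPolynomial.pderiv b q))
        = ∑ i, ∑ k, ∑ a, ∑ b, L a i * X i k * L b k *
          Qj V (L * X * L.transpose) j (MvPolynomial.pderiv a p) (MvPolynomial.pderiv b q) := by
          refine Finset.sum_congr rfl fun i _ => Finset.sum_congr rfl fun k _ => ?_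
          rw [Finset.mul_sum]
          refine Finset.sum_congr rfl fun a _ => ?_
          rw [Finset.mul_sum]
          exact Finset.sum_congr rfl fun b _ => by ring
      _ = ∑ i, ∑ a, ∑ k, ∑ b, L a i * X i k * L b k *
          Qj V (L * X * L.transpose) j (MvPolynomial.pderiv a p) (MvPolynomial.pderiv b q) :=
          Finset.sum_congr rfl fun i _ => Finset.sum_comm
      _ = ∑ a, ∑ i, ∑ k, ∑ b, L a i * X i k * L b k *
          Qj V (L * X * L.transpose) j (MvPolynomial.pderiv a p) (MvPolynomial.pderiv b q) :=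
          Finset.sum_comm
      _ = ∑ a, ∑ i, ∑ b, ∑ k, L a i * X i k * L b k *
          Qj V (L * X * L.transpose) j (MvPolynomial.pderiv a p) (MvPolynomial.pderiv b q) :=
          Finset.sum_congr rfl fun a _ => Finset.sum_congr rfl fun i _ => Finset.sum_comm
      _ = ∑ a, ∑ b, ∑ i, ∑ k, L a i * X i k * L b k *
          Qj V (L * X * L.transpose) j (MvPolynomial.pderiv a p) (MvPolynomial.pderiv b q) :=
          Finset.sum_congr rfl fun a _ => Finset.sum_comm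
      _ = _ := by
          refine Finset.sum_congr rfl fun a _ => Finset.sum_congr rfl fun b _ => ?_
          conv_rhs => rw [h2, Finset.sum_mul]
          refine Finset.sum_congr rfl fun i _ => ?_
          rw [Finset.sum_mul]

theorem var_pc (P : (ι → ℝ) ≃L[ℝ] (ι → ℝ)) {L : Matrix ι ι ℝ}
    (hP : ∀ z, P z = L.mulVec z) (p : MvPolynomial ι ℝ) :
    var (fun z => V (P z)) (ev (pc L p)) = var V (ev p) := by
  rw [← var_comp_lin P V (ev p)]
  congr 1
  funext z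
  rw [ev_pc, hP]

theorem Qj_ptr (a : ι → ℝ) (X : Matrix ι ι ℝ) (j : ℕ) (p q : MvPolynomial ι ℝ) :
    Qj (fun x => V (x + a)) X j (ptr a p) (ptr a q) = Qj V X j p q := by
  have h0 : ∀ p : MvPolynomial ι ℝ, ex (fun x => V (x + a)) (ev (ptr a p)) = ex V (ev p) := by
    intro p
    rw [← ex_translate a V (ev p)]
    congr 1
    funext z
    rw [ev_ptr]
  induction j generalizing p q with
  | zero =>
    show ex (fun x => V (x + a)) (ev (ptr a p)) * ex (fun x => V (x + a)) (ev (ptr a q)) =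
      ex V (ev p) * ex V (ev q)
    rw [h0, h0]
  | succ j ih =>
    show ∑ i, ∑ k, X i k * Qj (fun x => V (x + a)) X j (MvPolynomial.pderiv i (ptr a p))
        (MvPolynomial.pderiv k (ptr a q)) =
      ∑ i, ∑ k, X i k * Qj V X j (MvPolynomial.pderiv i p) (MvPolynomial.pderiv k q)
    refine Finset.sum_congr rfl fun i _ => Finset.sum_congr rfl fun k _ => ?_
    rw [pderiv_ptr, pderiv_ptr, ih]

theorem var_ptr (a : ι → ℝ) (p : MvPolynomial ι ℝ) :
    var (fun x => V (x + a)) (ev (ptr a p)) = var V (ev p) := by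
  rw [← var_translate a V (ev p)]
  congr 1
  funext z
  rw [ev_ptr]

/-- Output 2: the class inequality for `D²V ≥ τ (L Lᵀ)⁻¹`. -/
theorem PTw.lin {b : ℕ} {τ : ℝ} {w : ℕ → ℝ} (hτ : 0 < τ) (h : PTw ι b τ w) (H : Nice κ M V)
    {L L' : Matrix ι ι ℝ} (hL : L * L' = 1)
    (hlo : ∀ x u, τ * sq (L'.mulVec u) ≤ hs V x u) {p : MvPolynomial ι ℝ}
    (hp : p.totalDegree ≤ b) :
    var V (ev p) ≤ ∑ j ∈ Finset.Icc 1 b, w j * Qj V (L * L.transpose + CM V) j p p := by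
  have hL2 : L' * L = 1 := mul_eq_one_comm.1 hL
  set P : (ι → ℝ) ≃L[ℝ] (ι → ℝ) := (Matrix.toLin'OfInv hL2 hL).toContinuousLinearEquiv with hPd
  have hP : ∀ z, P z = L.mulVec z := fun z => rfl
  obtain ⟨κ', M', H'⟩ := H.comp_lin' P
  have H2 : Nice τ M' (fun z => V (P z)) := by
    refine ⟨hτ, H'.c2, fun x u => ?_, H'.hi⟩
    have h1 : hs (fun z => V (P z)) x u = hs V (P x) (P u) :=
      hs_comp (P : (ι → ℝ) →L[ℝ] (ι → ℝ)) H.c2 x u
    rw [h1]
    have h3 := hlo (P x) (P u)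
    rwa [hP u, Matrix.mulVec_mulVec, hL2, Matrix.one_mulVec] at h3
  have h4 := h M' _ H2 (pc L p) ((totalDegree_pc_le L p).trans hp)
  rw [var_pc P hP] at h4
  refine h4.trans (le_of_eq ?_)
  refine Finset.sum_congr rfl fun j _ => ?_
  rw [Qj_pc H P hP]
  congr 2
  have h5 : CM (fun z => V (P z)) = L' * CM V * L'.transpose :=
    CM_comp_lin H P L' fun x => by rw [hP, Matrix.mulVec_mulVec, hL2, Matrix.one_mulVec]
  have h6 : L'.transpose * L.transpose = 1 := by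
    rw [← Matrix.transpose_mul, hL, Matrix.transpose_one]
  rw [Matrix.mul_add, Matrix.add_mul, Matrix.mul_one, h5]
  congr 1
  calc L * (L' * CM V * L'.transpose) * L.transpose
      = (L * L') * CM V * (L'.transpose * L.transpose) := by simp only [Matrix.mul_assoc]
    _ = CM V := by rw [hL, h6, Matrix.one_mul, Matrix.mul_one]

end Pool.Agent.Lib.MP_8d00da_gt.h42k.G
end
end

section

/-!
# The flow for polynomials (full KLS, part gamma): Q_j for positive semidefinite X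
-/

namespace Pool.Agent.Lib.MP_8d00da_gt.h42k.G

open MeasureTheory Set Filter
open scoped Topology NNReal ENNReal ContDiff
open Pool.Agent.Lib.MP_8d00da_gt.h42k.U (NF sw QT)

set_option linter.unusedSectionVars false
set_option linter.unusedVariables false

variable {ι : Type} [Fintype ι] [DecidableEq ι]

variable {κ M : ℝ} {V : (ι → ℝ) → ℝ}

/-- The Gram matrix `Q_j(∂_i p, ∂_k p)`. -/
private noncomputable def GP2c_G (V : (ι → ℝ) → ℝ) (X : Matrix ι ι ℝ) (j : ℕ)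
    (p : MvPolynomial ι ℝ) : Matrix ι ι ℝ :=
  Matrix.of fun i k => Qj V X j (MvPolynomial.pderiv i p) (MvPolynomial.pderiv k p)

private theorem GP2c_symm' {X : Matrix ι ι ℝ} (hX : PSD X) (i k : ι) : X i k = X k i := by
  conv_lhs => rw [← hX.symm]
  rfl

private theorem GP2c_G_symm {X : Matrix ι ι ℝ} (hX : PSD X) (j : ℕ) (p : MvPolynomial ι ℝ) :
    (GP2c_G V X j p).transpose = GP2c_G V X j p := by
  ext i k
  exact Qj_symm (GP2c_symm' hX) j _ _

private theorem GP2c_succ {X : Matrix ι ι ℝ} (hX : PSD X) (Y : Matrix ι ι ℝ) (j : ℕ)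
    (p : MvPolynomial ι ℝ) :
    Qj V X (j + 1) p p = (X * GP2c_G V X j p).trace := by
  rw [Matrix.trace]
  show ∑ i, ∑ k, X i k * Qj V X j (MvPolynomial.pderiv i p) (MvPolynomial.pderiv k p) = _
  refine Finset.sum_congr rfl fun i _ => ?_
  rw [Matrix.diag_apply, Matrix.mul_apply]
  refine Finset.sum_congr rfl fun k _ => ?_
  congr 1
  exact Qj_symm (GP2c_symm' hX) j _ _

private theorem GP2c_quad (H : Nice κ M V) (X : Matrix ι ι ℝ) (j : ℕ) (p : MvPolynomial ι ℝ)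
    (θ : ι → ℝ) :
    ∑ i, ∑ k, θ i * GP2c_G V X j p i k * θ k =
      Qj V X j (∑ i, θ i • MvPolynomial.pderiv i p) (∑ k, θ k • MvPolynomial.pderiv k p) := by
  rw [Qj_sum_left H X j Finset.univ (fun i => θ i • MvPolynomial.pderiv i p)]
  refine Finset.sum_congr rfl fun i _ => ?_
  rw [Qj_sum_right H X j Finset.univ _ (fun k => θ k • MvPolynomial.pderiv k p)]
  refine Finset.sum_congr rfl fun k _ => ?_
  rw [Qj_smul_left, Qj_smul_right]
  show θ i * Qj V X j (MvPolynomial.pderiv i p) (MvPolynomial.pderiv k p) * θ k = _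
  ring

theorem Qj_psd_nonneg (H : Nice κ M V) {X : Matrix ι ι ℝ} (hX : PSD X) (j : ℕ)
    (p : MvPolynomial ι ℝ) : 0 ≤ Qj V X j p p := by
  induction j generalizing p with
  | zero => exact mul_self_nonneg (ex V (ev p))
  | succ j ih =>
    rw [GP2c_succ hX X]
    refine U.U1b_tr hX ⟨GP2c_G_symm hX j p, fun θ => ?_⟩
    rw [GP2c_quad H]
    exact ih _

/-- Monotonicity in `X` (induction on `j`: the Gram matrices `Γ_ik = Q_j(∂_i p, ∂_k p)` are
positive semidefinite and monotone, `tr((Y-X)Γ^Y) ≥ 0`, `tr(X(Γ^Y - Γ^X)) ≥ 0`). -/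
theorem Qj_psd_mono (H : Nice κ M V) {X Y : Matrix ι ι ℝ} (hX : PSD X) (hXY : PSD (Y - X))
    (j : ℕ) (p : MvPolynomial ι ℝ) : Qj V X j p p ≤ Qj V Y j p p := by
  have hY : PSD Y := by
    have h := U.U1b_add hX hXY
    rwa [add_sub_cancel] at h
  induction j generalizing p with
  | zero => exact le_refl _
  | succ j ih =>
    rw [GP2c_succ hX X, GP2c_succ hY Y]
    have h1 : PSD (GP2c_G V Y j p) := by
      refine ⟨GP2c_G_symm hY j p, fun θ => ?_⟩
      rw [GP2c_quad H]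
      exact Qj_psd_nonneg H hY j _
    have h2 : PSD (GP2c_G V Y j p - GP2c_G V X j p) := by
      refine ⟨by rw [Matrix.transpose_sub, GP2c_G_symm hY, GP2c_G_symm hX], fun θ => ?_⟩
      have e : ∑ i, ∑ k, θ i * (GP2c_G V Y j p - GP2c_G V X j p) i k * θ k =
          ∑ i, ∑ k, θ i * GP2c_G V Y j p i k * θ k -
            ∑ i, ∑ k, θ i * GP2c_G V X j p i k * θ k := by
        rw [← Finset.sum_sub_distrib]
        refine Finset.sum_congr rfl fun i _ => ?_
        rw [← Finset.sum_sub_distrib]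
        refine Finset.sum_congr rfl fun k _ => ?_
        rw [Matrix.sub_apply]
        ring
      rw [e, GP2c_quad H, GP2c_quad H]
      linarith [ih (∑ i, θ i • MvPolynomial.pderiv i p)]
    have h3 := U.U1b_tr hXY h1
    have h4 := U.U1b_tr hX h2
    have h5 : Y * GP2c_G V Y j p - X * GP2c_G V X j p =
        (Y - X) * GP2c_G V Y j p + X * (GP2c_G V Y j p - GP2c_G V X j p) := by
      noncomm_ring
    have h6 := congrArg Matrix.trace h5
    rw [Matrix.trace_sub, Matrix.trace_add] at h6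
    linarith

end Pool.Agent.Lib.MP_8d00da_gt.h42k.G
end

section

section

/-!
# Paper 344 (quadratic KLS with a universal constant): U.7: one step of the iteration (real variable)
-/

namespace Pool.Agent.Lib.MP_8d00da_gt.h42k.U

open MeasureTheory Set Filter
open scoped Topology NNReal ENNReal ContDiff

set_option linter.unusedSectionVars false
set_option linter.unusedVariables false

private theorem U7a_X {a b u c : ℝ} (ha1 : 1 ≤ a) (hb : 0 < b) (hba : b ≤ a) (hu : 0 < u)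
    (h : a ^ 2 - u * a ≤ b ^ 2 * ((1 + 2 * (u * a)) ^ 2 + 2 * (u * a)) + 4 * (u * a) + c) :
    a ^ 2 - b ^ 2 ≤ 11 * (u * a ^ 3) + 4 * (u ^ 2 * a ^ 4) + c := by
  have hap : 0 < a := by linarith
  have hb2 : b ^ 2 ≤ a ^ 2 := pow_le_pow_left₀ hb.le hba 2
  have ha13 : a ≤ a ^ 3 := le_self_pow₀ ha1 (by norm_num)
  have h1 : 6 * (u * a) * b ^ 2 ≤ 6 * (u * a) * a ^ 2 :=
    mul_le_mul_of_nonneg_left hb2 (by positivity)
  have h2 : 4 * (u ^ 2 * a ^ 2) * b ^ 2 ≤ 4 * (u ^ 2 * a ^ 2) * a ^ 2 :=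
    mul_le_mul_of_nonneg_left hb2 (by positivity)
  have h3 : u * a ≤ u * a ^ 3 := mul_le_mul_of_nonneg_left ha13 hu.le
  have e1 : b ^ 2 * ((1 + 2 * (u * a)) ^ 2 + 2 * (u * a)) = b ^ 2 + 6 * (u * a) * b ^ 2
      + 4 * (u ^ 2 * a ^ 2) * b ^ 2 := by ring
  have e2 : 6 * (u * a) * a ^ 2 = 6 * (u * a ^ 3) := by ring
  have e3 : 4 * (u ^ 2 * a ^ 2) * a ^ 2 = 4 * (u ^ 2 * a ^ 4) := by ring
  linarith

private theorem U7a_b {a b θ : ℝ} (ha1 : 1 ≤ a) (hb : 0 < b) (hθ0 : 0 ≤ θ) (hθ4 : θ ≤ 1 / 4)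
    (h : a ^ 2 - b ^ 2 ≤ θ) : a * (1 - θ) ≤ b := by
  have hap : 0 < a := by linarith
  have h1θ : 0 ≤ 1 - θ := by linarith
  have ha2 : 1 ≤ a ^ 2 := one_le_pow₀ ha1
  have h5 : (a * (1 - θ)) ^ 2 ≤ b ^ 2 := by
    have h7 : θ ≤ θ * a ^ 2 := le_mul_of_one_le_right hθ0 ha2
    have h8 : (a * (1 - θ)) ^ 2 = (a ^ 2 - θ * a ^ 2) - θ * (1 - θ) * a ^ 2 := by ring
    have h9 : 0 ≤ θ * (1 - θ) * a ^ 2 := by positivity
    linarith
  exact (pow_le_pow_iff_left₀ (by positivity) hb.le two_ne_zero).1 h5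

private theorem U7a_D {a b θ : ℝ} (ha1 : 1 ≤ a) (hb : 0 < b) (hθ0 : 0 ≤ θ) (hθ4 : θ ≤ 1 / 4)
    (h : a * (1 - θ) ≤ b) : 2 * a ^ 3 * (1 - 2 * θ) ≤ a * b * (a + b) := by
  have hap : 0 < a := by linarith
  have h1θ : 0 ≤ 1 - θ := by linarith
  have h6 : a * (a * (1 - θ)) * (a + a * (1 - θ)) ≤ a * b * (a + b) := by
    apply mul_le_mul
    · exact mul_le_mul_of_nonneg_left h hap.le
    · linarith
    · positivity
    · positivity
  have h7 : a * (a * (1 - θ)) * (a + a * (1 - θ)) = a ^ 3 * ((1 - θ) * (2 - θ)) := by ring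
  have h8 : 2 * (1 - 2 * θ) ≤ (1 - θ) * (2 - θ) := by nlinarith
  have h9 : a ^ 3 * (2 * (1 - 2 * θ)) ≤ a ^ 3 * ((1 - θ) * (2 - θ)) :=
    mul_le_mul_of_nonneg_left h8 (by positivity)
  linarith

private theorem U7a_fin {a u θ c D X : ℝ} (ha1 : 1 ≤ a) (hu : 0 < u) (hθ4 : θ ≤ 1 / 4)
    (hc : 0 ≤ c) (hD : 0 ≤ D) (hθu : θ * u ≤ D) (hX : X ≤ 11 * (u * a ^ 3) + c) :
    X ≤ (11 / 2 * u + (c + 22 * D)) * (2 * a ^ 3 * (1 - 2 * θ)) := by
  have hap : 0 < a := by linarith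
  have ha3 : 1 ≤ a ^ 3 := one_le_pow₀ ha1
  have h16 : a ^ 3 * (c + 22 * D) ≤ 2 * a ^ 3 * (1 - 2 * θ) * (c + 22 * D) := by
    have h17 : 1 ≤ 2 * (1 - 2 * θ) := by linarith
    have h18 : 0 ≤ a ^ 3 * (c + 22 * D) := by positivity
    have h19 := mul_le_mul_of_nonneg_right h17 h18
    linarith
  have h19 : a ^ 3 * (22 * (θ * u)) ≤ a ^ 3 * (22 * D) :=
    mul_le_mul_of_nonneg_left (by linarith) (by positivity)
  have h20 : c ≤ a ^ 3 * c := le_mul_of_one_le_left hc ha3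
  have h21 : (11 / 2 * u + (c + 22 * D)) * (2 * a ^ 3 * (1 - 2 * θ)) = 11 * (u * a ^ 3)
      - a ^ 3 * (22 * (θ * u)) + 2 * a ^ 3 * (1 - 2 * θ) * (c + 22 * D) := by
    ring
  have h22 : a ^ 3 * (c + 22 * D) = a ^ 3 * c + a ^ 3 * (22 * D) := by ring
  linarith

private theorem U7a_t {q t : ℝ} (hq : 0 < q) (hqt : q ^ 2 = t) (ht1 : t ≤ 1) :
    t ^ 2 ≤ q ^ 3 ∧ q ^ 3 ≤ t := by
  have hq1 : q ≤ 1 := by
    have h : q ^ 2 ≤ 1 ^ 2 := by rw [hqt]; linarith
    exact (pow_le_pow_iff_left₀ hq.le zero_le_one two_ne_zero).1 h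
  refine ⟨?_, ?_⟩
  · have h : t ^ 2 = q ^ 3 * q := by rw [← hqt]; ring
    rw [h]
    exact mul_le_of_le_one_right (by positivity) hq1
  · have h : q ^ 3 = q ^ 2 * q := by ring
    rw [h, hqt]
    exact mul_le_of_le_one_right (by rw [← hqt]; positivity) hq1

private theorem U7a_ap {s a τ₀ τ t u q : ℝ} (h0 : 0 < τ₀) (hs0s : √τ₀ ≤ s) (hsp : 0 < s)
    (hsτ : s ^ 2 = τ) (hτ : τ₀ ≤ τ) (ha1 : 1 ≤ a) (hsa2 : s * a ^ 2 ≤ 4) (ht : 0 < t)
    (hu : u = t / s) (ht2 : t ^ 2 ≤ q ^ 3) :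
    4 * (u ^ 2 * a ^ 4) ≤ 64 / τ₀ ^ 2 * q ^ 3 ∧ u * a ^ 3 ≤ t * (16 / (τ₀ * √τ₀)) ∧
      u ≤ t / √τ₀ := by
  have hs0 : 0 < √τ₀ := Real.sqrt_pos.2 h0
  have hap : 0 < a := by linarith
  have hup : 0 < u := by rw [hu]; positivity
  have hus : u * s = t := by rw [hu]; field_simp
  have hτs : τ₀ ≤ s ^ 2 := by rw [hsτ]; exact hτ
  have ha4 : a ^ 4 ≤ 16 / τ₀ := by
    have h1 : (s * a ^ 2) ^ 2 ≤ 4 ^ 2 := pow_le_pow_left₀ (by positivity) hsa2 2
    rw [le_div_iff₀ h0]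
    have h2 : a ^ 4 * τ₀ ≤ a ^ 4 * s ^ 2 := mul_le_mul_of_nonneg_left hτs (by positivity)
    have h3 : (s * a ^ 2) ^ 2 = a ^ 4 * s ^ 2 := by ring
    linarith
  have hu2 : u ^ 2 ≤ t ^ 2 / τ₀ := by
    rw [le_div_iff₀ h0]
    have h2 : u ^ 2 * τ₀ ≤ u ^ 2 * s ^ 2 := mul_le_mul_of_nonneg_left hτs (by positivity)
    have h3 : u ^ 2 * s ^ 2 = t ^ 2 := by rw [← hus]; ring
    linarith
  have hu1 : u ≤ t / √τ₀ := by
    rw [hu]
    exact div_le_div_of_nonneg_left ht.le hs0 hs0s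
  refine ⟨?_, ?_, hu1⟩
  · have h5 : u ^ 2 * a ^ 4 ≤ t ^ 2 / τ₀ * (16 / τ₀) :=
      mul_le_mul hu2 ha4 (by positivity) (by positivity)
    have h6 : t ^ 2 / τ₀ * (16 / τ₀) = 16 / τ₀ ^ 2 * t ^ 2 := by
      field_simp
    have h7 : 16 / τ₀ ^ 2 * t ^ 2 ≤ 16 / τ₀ ^ 2 * q ^ 3 :=
      mul_le_mul_of_nonneg_left ht2 (by positivity)
    have h8 : 64 / τ₀ ^ 2 * q ^ 3 = 4 * (16 / τ₀ ^ 2 * q ^ 3) := by ring
    linarith
  · have ha34 : a ^ 3 ≤ 16 / τ₀ := by
      have h5 : a ^ 3 ≤ a ^ 4 := pow_le_pow_right₀ ha1 (by norm_num)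
      linarith
    have h5 : u * a ^ 3 ≤ t / √τ₀ * (16 / τ₀) :=
      mul_le_mul hu1 ha34 (by positivity) (by positivity)
    have h6 : t / √τ₀ * (16 / τ₀) = t * (16 / (τ₀ * √τ₀)) := by
      field_simp
    linarith

private theorem U7a_sa {s a : ℝ} (hsp : 0 < s) (ha : 1 ≤ a) (hs16 : s ≤ 1 / 16)
    (hsa2 : s * a ^ 2 ≤ 4) : s * a ≤ 1 / 2 := by
  have hap : 0 < a := by linarith
  have h : (s * a) ^ 2 ≤ (1 / 2) ^ 2 := by
    have h1 : (s * a) ^ 2 = s * (s * a ^ 2) := by ring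
    have h2 : s * (s * a ^ 2) ≤ 1 / 16 * 4 :=
      mul_le_mul hs16 hsa2 (by positivity) (by norm_num)
    rw [h1]
    linarith
  exact (pow_le_pow_iff_left₀ (by positivity) (by norm_num) two_ne_zero).1 h

/-- One step in terms of `K^{-1/2}` (`σ = (τK)^{-1/2}`). -/
theorem iter_one {k : ℝ → ℝ} {τ₀ τ₁ : ℝ} (h0 : 0 < τ₀) (h1 : τ₁ ≤ 1 / 256)
    (hk1 : ∀ τ ∈ Icc τ₀ τ₁, 1 ≤ k τ) (hanti : AntitoneOn k (Icc τ₀ τ₁))
    (hap : ∀ τ ∈ Icc τ₀ τ₁, k τ ≤ 4 / √τ)
    (hstep : ∀ σ₁ : ℝ, ∃ C : ℝ, 0 ≤ C ∧ ∀ τ σ t : ℝ, τ₀ ≤ τ → 2 ≤ σ → σ ≤ σ₁ → 0 < t →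
      τ + t ≤ τ₁ → k τ * (1 - σ * t) ≤
        k (τ + t) * ((1 + 2 * (t / (τ * σ))) ^ 2 + 2 * σ * k τ * t) + 4 * σ * k τ * t +
          C * (t * √t)) :
    ∃ C t₀ : ℝ, 0 ≤ C ∧ 0 < t₀ ∧ ∀ τ t : ℝ, τ₀ ≤ τ → 0 < t → t ≤ t₀ → τ + t ≤ τ₁ →
      1 / √(k (τ + t)) - 1 / √(k τ) ≤ 11 / 2 * (t / √τ) + C * (t * √t) := by
  obtain ⟨C1, hC1, hst⟩ := hstep (1 / √τ₀)
  have hs0 : 0 < √τ₀ := Real.sqrt_pos.2 h0
  obtain ⟨C2, hC2⟩ : ∃ C2 : ℝ, C2 = C1 + 64 / τ₀ ^ 2 := ⟨_, rfl⟩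
  obtain ⟨C3, hC3⟩ : ∃ C3 : ℝ, C3 = 176 / (τ₀ * √τ₀) + C2 := ⟨_, rfl⟩
  have hC2n : 0 ≤ C2 := by rw [hC2]; positivity
  have hC3n : 0 ≤ C3 := by rw [hC3]; positivity
  refine ⟨C2 + 22 * C3 / √τ₀, 1 / (4 * (C3 + 1)), by positivity, by positivity, ?_⟩
  intro τ t hτ ht htt hτt
  have hτp : 0 < τ := lt_of_lt_of_le h0 hτ
  have hmem : τ ∈ Icc τ₀ τ₁ := ⟨hτ, by linarith⟩
  have hmem' : τ + t ∈ Icc τ₀ τ₁ := ⟨by linarith, hτt⟩
  have hK := hk1 τ hmem
  have hK' := hk1 (τ + t) hmem'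
  have hKK : k (τ + t) ≤ k τ := hanti hmem hmem' (by linarith)
  have hap' := hap τ hmem
  obtain ⟨s, hs, hsτ⟩ : ∃ s : ℝ, s = √τ ∧ s ^ 2 = τ := ⟨√τ, rfl, Real.sq_sqrt hτp.le⟩
  obtain ⟨a, ha, haK⟩ : ∃ a : ℝ, a = √(k τ) ∧ a ^ 2 = k τ :=
    ⟨√(k τ), rfl, Real.sq_sqrt (by linarith)⟩
  obtain ⟨b, hb, hbK⟩ : ∃ b : ℝ, b = √(k (τ + t)) ∧ b ^ 2 = k (τ + t) :=
    ⟨√(k (τ + t)), rfl, Real.sq_sqrt (by linarith)⟩
  obtain ⟨q, hq, hqt⟩ : ∃ q : ℝ, q = √t ∧ q ^ 2 = t := ⟨√t, rfl, Real.sq_sqrt ht.le⟩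
  have hsp : 0 < s := by rw [hs]; exact Real.sqrt_pos.2 hτp
  have hqp : 0 < q := by rw [hq]; exact Real.sqrt_pos.2 ht
  have ha1 : 1 ≤ a := by
    rw [ha]
    exact Real.one_le_sqrt.2 hK
  have hb1 : 1 ≤ b := by
    rw [hb]
    exact Real.one_le_sqrt.2 hK'
  have hba : b ≤ a := by
    rw [ha, hb]
    exact Real.sqrt_le_sqrt hKK
  have hap0 : 0 < a := by linarith
  have hbp0 : 0 < b := by linarith
  have hs0s : √τ₀ ≤ s := by
    rw [hs]
    exact Real.sqrt_le_sqrt hτ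
  have hs16 : s ≤ 1 / 16 := by
    have h : s ^ 2 ≤ (1 / 16) ^ 2 := by rw [hsτ]; linarith
    exact (pow_le_pow_iff_left₀ hsp.le (by norm_num) two_ne_zero).1 h
  have hsa2 : s * a ^ 2 ≤ 4 := by
    rw [← hs, ← haK, le_div_iff₀ hsp] at hap'
    linarith
  have hsa : s * a ≤ 1 / 2 := U7a_sa hsp ha1 hs16 hsa2
  have hsap : 0 < s * a := by positivity
  have hσ2 : 2 ≤ 1 / (s * a) := by
    rw [le_div_iff₀ hsap]
    linarith
  have hσ1 : 1 / (s * a) ≤ 1 / √τ₀ := by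
    apply one_div_le_one_div_of_le hs0
    exact hs0s.trans (le_mul_of_one_le_right hsp.le ha1)
  have hmain := hst τ (1 / (s * a)) t hτ hσ2 hσ1 ht hτt
  clear hst hstep hk1 hanti hap
  have ht1 : t ≤ 1 := by linarith
  obtain ⟨ht2, hq3t⟩ := U7a_t hqp hqt ht1
  have htq : t * √t = q ^ 3 := by
    rw [← hq, ← hqt]
    ring
  rw [← hs, ← ha, ← hb, htq]
  rw [← haK, ← hbK, htq] at hmain
  obtain ⟨u, hu⟩ : ∃ u : ℝ, u = t / s := ⟨_, rfl⟩
  have hup : 0 < u := by rw [hu]; positivity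
  have e1 : t / (τ * (1 / (s * a))) = u * a := by
    rw [hu, ← hsτ]
    field_simp
  have e5 : a ^ 2 * (1 - 1 / (s * a) * t) = a ^ 2 - u * a := by
    rw [hu]
    field_simp
  have e3 : 2 * (1 / (s * a)) * a ^ 2 * t = 2 * (u * a) := by
    rw [hu]
    field_simp
  have e4 : 4 * (1 / (s * a)) * a ^ 2 * t = 4 * (u * a) := by
    rw [hu]
    field_simp
  rw [e1, e5, e3, e4] at hmain
  have hX := U7a_X ha1 hbp0 hba hup hmain
  obtain ⟨h4, hua3, hu1⟩ := U7a_ap h0 hs0s hsp hsτ hτ ha1 hsa2 ht hu ht2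
  have hX2 : a ^ 2 - b ^ 2 ≤ 11 * (u * a ^ 3) + C2 * q ^ 3 := by
    have h5 : C2 * q ^ 3 = C1 * q ^ 3 + 64 / τ₀ ^ 2 * q ^ 3 := by rw [hC2]; ring
    linarith
  have hX3 : a ^ 2 - b ^ 2 ≤ C3 * t := by
    have h5 : C2 * q ^ 3 ≤ C2 * t := mul_le_mul_of_nonneg_left hq3t hC2n
    have h6 : C3 * t = 11 * (t * (16 / (τ₀ * √τ₀))) + C2 * t := by rw [hC3]; ring
    linarith
  have hθ0 : 0 ≤ C3 * t := by positivity
  have hθ4 : C3 * t ≤ 1 / 4 := by
    rw [le_div_iff₀ (by positivity)] at htt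
    linarith
  have hbθ := U7a_b ha1 hbp0 hθ0 hθ4 hX3
  have hD := U7a_D ha1 hbp0 hθ0 hθ4 hbθ
  have hdiff : 1 / b - 1 / a = (a ^ 2 - b ^ 2) / (a * b * (a + b)) := by
    field_simp
    ring
  have hDp : 0 < a * b * (a + b) := by positivity
  rw [hdiff, div_le_iff₀ hDp]
  have h12 : C3 * t * u ≤ C3 / √τ₀ * q ^ 3 := by
    have h13 : C3 * t * u ≤ C3 * t * (t / √τ₀) := mul_le_mul_of_nonneg_left hu1 hθ0
    have h14 : C3 * t * (t / √τ₀) = C3 / √τ₀ * t ^ 2 := by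
      field_simp
    have h15 : C3 / √τ₀ * t ^ 2 ≤ C3 / √τ₀ * q ^ 3 :=
      mul_le_mul_of_nonneg_left ht2 (by positivity)
    linarith
  have hfin := U7a_fin (X := a ^ 2 - b ^ 2) ha1 hup hθ4 (by positivity) (by positivity) h12 hX2
  have hG : 11 / 2 * (t / s) + (C2 + 22 * C3 / √τ₀) * q ^ 3
      = 11 / 2 * u + (C2 * q ^ 3 + 22 * (C3 / √τ₀ * q ^ 3)) := by
    rw [hu]
    ring
  rw [hG]
  exact hfin.trans (mul_le_mul_of_nonneg_left hD (by positivity))

end Pool.Agent.Lib.MP_8d00da_gt.h42k.U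
end

section

/-!
# Paper 344 (quadratic KLS with a universal constant): U.7: the iteration (real variable)
-/

namespace Pool.Agent.Lib.MP_8d00da_gt.h42k.U

open MeasureTheory Set Filter
open scoped Topology NNReal ENNReal ContDiff

set_option linter.unusedSectionVars false
set_option linter.unusedVariables false

private theorem U7b_step {a b t : ℝ} (ha : 0 < a) (ht : 0 < t) (hb : b = a + t) :
    t / √b ≤ 2 * (√b - √a) := by
  have hb0 : 0 < b := by rw [hb]; positivity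
  have h1 : 0 < √a := Real.sqrt_pos.2 ha
  have h2 : 0 < √b := Real.sqrt_pos.2 hb0
  have h3 : √a ^ 2 = a := Real.sq_sqrt ha.le
  have h4 : √b ^ 2 = b := Real.sq_sqrt hb0.le
  have h5 : √a ≤ √b := Real.sqrt_le_sqrt (by rw [hb]; linarith)
  rw [div_le_iff₀ h2]
  have h6 : t = (√b - √a) * (√b + √a) := by
    have : (√b - √a) * (√b + √a) = √b ^ 2 - √a ^ 2 := by ring
    rw [this, h3, h4, hb]; ring
  have h7 : 0 ≤ √b - √a := by linarith
  have h8 : (√b - √a) * (√b + √a) ≤ (√b - √a) * (2 * √b) :=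
    mul_le_mul_of_nonneg_left (by linarith) h7
  linarith

private theorem U7b_sum {τ₀ t : ℝ} (h0 : 0 < τ₀) (ht : 0 < t) (N : ℕ) :
    ∑ j ∈ Finset.range (N + 1), t / √(τ₀ + j * t) ≤ t / √τ₀ + 2 * (√(τ₀ + N * t) - √τ₀) := by
  induction N with
  | zero => simp
  | succ n ih =>
    rw [Finset.sum_range_succ]
    have h1 : 0 < τ₀ + n * t := by positivity
    have h2 := U7b_step (a := τ₀ + n * t) (b := τ₀ + ((n + 1 : ℕ) : ℝ) * t) h1 ht
      (by push_cast; ring)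
    linarith

/-- Riemann sums: `∑_{j<N} t/√(τ₀+jt) ≤ t/√τ₀ + 2 (√(τ₀+Nt) - √τ₀)`. -/
theorem riemann_inv_sqrt {τ₀ t : ℝ} (h0 : 0 < τ₀) (ht : 0 < t) (N : ℕ) :
    ∑ j ∈ Finset.range N, t / √(τ₀ + j * t) ≤ t / √τ₀ + 2 * (√(τ₀ + N * t) - √τ₀) := by
  have h := U7b_sum h0 ht N
  rw [Finset.sum_range_succ] at h
  have h1 : 0 ≤ t / √(τ₀ + N * t) := by positivity
  linarith

/-- U.7: `k(τ₁)^{-1/2} - k(τ₀)^{-1/2} ≤ 11 √τ₁`. -/
theorem iter_real {k : ℝ → ℝ} {τ₀ τ₁ : ℝ} (h0 : 0 < τ₀) (h01 : τ₀ < τ₁) (h1 : τ₁ ≤ 1 / 256)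
    (hk1 : ∀ τ ∈ Icc τ₀ τ₁, 1 ≤ k τ) (hanti : AntitoneOn k (Icc τ₀ τ₁))
    (hap : ∀ τ ∈ Icc τ₀ τ₁, k τ ≤ 4 / √τ)
    (hstep : ∀ σ₁ : ℝ, ∃ C : ℝ, 0 ≤ C ∧ ∀ τ σ t : ℝ, τ₀ ≤ τ → 2 ≤ σ → σ ≤ σ₁ → 0 < t →
      τ + t ≤ τ₁ → k τ * (1 - σ * t) ≤
        k (τ + t) * ((1 + 2 * (t / (τ * σ))) ^ 2 + 2 * σ * k τ * t) + 4 * σ * k τ * t +
          C * (t * √t)) :
    1 / √(k τ₁) ≤ 1 / √(k τ₀) + 11 * √τ₁ := by
  obtain ⟨C, t₀, hC, ht₀, hone⟩ := iter_one h0 h1 hk1 hanti hap hstep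
  have hd : 0 < τ₁ - τ₀ := by linarith
  -- bound for each large `N`
  have key : ∀ N : ℕ, 0 < N → (τ₁ - τ₀) / N ≤ t₀ →
      1 / √(k τ₁) - 1 / √(k τ₀) ≤ 11 / 2 * (((τ₁ - τ₀) / N) / √τ₀) + 11 * (√τ₁ - √τ₀) +
        C * ((τ₁ - τ₀) * √((τ₁ - τ₀) / N)) := by
    intro N hN hNt
    have hN' : (0 : ℝ) < N := by exact_mod_cast hN
    obtain ⟨t, ht⟩ : ∃ t : ℝ, t = (τ₁ - τ₀) / N := ⟨_, rfl⟩
    rw [← ht] at hNt ⊢
    have htp : 0 < t := by rw [ht]; positivity
    have hNtt : N * t = τ₁ - τ₀ := by rw [ht]; field_simp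
    have hsum : ∀ n : ℕ, n ≤ N → 1 / √(k (τ₀ + n * t)) - 1 / √(k τ₀) ≤
        11 / 2 * (∑ j ∈ Finset.range n, t / √(τ₀ + j * t)) + n * (C * (t * √t)) := by
      intro n
      induction n with
      | zero => intro _; simp
      | succ n ih =>
        intro hn
        have ih' := ih (by omega)
        have hn' : ((n + 1 : ℕ) : ℝ) ≤ N := by exact_mod_cast hn
        have h2 : τ₀ + n * t + t ≤ τ₁ := by
          have h3 : ((n + 1 : ℕ) : ℝ) * t ≤ N * t := mul_le_mul_of_nonneg_right hn' htp.le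
          push_cast at h3
          linarith
        have h4 : τ₀ ≤ τ₀ + n * t := by
          have : 0 ≤ (n : ℝ) * t := by positivity
          linarith
        have h5 := hone (τ₀ + n * t) t h4 htp hNt h2
        have h6 : τ₀ + ((n + 1 : ℕ) : ℝ) * t = τ₀ + n * t + t := by push_cast; ring
        rw [h6, Finset.sum_range_succ]
        push_cast
        linarith
    have h7 := hsum N le_rfl
    have h8 := riemann_inv_sqrt h0 htp N
    have h9 : τ₀ + N * t = τ₁ := by linarith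
    rw [h9] at h7 h8
    have h10 : (N : ℝ) * (C * (t * √t)) = C * ((τ₁ - τ₀) * √t) := by
      rw [← hNtt]; ring
    rw [h10] at h7
    linarith
  have hlim0 : Tendsto (fun N : ℕ => (τ₁ - τ₀) / (N : ℝ)) atTop (𝓝 0) :=
    tendsto_const_div_atTop_nhds_zero_nat _
  have hlim : Tendsto (fun N : ℕ => 11 / 2 * (((τ₁ - τ₀) / (N : ℝ)) / √τ₀) +
      11 * (√τ₁ - √τ₀) + C * ((τ₁ - τ₀) * √((τ₁ - τ₀) / (N : ℝ)))) atTop
      (𝓝 (11 / 2 * (0 / √τ₀) + 11 * (√τ₁ - √τ₀) + C * ((τ₁ - τ₀) * √0))) := by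
    refine Tendsto.add (Tendsto.add ?_ tendsto_const_nhds) ?_
    · exact (hlim0.div_const _).const_mul _
    · exact (((Real.continuous_sqrt.tendsto 0).comp hlim0).const_mul _).const_mul _
  have hev : ∀ᶠ N : ℕ in atTop, 1 / √(k τ₁) - 1 / √(k τ₀) ≤
      11 / 2 * (((τ₁ - τ₀) / (N : ℝ)) / √τ₀) +
      11 * (√τ₁ - √τ₀) + C * ((τ₁ - τ₀) * √((τ₁ - τ₀) / (N : ℝ))) := by
    have h1 : ∀ᶠ N : ℕ in atTop, (τ₁ - τ₀) / (N : ℝ) < t₀ := hlim0.eventually_lt_const ht₀
    filter_upwards [h1, eventually_gt_atTop 0] with N hN hN0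
    exact key N hN0 hN.le
  have hfin := ge_of_tendsto hlim hev
  have hs : 0 ≤ √τ₀ := Real.sqrt_nonneg _
  simp only [zero_div, mul_zero, Real.sqrt_zero, add_zero, zero_add] at hfin
  linarith

end Pool.Agent.Lib.MP_8d00da_gt.h42k.U
end

section

/-!
# The operators `T_i` on `L²(e^{-V})`

`mu V` is the probability measure with density proportional to `e^{-V}`, `cl0 V f` the class of a
function of polynomial growth in `L²(mu V)`, `cls V f` the class of `f - E f`,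
`TT V i` the bounded extension of `L φ + c ↦ ∂_i φ - E ∂_i φ`.
Main result: formula (D), `inner_cls`.
-/

namespace Pool.Agent.Lib.MP_8d00da_gt.h65a

open MeasureTheory Set Filter
open Pool.Agent.Lib.MP_8d00da_gt.h42k
open scoped Topology NNReal ENNReal ContDiff InnerProductSpace

set_option linter.unusedSectionVars false
set_option linter.unusedVariables false

variable {ι : Type*} [Fintype ι] [DecidableEq ι]

variable {κ M : ℝ} {V : (ι → ℝ) → ℝ} {f g φ ψ : (ι → ℝ) → ℝ}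

/-- The probability measure with density proportional to `e^{-V}`. -/
noncomputable def mu (V : (ι → ℝ) → ℝ) : Measure (ι → ℝ) :=
  volume.withDensity fun x => ENNReal.ofReal (Real.exp (-V x) / ∫ y, Real.exp (-V y))

private theorem meas_dens (H : Nice κ M V) :
    Measurable fun x => ENNReal.ofReal (Real.exp (-V x) / ∫ y, Real.exp (-V y)) :=
  ((Real.continuous_exp.comp H.c2.continuous.neg).div_const _).measurable.ennreal_ofReal

theorem integral_mu (H : Nice κ M V) (f : (ι → ℝ) → ℝ) : ∫ x, f x ∂(mu V) = ex V f := by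
  unfold mu ex
  rw [integral_withDensity_eq_integral_toReal_smul (meas_dens H)
    (Eventually.of_forall fun x => ENNReal.ofReal_lt_top), ← integral_div]
  refine integral_congr_ae (Eventually.of_forall fun x => ?_)
  show (ENNReal.ofReal (Real.exp (-V x) / ∫ y, Real.exp (-V y))).toReal • f x = _
  rw [ENNReal.toReal_ofReal (div_nonneg (Real.exp_pos _).le H.zpos.le), smul_eq_mul]
  ring

theorem integrable_mu (H : Nice κ M V) (f : (ι → ℝ) → ℝ) :
    Integrable f (mu V) ↔ Integrable fun x => f x * Real.exp (-V x) := by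
  unfold mu
  rw [integrable_withDensity_iff_integrable_smul' (meas_dens H)
    (Eventually.of_forall fun x => ENNReal.ofReal_lt_top)]
  have h1 : (fun x => (ENNReal.ofReal (Real.exp (-V x) / ∫ y, Real.exp (-V y))).toReal • f x) =
      fun x => (f x * Real.exp (-V x)) * (∫ y, Real.exp (-V y))⁻¹ := by
    funext x
    rw [ENNReal.toReal_ofReal (div_nonneg (Real.exp_pos _).le H.zpos.le), smul_eq_mul]
    ring
  rw [h1]
  exact integrable_mul_const_iff (inv_ne_zero H.zpos.ne').isUnit _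

theorem memLp_mu (H : Nice κ M V) (hf : T0 f) : MemLp f 2 (mu V) :=
  (memLp_two_iff_integrable_sq hf.meas.aestronglyMeasurable).2
    ((integrable_mu H _).2 (H.int (hf.pow 2)))

open scoped Classical in
/-- The class of `f` in `L²(mu V)`. -/
noncomputable def cl0 (V f : (ι → ℝ) → ℝ) : Lp ℝ 2 (mu V) :=
  if h : MemLp f 2 (mu V) then h.toLp f else 0

theorem cl0_eq (h : MemLp f 2 (mu V)) : cl0 V f = h.toLp f := dif_pos h

theorem cl0_coe (H : Nice κ M V) (hf : T0 f) : cl0 V f =ᵐ[mu V] f := by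
  rw [cl0_eq (memLp_mu H hf)]
  exact (memLp_mu H hf).coeFn_toLp

theorem cl0_add (H : Nice κ M V) (hf : T0 f) (hg : T0 g) :
    cl0 V (fun x => f x + g x) = cl0 V f + cl0 V g := by
  rw [cl0_eq (memLp_mu H hf), cl0_eq (memLp_mu H hg), cl0_eq (memLp_mu H (hf.add hg)),
    ← MemLp.toLp_add]
  rfl

theorem cl0_sub (H : Nice κ M V) (hf : T0 f) (hg : T0 g) :
    cl0 V (fun x => f x - g x) = cl0 V f - cl0 V g := by
  rw [cl0_eq (memLp_mu H hf), cl0_eq (memLp_mu H hg), cl0_eq (memLp_mu H (hf.sub hg)),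
    ← MemLp.toLp_sub]
  rfl

theorem cl0_cmul (H : Nice κ M V) (hf : T0 f) (c : ℝ) :
    cl0 V (fun x => c * f x) = c • cl0 V f := by
  rw [cl0_eq (memLp_mu H hf), cl0_eq (memLp_mu H (hf.cmul c)), ← MemLp.toLp_const_smul]
  rfl

theorem inner_cl0 (H : Nice κ M V) (hf : T0 f) (hg : T0 g) :
    ⟪cl0 V f, cl0 V g⟫_ℝ = ex V (fun x => f x * g x) := by
  rw [L2.inner_def, ← integral_mu H]
  refine integral_congr_ae ?_
  filter_upwards [cl0_coe H hf, cl0_coe H hg] with x e1 e2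
  rw [e1, e2]
  simp [mul_comm]

theorem norm_cl0 (H : Nice κ M V) (hf : T0 f) : ‖cl0 V f‖ ^ 2 = ex V (fun x => f x ^ 2) := by
  rw [← real_inner_self_eq_norm_sq, inner_cl0 H hf hf]
  congr 1
  funext x
  ring

/-- The class of `f - E f`. -/
noncomputable def cls (V f : (ι → ℝ) → ℝ) : Lp ℝ 2 (mu V) := cl0 V fun x => f x - ex V f

theorem t0_center (hf : T0 f) : T0 (fun x => f x - ex V f) := hf.sub (T0.const _)

theorem inner_cls_cls (H : Nice κ M V) (hf : T0 f) (hg : T0 g) :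
    ⟪cls V f, cls V g⟫_ℝ = cov V f g := by
  unfold cls
  rw [inner_cl0 H (t0_center hf) (t0_center hg), cov_eq H hf hg]

theorem norm_cls (H : Nice κ M V) (hf : T0 f) : ‖cls V f‖ ^ 2 = var V f := by
  rw [← real_inner_self_eq_norm_sq, inner_cls_cls H hf hf]
  rfl

theorem inner_cls_cl0 (H : Nice κ M V) (hf : T0 f) (hg : T0 g) :
    ⟪cls V f, cl0 V g⟫_ℝ = cov V f g := by
  unfold cls
  rw [inner_cl0 H (t0_center hf) hg, cov_eq_left H hf hg]

theorem cls_add (H : Nice κ M V) (hf : T0 f) (hg : T0 g) :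
    cls V (fun x => f x + g x) = cls V f + cls V g := by
  unfold cls
  rw [← cl0_add H (t0_center hf) (t0_center hg)]
  congr 1
  funext x
  rw [ex_add H hf hg]
  ring

theorem cls_cmul (H : Nice κ M V) (hf : T0 f) (c : ℝ) :
    cls V (fun x => c * f x) = c • cls V f := by
  unfold cls
  rw [← cl0_cmul H (t0_center hf)]
  congr 1
  funext x
  rw [ex_cmul]
  ring

/-- The space of test functions. -/
def CcS (ι : Type*) [Fintype ι] [DecidableEq ι] : Submodule ℝ ((ι → ℝ) → ℝ) where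
  carrier := {φ | Cc φ}
  add_mem' := by
    rintro φ ψ hφ hψ
    exact ⟨hφ.smooth.add hψ.smooth, hφ.supp.add hψ.supp⟩
  zero_mem' := ⟨contDiff_const, HasCompactSupport.intro isCompact_empty fun _ _ => rfl⟩
  smul_mem' := by
    rintro c φ hφ
    exact ⟨contDiff_const.mul hφ.smooth, hφ.supp.mul_left⟩

theorem LL_add (hφ : Cc φ) (hψ : Cc ψ) (x : ι → ℝ) :
    LL V (φ + ψ) x = LL V φ x + LL V ψ x := by
  have dφ : Differentiable ℝ φ := hφ.smooth.differentiable (by norm_cast)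
  have dψ : Differentiable ℝ ψ := hψ.smooth.differentiable (by norm_cast)
  have h1 : ∀ i, pd i (φ + ψ) = fun z => pd i φ z + pd i ψ z := fun i =>
    funext fun z => pd_add dφ dψ i z
  unfold LL
  rw [← Finset.sum_add_distrib]
  refine Finset.sum_congr rfl fun i _ => ?_
  rw [h1, pd_add ((hφ.pdc i).smooth.differentiable (by norm_cast))
    ((hψ.pdc i).smooth.differentiable (by norm_cast))]
  ring

theorem LL_smul (hφ : Cc φ) (c : ℝ) (x : ι → ℝ) : LL V (c • φ) x = c * LL V φ x := by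
  have dφ : Differentiable ℝ φ := hφ.smooth.differentiable (by norm_cast)
  have h1 : ∀ i, pd i (c • φ) = fun z => c * pd i φ z := fun i =>
    funext fun z => pd_cmul dφ c i z
  unfold LL
  rw [Finset.mul_sum]
  refine Finset.sum_congr rfl fun i _ => ?_
  rw [h1, pd_cmul ((hφ.pdc i).smooth.differentiable (by norm_cast))]
  ring

/-- `(φ, c) ↦ [L φ + c]`. -/
noncomputable def eL (H : Nice κ M V) : (CcS ι × ℝ) →ₗ[ℝ] Lp ℝ 2 (mu V) where
  toFun p := cl0 V fun x => LL V p.1.1 x + p.2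
  map_add' := by
    rintro ⟨⟨φ, hφ⟩, c⟩ ⟨⟨ψ, hψ⟩, d⟩
    rw [← cl0_add H ((H.LLt0 hφ).add (T0.const _)) ((H.LLt0 hψ).add (T0.const _))]
    congr 1
    funext x
    show LL V (φ + ψ) x + (c + d) = _
    rw [LL_add hφ hψ]
    ring
  map_smul' := by
    rintro r ⟨⟨φ, hφ⟩, c⟩
    rw [RingHom.id_apply, ← cl0_cmul H ((H.LLt0 hφ).add (T0.const _))]
    congr 1
    funext x
    show LL V (r • φ) x + (r * c) = _
    rw [LL_smul hφ]
    ring

/-- `(φ, c) ↦ [∂_i φ - E ∂_i φ]`. -/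
noncomputable def dL (H : Nice κ M V) (i : ι) : (CcS ι × ℝ) →ₗ[ℝ] Lp ℝ 2 (mu V) where
  toFun p := cls V (pd i p.1.1)
  map_add' := by
    rintro ⟨⟨φ, hφ⟩, c⟩ ⟨⟨ψ, hψ⟩, d⟩
    rw [← cls_add H (hφ.pdc i).t1.t0 (hψ.pdc i).t1.t0]
    congr 1
    funext x
    exact pd_add (hφ.smooth.differentiable (by norm_cast))
      (hψ.smooth.differentiable (by norm_cast)) i x
  map_smul' := by
    rintro r ⟨⟨φ, hφ⟩, c⟩
    rw [RingHom.id_apply, ← cls_cmul H (hφ.pdc i).t1.t0]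
    congr 1
    funext x
    exact pd_cmul (hφ.smooth.differentiable (by norm_cast)) r i x

theorem eL_apply (H : Nice κ M V) (hφ : Cc φ) (c : ℝ) :
    eL H (⟨φ, hφ⟩, c) = cl0 V fun x => LL V φ x + c := rfl

theorem dL_apply (H : Nice κ M V) (i : ι) (hφ : Cc φ) (c : ℝ) :
    dL H i (⟨φ, hφ⟩, c) = cls V (pd i φ) := rfl

theorem norm_eL (H : Nice κ M V) (hφ : Cc φ) (c : ℝ) :
    ‖cl0 V fun x => LL V φ x + c‖ ^ 2 = ex V (fun x => LL V φ x ^ 2) + c ^ 2 := by
  have hL := H.LLt0 hφ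
  rw [norm_cl0 H (hL.add (T0.const _))]
  have h1 : (fun x => (LL V φ x + c) ^ 2) =
      fun x => (LL V φ x ^ 2 + (2 * c) * LL V φ x) + c ^ 2 := by funext x; ring
  rw [h1, ex_add H ((hL.pow 2).add (hL.cmul _)) (T0.const _), ex_add H (hL.pow 2) (hL.cmul _),
    ex_cmul, ex_LL H hφ, ex_const H]
  ring

/-- Bochner and `D²V ≥ κ`. -/
theorem boch_le (H : Nice κ M V) (hφ : Cc φ) :
    ex V (hq φ) + κ * ex V (gs φ) ≤ ex V (fun x => LL V φ x ^ 2) := by
  rw [bochner H hφ]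
  have h1 : κ * ex V (gs φ) ≤ ex V (fun x => hs V x (fun i => pd i φ x)) := by
    rw [← ex_cmul]
    have ht : T0 (fun x => hs V x (fun i => pd i φ x)) := by
      unfold hs
      exact T0.sum _ fun i _ => T0.sum _ fun j _ =>
        (((hφ.pdc i).t1.t0).mul (hφ.pdc j).t1.t0).mul ((H.pdt1 j).pdt0 i)
    exact ex_mono H (hφ.t1.gst0.cmul κ) ht fun x => H.lo x fun i => pd i φ x
  linarith

theorem var_le_ex_sq (H : Nice κ M V) (hf : T0 f) : var V f ≤ ex V (fun x => f x ^ 2) := by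
  rw [var_eq']
  nlinarith [sq_nonneg (ex V f)]

theorem sum_var_pd_le (H : Nice κ M V) (hφ : Cc φ) :
    ∑ i, var V (pd i φ) ≤ ex V (gs φ) := by
  unfold gs
  rw [ex_sum H _ fun i _ => ((hφ.pdc i).t1.t0.pow 2)]
  exact Finset.sum_le_sum fun i _ => var_le_ex_sq H (hφ.pdc i).t1.t0

theorem hq_nonneg' (φ : (ι → ℝ) → ℝ) (x : ι → ℝ) : 0 ≤ hq φ x :=
  Finset.sum_nonneg fun _ _ => Finset.sum_nonneg fun _ _ => sq_nonneg _

theorem dL_bound (H : Nice κ M V) (i : ι) (p : CcS ι × ℝ) :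
    ‖dL H i p‖ ≤ (√κ)⁻¹ * ‖eL H p‖ := by
  obtain ⟨⟨φ, hφ⟩, c⟩ := p
  have hκ := H.kpos
  replace hφ : Cc φ := hφ
  show ‖cls V (pd i φ)‖ ≤ (√κ)⁻¹ * ‖cl0 V fun x => LL V φ x + c‖
  refine le_of_sq_le_sq ?_ (by positivity)
  rw [mul_pow, inv_pow, Real.sq_sqrt hκ.le, norm_eL H hφ c, norm_cls H (hφ.pdc i).t1.t0]
  have h1 := boch_le H hφ
  have h2 := sum_var_pd_le H hφ
  have h3 : var V (pd i φ) ≤ ∑ j, var V (pd j φ) :=
    Finset.single_le_sum (f := fun j => var V (pd j φ))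
      (fun j _ => var_nonneg H (hφ.pdc j).t1.t0) (Finset.mem_univ i)
  have h4 : 0 ≤ ex V (hq φ) := ex_nonneg V fun x => hq_nonneg' φ x
  rw [inv_mul_eq_div, le_div_iff₀ hκ]
  nlinarith [sq_nonneg c]

theorem dense_eL (H : Nice κ M V) : DenseRange (eL H) := by
  intro q
  rw [Metric.mem_closure_range_iff]
  intro ε hε
  have hqm : Measurable (q : (ι → ℝ) → ℝ) := (Lp.stronglyMeasurable q).measurable
  have hq2 : Integrable (fun x => (q : (ι → ℝ) → ℝ) x ^ 2) (mu V) :=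
    (memLp_two_iff_integrable_sq (Lp.stronglyMeasurable q).aestronglyMeasurable).1 (Lp.memLp q)
  have hZ := H.zpos
  have : IsFiniteMeasure (mu V) := by
    have h1 : Integrable (fun _ : ι → ℝ => (1 : ℝ)) (mu V) :=
      (integrable_mu H _).2 (by simpa using H.intexp)
    exact (integrable_const_iff.1 h1).resolve_left one_ne_zero
  have hq1 : Integrable (fun x => (q : (ι → ℝ) → ℝ) x) (mu V) :=
    (Lp.memLp q).integrable (by norm_num)
  set m : ℝ := ex V (q : (ι → ℝ) → ℝ) with hm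
  set h : (ι → ℝ) → ℝ := fun x => (q : (ι → ℝ) → ℝ) x - m with hh
  have hhm : Measurable h := hqm.sub_const m
  have hh2 : Integrable (fun x => h x ^ 2) (mu V) := by
    have e1 : (fun x => h x ^ 2) = fun x => (q : (ι → ℝ) → ℝ) x ^ 2 -
        2 * m * (q : (ι → ℝ) → ℝ) x + m ^ 2 := by funext x; simp only [hh]; ring
    rw [e1]
    exact (hq2.sub (hq1.const_mul _)).add (integrable_const _)
  have hh0 : ∫ x, h x * Real.exp (-V x) = 0 := by
    have e1 : ∫ x, h x ∂(mu V) = 0 := by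
      have e2 : ∫ x, h x ∂(mu V) = ∫ x, (q : (ι → ℝ) → ℝ) x ∂(mu V) - ∫ x, m ∂(mu V) :=
        integral_sub hq1 (integrable_const _)
      rw [e2, integral_mu H, integral_mu H, ex_const H, sub_self]
    rw [integral_mu H] at e1
    unfold ex at e1
    rcases div_eq_zero_iff.1 e1 with h5 | h5
    · exact h5
    · exact absurd h5 hZ.ne'
  obtain ⟨φ, hφ, hle⟩ := poisson_density H hhm ((integrable_mu H _).1 hh2) hh0
    (ε := ε ^ 2 / 2 * ∫ x, Real.exp (-V x)) (by positivity)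
  refine ⟨(⟨φ, hφ⟩, m), ?_⟩
  rw [eL_apply, dist_comm, dist_eq_norm]
  have hL := H.LLt0 hφ
  have e1 : ‖cl0 V (fun x => LL V φ x + m) - q‖ ^ 2 = ex V (fun x => (LL V φ x - h x) ^ 2) := by
    rw [← real_inner_self_eq_norm_sq, L2.inner_def, ← integral_mu H]
    refine integral_congr_ae ?_
    filter_upwards [cl0_coe H (hL.add (T0.const m)), Lp.coeFn_sub (cl0 V fun x => LL V φ x + m) q]
      with x e1 e2
    rw [e2, Pi.sub_apply, e1]
    simp only [hh]
    simp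
    ring
  have e2 : ex V (fun x => (LL V φ x - h x) ^ 2) ≤ ε ^ 2 / 2 := by
    unfold ex
    rw [div_le_iff₀ hZ]
    exact hle
  refine lt_of_pow_lt_pow_left₀ 2 hε.le ?_
  rw [e1]
  have : 0 < ε ^ 2 := by positivity
  linarith

/-- The operator `T_i`. -/
noncomputable def TT (H : Nice κ M V) (i : ι) : Lp ℝ 2 (mu V) →L[ℝ] Lp ℝ 2 (mu V) :=
  (dL H i).extendOfNorm (eL H)

theorem TT_eL (H : Nice κ M V) (i : ι) (hφ : Cc φ) (c : ℝ) :
    TT H i (cl0 V fun x => LL V φ x + c) = cls V (pd i φ) := by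
  have := LinearMap.extendOfNorm_eq (f := dL H i) (e := eL H) (dense_eL H)
    ⟨(√κ)⁻¹, dL_bound H i⟩ (⟨φ, hφ⟩, c)
  rw [eL_apply, dL_apply] at this
  exact this

/-- The centred coordinates. -/
noncomputable def xx (V : (ι → ℝ) → ℝ) (i : ι) : Lp ℝ 2 (mu V) := cls V fun x => x i

theorem cls_of_LL (H : Nice κ M V) (hφ : Cc φ) (hf : T1 f) (c : ℝ) :
    ⟪cls V f, cl0 V fun x => LL V φ x + c⟫_ℝ = ∑ i, ex V (fun x => pd i f x * pd i φ x) := by
  have hL := H.LLt0 hφ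
  rw [inner_cls_cl0 H hf.t0 (hL.add (T0.const _)), cov_comm,
    cov_add H hL (T0.const _) hf.t0, cov_const H hf.t0, add_zero]
  unfold cov
  rw [ex_LL H hφ, zero_mul, sub_zero]
  have h1 : (fun x => LL V φ x * f x) = fun x => f x * LL V φ x := by funext x; ring
  rw [h1, ibp_LL H hf hφ]
  exact ex_sum H _ fun i _ => (hf.pdt0 i).mul (hφ.pdc i).t1.t0

theorem inner_xx (H : Nice κ M V) (hφ : Cc φ) (c : ℝ) (i : ι) :
    ⟪xx V i, cl0 V fun x => LL V φ x + c⟫_ℝ = ex V (pd i φ) := by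
  unfold xx
  rw [cls_of_LL H hφ (T1.coord i) c, Finset.sum_eq_single i]
  · congr 1
    funext x
    rw [pd_coord, if_pos rfl, one_mul]
  · intro j _ hj
    have : (fun x => pd j (fun x : ι → ℝ => x i) x * pd j φ x) = fun _ => 0 := by
      funext x
      rw [pd_coord, if_neg hj, zero_mul]
    rw [this, ex_const H]
  · intro h
    exact absurd (Finset.mem_univ _) h

/-- Formula (D): `⟨f - Ef, g⟩ = ∑ (E ∂_i f ⟨x_i, g⟩ + ⟨∂_i f - E ∂_i f, T_i g⟩)`. -/
theorem inner_cls (H : Nice κ M V) (hf : T1 f) (g : Lp ℝ 2 (mu V)) :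
    ⟪cls V f, g⟫_ℝ =
      ∑ i, (ex V (pd i f) * ⟪xx V i, g⟫_ℝ + ⟪cls V (pd i f), TT H i g⟫_ℝ) := by
  refine (dense_eL H).induction_on (p := fun g => ⟪cls V f, g⟫_ℝ =
      ∑ i, (ex V (pd i f) * ⟪xx V i, g⟫_ℝ + ⟪cls V (pd i f), TT H i g⟫_ℝ)) g ?_ ?_
  · refine isClosed_eq (by fun_prop) ?_
    exact continuous_finsetSum _ fun i _ => by fun_prop
  · rintro ⟨⟨φ, hφ⟩, c⟩
    replace hφ : Cc φ := hφ
    show ⟪cls V f, cl0 V fun x => LL V φ x + c⟫_ℝ =
      ∑ i, (ex V (pd i f) * ⟪xx V i, cl0 V fun x => LL V φ x + c⟫_ℝ +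
        ⟪cls V (pd i f), TT H i (cl0 V fun x => LL V φ x + c)⟫_ℝ)
    rw [cls_of_LL H hφ hf c]
    refine Finset.sum_congr rfl fun i _ => ?_
    rw [inner_xx H hφ, TT_eL H i hφ, inner_cls_cls H (hf.pdt0 i) (hφ.pdc i).t1.t0]
    unfold cov
    ring

end Pool.Agent.Lib.MP_8d00da_gt.h65a
end

section

/-!
# The chain inequality (C) for the operators `T_i`, and the existence of a representation
-/

namespace Pool.Agent.Lib.MP_8d00da_gt.h65a

open MeasureTheory Set Filter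
open Pool.Agent.Lib.MP_8d00da_gt.h42k
open scoped Topology NNReal ENNReal ContDiff InnerProductSpace

set_option linter.unusedSectionVars false
set_option linter.unusedVariables false

variable {ι : Type*} [Fintype ι] [DecidableEq ι]

variable {κ M : ℝ} {V : (ι → ℝ) → ℝ} {f g φ ψ : (ι → ℝ) → ℝ}

/-- `κ ∑ |T_i g|² ≤ |g|²`. -/
theorem bound_TT (H : Nice κ M V) (g : Lp ℝ 2 (mu V)) :
    κ * ∑ i, ‖TT H i g‖ ^ 2 ≤ ‖g‖ ^ 2 := by
  refine (dense_eL H).induction_on (p := fun g => κ * ∑ i, ‖TT H i g‖ ^ 2 ≤ ‖g‖ ^ 2) g ?_ ?_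
  · refine isClosed_le ?_ (by fun_prop)
    exact continuous_const.mul (continuous_finsetSum _ fun i _ => by fun_prop)
  · rintro ⟨⟨φ, hφ⟩, c⟩
    replace hφ : Cc φ := hφ
    show κ * ∑ i, ‖TT H i (cl0 V fun x => LL V φ x + c)‖ ^ 2 ≤
      ‖cl0 V fun x => LL V φ x + c‖ ^ 2
    rw [norm_eL H hφ c]
    have h1 : ∑ i, ‖TT H i (cl0 V fun x => LL V φ x + c)‖ ^ 2 = ∑ i, var V (pd i φ) :=
      Finset.sum_congr rfl fun i _ => by rw [TT_eL H i hφ, norm_cls H (hφ.pdc i).t1.t0]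
    rw [h1]
    have h2 := boch_le H hφ
    have h3 := mul_le_mul_of_nonneg_left (sum_var_pd_le H hφ) H.kpos.le
    have h4 : 0 ≤ ex V (hq φ) := ex_nonneg V fun x => hq_nonneg' φ x
    nlinarith [sq_nonneg c]

/-- Cauchy-Schwarz for `∑ (a_ij y_ij + ⟪b_ij, z_ij⟫)`. -/
theorem cs_pair {E : Type*} [NormedAddCommGroup E] [InnerProductSpace ℝ E] {α : Type*}
    [Fintype α] (a y : α → ℝ) (b z : α → E) :
    (∑ p, (a p * y p + ⟪b p, z p⟫_ℝ)) ^ 2 ≤
      (∑ p, (a p ^ 2 + ‖b p‖ ^ 2)) * ((∑ p, ‖z p‖ ^ 2) + ∑ p, y p ^ 2) := by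
  have h1 : ∀ p, |a p * y p + ⟪b p, z p⟫_ℝ| ≤
      √(a p ^ 2 + ‖b p‖ ^ 2) * √(y p ^ 2 + ‖z p‖ ^ 2) := by
    intro p
    rw [← Real.sqrt_mul (by positivity)]
    refine Real.abs_le_sqrt ?_
    have h2 := abs_real_inner_le_norm (b p) (z p)
    have h3 : |a p * y p + ⟪b p, z p⟫_ℝ| ≤ |a p| * |y p| + ‖b p‖ * ‖z p‖ := by
      refine (abs_add_le _ _).trans ?_
      rw [abs_mul]
      linarith
    have h4 : (a p * y p + ⟪b p, z p⟫_ℝ) ^ 2 ≤ (|a p| * |y p| + ‖b p‖ * ‖z p‖) ^ 2 := by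
      rw [← sq_abs]
      exact pow_le_pow_left₀ (abs_nonneg _) h3 2
    refine h4.trans ?_
    rw [← sq_abs (a p), ← sq_abs (y p)]
    nlinarith [sq_nonneg (|a p| * ‖z p‖ - ‖b p‖ * |y p|)]
  have h2 : |∑ p, (a p * y p + ⟪b p, z p⟫_ℝ)| ≤
      ∑ p, √(a p ^ 2 + ‖b p‖ ^ 2) * √(y p ^ 2 + ‖z p‖ ^ 2) :=
    (Finset.abs_sum_le_sum_abs _ _).trans (Finset.sum_le_sum fun p _ => h1 p)
  have h3 := Finset.sum_mul_sq_le_sq_mul_sq Finset.univ (fun p => √(a p ^ 2 + ‖b p‖ ^ 2))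
    (fun p => √(y p ^ 2 + ‖z p‖ ^ 2))
  have h4 : ∀ p, √(a p ^ 2 + ‖b p‖ ^ 2) ^ 2 = a p ^ 2 + ‖b p‖ ^ 2 := fun p =>
    Real.sq_sqrt (by positivity)
  have h5 : ∀ p, √(y p ^ 2 + ‖z p‖ ^ 2) ^ 2 = y p ^ 2 + ‖z p‖ ^ 2 := fun p =>
    Real.sq_sqrt (by positivity)
  simp only [h4, h5] at h3
  rw [← sq_abs]
  refine (pow_le_pow_left₀ (abs_nonneg _) h2 2).trans (h3.trans (le_of_eq ?_))
  congr 1
  rw [Finset.sum_add_distrib, add_comm]

/-- (C): the chain inequality. -/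
theorem chain_TT (H : Nice κ M V) (g : Lp ℝ 2 (mu V)) :
    (∑ i, ‖TT H i g‖ ^ 2) ^ 2 ≤
    (‖g‖ ^ 2 - κ * ∑ i, ‖TT H i g‖ ^ 2) *
      ((∑ i, ∑ j, ‖TT H i (TT H j g) + TT H j (TT H i g)‖ ^ 2) / 4
        + (∑ i, ∑ j, (⟪xx V i, TT H j g⟫_ℝ + ⟪xx V j, TT H i g⟫_ℝ) ^ 2) / 4) := by
  refine (dense_eL H).induction_on (p := fun g => (∑ i, ‖TT H i g‖ ^ 2) ^ 2 ≤
    (‖g‖ ^ 2 - κ * ∑ i, ‖TT H i g‖ ^ 2) *
      ((∑ i, ∑ j, ‖TT H i (TT H j g) + TT H j (TT H i g)‖ ^ 2) / 4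
        + (∑ i, ∑ j, (⟪xx V i, TT H j g⟫_ℝ + ⟪xx V j, TT H i g⟫_ℝ) ^ 2) / 4)) g ?_ ?_
  · have c1 : Continuous fun g : Lp ℝ 2 (mu V) => ∑ i, ‖TT H i g‖ ^ 2 :=
      continuous_finsetSum _ fun i _ => by fun_prop
    have c2 : Continuous fun g : Lp ℝ 2 (mu V) =>
        ∑ i, ∑ j, ‖TT H i (TT H j g) + TT H j (TT H i g)‖ ^ 2 :=
      continuous_finsetSum _ fun i _ => continuous_finsetSum _ fun j _ => by fun_prop
    have c3 : Continuous fun g : Lp ℝ 2 (mu V) =>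
        ∑ i, ∑ j, (⟪xx V i, TT H j g⟫_ℝ + ⟪xx V j, TT H i g⟫_ℝ) ^ 2 :=
      continuous_finsetSum _ fun i _ => continuous_finsetSum _ fun j _ => by fun_prop
    exact isClosed_le (c1.pow 2)
      (((continuous_norm.pow 2).sub (continuous_const.mul c1)).mul
        ((c2.div_const _).add (c3.div_const _)))
  · rintro ⟨⟨φ, hφ⟩, c⟩
    replace hφ : Cc φ := hφ
    show (∑ i, ‖TT H i (cl0 V fun x => LL V φ x + c)‖ ^ 2) ^ 2 ≤
      (‖cl0 V fun x => LL V φ x + c‖ ^ 2 -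
          κ * ∑ i, ‖TT H i (cl0 V fun x => LL V φ x + c)‖ ^ 2) *
      ((∑ i, ∑ j, ‖TT H i (TT H j (cl0 V fun x => LL V φ x + c)) +
          TT H j (TT H i (cl0 V fun x => LL V φ x + c))‖ ^ 2) / 4
        + (∑ i, ∑ j, (⟪xx V i, TT H j (cl0 V fun x => LL V φ x + c)⟫_ℝ +
          ⟪xx V j, TT H i (cl0 V fun x => LL V φ x + c)⟫_ℝ) ^ 2) / 4)
    set q : Lp ℝ 2 (mu V) := cl0 V fun x => LL V φ x + c with hq'
    have hT : ∀ i, TT H i q = cls V (pd i φ) := fun i => TT_eL H i hφ c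
    have hcc : ∀ i, Cc (pd i φ) := fun i => hφ.pdc i
    have hcc2 : ∀ i j, Cc (pd i (pd j φ)) := fun i j => (hφ.pdc j).pdc i
    have hsym : ∀ i j, pd i (pd j φ) = pd j (pd i φ) := fun i j =>
      funext fun x => pd_comm (hφ.smooth.of_le (by norm_cast)) i j x
    -- the identity
    have h1 : ∑ j, ‖TT H j q‖ ^ 2 = ∑ j, ∑ i, (ex V (pd i (pd j φ)) * ⟪xx V i, TT H j q⟫_ℝ +
        ⟪cls V (pd i (pd j φ)), TT H i (TT H j q)⟫_ℝ) := by
      refine Finset.sum_congr rfl fun j _ => ?_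
      rw [← inner_cls H (hcc j).t1 (TT H j q), ← hT j, real_inner_self_eq_norm_sq]
    have h2 : ∑ j, ∑ i, (ex V (pd i (pd j φ)) * ⟪xx V i, TT H j q⟫_ℝ +
        ⟪cls V (pd i (pd j φ)), TT H i (TT H j q)⟫_ℝ) =
        ∑ j, ∑ i, (ex V (pd i (pd j φ)) * ⟪xx V j, TT H i q⟫_ℝ +
        ⟪cls V (pd i (pd j φ)), TT H j (TT H i q)⟫_ℝ) := by
      rw [Finset.sum_comm]
      refine Finset.sum_congr rfl fun i _ => Finset.sum_congr rfl fun j _ => ?_
      rw [hsym]
    have h3 : ∑ j, ‖TT H j q‖ ^ 2 = ∑ p : ι × ι, (ex V (pd p.1 (pd p.2 φ)) *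
        ((⟪xx V p.1, TT H p.2 q⟫_ℝ + ⟪xx V p.2, TT H p.1 q⟫_ℝ) / 2) +
        ⟪cls V (pd p.1 (pd p.2 φ)),
          (2 : ℝ)⁻¹ • (TT H p.1 (TT H p.2 q) + TT H p.2 (TT H p.1 q))⟫_ℝ) := by
      have h4 : ∑ j, ‖TT H j q‖ ^ 2 = (∑ j, ‖TT H j q‖ ^ 2 + ∑ j, ‖TT H j q‖ ^ 2) / 2 := by ring
      rw [h4]
      nth_rw 2 [h1]
      rw [h2, h1, ← Finset.sum_add_distrib, Fintype.sum_prod_type_right, Finset.sum_div]
      refine Finset.sum_congr rfl fun j _ => ?_
      rw [← Finset.sum_add_distrib, Finset.sum_div]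
      refine Finset.sum_congr rfl fun i _ => ?_
      rw [inner_smul_right, inner_add_right]
      ring
    have h5 := cs_pair (fun p : ι × ι => ex V (pd p.1 (pd p.2 φ)))
      (fun p => (⟪xx V p.1, TT H p.2 q⟫_ℝ + ⟪xx V p.2, TT H p.1 q⟫_ℝ) / 2)
      (fun p => cls V (pd p.1 (pd p.2 φ)))
      (fun p => (2 : ℝ)⁻¹ • (TT H p.1 (TT H p.2 q) + TT H p.2 (TT H p.1 q)))
    rw [← h3] at h5
    have h6 : ∑ p : ι × ι, (ex V (pd p.1 (pd p.2 φ)) ^ 2 + ‖cls V (pd p.1 (pd p.2 φ))‖ ^ 2) =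
        ex V (hq φ) := by
      unfold hq
      rw [ex_sum H _ fun i _ => T0.sum _ fun j _ => ((hcc2 i j).t1.t0.pow 2),
        Fintype.sum_prod_type]
      refine Finset.sum_congr rfl fun i _ => ?_
      rw [ex_sum H _ fun j _ => ((hcc2 i j).t1.t0.pow 2)]
      refine Finset.sum_congr rfl fun j _ => ?_
      rw [norm_cls H (hcc2 i j).t1.t0, var_eq']
      ring
    have h7 : (∑ p : ι × ι, ‖(2 : ℝ)⁻¹ • (TT H p.1 (TT H p.2 q) + TT H p.2 (TT H p.1 q))‖ ^ 2) =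
        (∑ i, ∑ j, ‖TT H i (TT H j q) + TT H j (TT H i q)‖ ^ 2) / 4 := by
      rw [Fintype.sum_prod_type, Finset.sum_div]
      refine Finset.sum_congr rfl fun i _ => ?_
      rw [Finset.sum_div]
      refine Finset.sum_congr rfl fun j _ => ?_
      rw [norm_smul, mul_pow]
      norm_num
      ring
    have h8 : (∑ p : ι × ι, ((⟪xx V p.1, TT H p.2 q⟫_ℝ + ⟪xx V p.2, TT H p.1 q⟫_ℝ) / 2) ^ 2) =
        (∑ i, ∑ j, (⟪xx V i, TT H j q⟫_ℝ + ⟪xx V j, TT H i q⟫_ℝ) ^ 2) / 4 := by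
      rw [Fintype.sum_prod_type, Finset.sum_div]
      refine Finset.sum_congr rfl fun i _ => ?_
      rw [Finset.sum_div]
      refine Finset.sum_congr rfl fun j _ => ?_
      ring
    rw [h6, h7, h8] at h5
    have hn1 : 0 ≤ (∑ i, ∑ j, ‖TT H i (TT H j q) + TT H j (TT H i q)‖ ^ 2) / 4 :=
      div_nonneg (Finset.sum_nonneg fun i _ => Finset.sum_nonneg fun j _ => sq_nonneg _)
        (by norm_num)
    have hn2 : 0 ≤ (∑ i, ∑ j, (⟪xx V i, TT H j q⟫_ℝ + ⟪xx V j, TT H i q⟫_ℝ) ^ 2) / 4 :=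
      div_nonneg (Finset.sum_nonneg fun i _ => Finset.sum_nonneg fun j _ => sq_nonneg _)
        (by norm_num)
    generalize (∑ i, ∑ j, ‖TT H i (TT H j q) + TT H j (TT H i q)‖ ^ 2) / 4 = A at h5 hn1 ⊢
    generalize (∑ i, ∑ j, (⟪xx V i, TT H j q⟫_ℝ + ⟪xx V j, TT H i q⟫_ℝ) ^ 2) / 4 = B at h5 hn2 ⊢
    refine h5.trans (mul_le_mul_of_nonneg_right ?_ (add_nonneg hn1 hn2))
    have h9 : ‖q‖ ^ 2 = ex V (fun x => LL V φ x ^ 2) + c ^ 2 := norm_eL H hφ c
    have h10 : ∑ i, ‖TT H i q‖ ^ 2 = ∑ i, var V (pd i φ) :=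
      Finset.sum_congr rfl fun i _ => by rw [hT, norm_cls H (hφ.pdc i).t1.t0]
    rw [h9, h10]
    have h11 := boch_le H hφ
    have h12 := mul_le_mul_of_nonneg_left (sum_var_pd_le H hφ) H.kpos.le
    nlinarith [sq_nonneg c]

/-- The operator does not depend on the constants. -/
theorem TT_indep {κ' M' : ℝ} (H : Nice κ M V) (H' : Nice κ' M' V) (i : ι) : TT H i = TT H' i := rfl

theorem cls_one (H : Nice κ M V) : cls V (fun _ : ι → ℝ => (1 : ℝ)) = 0 := by
  have h : ‖cls V (fun _ : ι → ℝ => (1 : ℝ))‖ ^ 2 = 0 := by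
    rw [norm_cls H (T0.const 1)]
    unfold var
    rw [cov_const H (T0.const 1)]
  exact norm_eq_zero.1 (pow_eq_zero_iff (two_ne_zero) |>.1 h)

/-- The Lichnerowicz type bound (C0): `Cov ≤ 1` gives `∑ ⟨x_i, g⟩² ≤ |g|²`. -/
theorem c0_TT (H : Nice κ M V) (hC : CLe V 1) (g : Lp ℝ 2 (mu V)) :
    ∑ i, ⟪xx V i, g⟫_ℝ ^ 2 ≤ ‖g‖ ^ 2 := by
  set θ : ι → ℝ := fun i => ⟪xx V i, g⟫_ℝ with hθ
  have hx : ∀ i, T0 (fun x : ι → ℝ => x i) := fun i => (T1.coord i).t0
  have h1 : ‖∑ i, θ i • xx V i‖ ^ 2 = var V (fun x => dt θ x) := by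
    have e1 : ∑ i, θ i • xx V i = cls V (fun x => dt θ x) := by
      have e2 : ∀ s : Finset ι, ∑ i ∈ s, θ i • xx V i = cls V (fun x => ∑ i ∈ s, θ i * x i) := by
        intro s
        induction s using Finset.induction_on with
        | empty =>
          simp only [Finset.sum_empty]
          have := cls_cmul H (T0.const (ι := ι) 1) 0
          simp only [zero_mul, zero_smul] at this
          exact this.symm
        | insert a s ha ih =>
          rw [Finset.sum_insert ha, ih]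
          have e3 : (fun x : ι → ℝ => ∑ i ∈ insert a s, θ i * x i) =
              fun x => θ a * x a + ∑ i ∈ s, θ i * x i := by
            funext x
            rw [Finset.sum_insert ha]
          rw [e3, cls_add H ((hx a).cmul _) (T0.sum _ fun i _ => (hx i).cmul _),
            cls_cmul H (hx a)]
          rfl
      exact e2 Finset.univ
    rw [e1, norm_cls H]
    exact T0.sum _ fun i _ => (hx i).cmul _
  have h2 : ⟪∑ i, θ i • xx V i, g⟫_ℝ = ∑ i, θ i ^ 2 := by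
    rw [sum_inner]
    refine Finset.sum_congr rfl fun i _ => ?_
    rw [real_inner_smul_left]
    simp only [hθ]
    ring
  have h3 : (∑ i, θ i ^ 2) ^ 2 ≤ (∑ i, θ i ^ 2) * ‖g‖ ^ 2 := by
    have h4 := abs_real_inner_le_norm (∑ i, θ i • xx V i) g
    rw [h2] at h4
    have h5 : (∑ i, θ i ^ 2) ^ 2 ≤ ‖∑ i, θ i • xx V i‖ ^ 2 * ‖g‖ ^ 2 := by
      rw [← mul_pow, ← sq_abs]
      exact pow_le_pow_left₀ (abs_nonneg _) h4 2
    rw [h1] at h5
    refine h5.trans (mul_le_mul_of_nonneg_right ?_ (by positivity))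
    have := hC θ
    rw [one_mul] at this
    exact this
  have h0 : 0 ≤ ∑ i, θ i ^ 2 := Finset.sum_nonneg fun i _ => sq_nonneg _
  rcases h0.eq_or_lt with h | h
  · rw [← h]; positivity
  · rw [pow_two] at h3
    exact le_of_mul_le_mul_left h3 h

/-- Part (beta): a nice potential has a representation. -/
theorem exists_rep {ι : Type} [Fintype ι] [DecidableEq ι] {κ M : ℝ} {V : (ι → ℝ) → ℝ}
    (h : Nice κ M V) : ∃ (H : Type) (_ : NormedAddCommGroup H) (_ : InnerProductSpace ℝ H),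
      Nonempty (h28k.Rep V H) :=
  ⟨Lp ℝ 2 (mu V), inferInstance, inferInstance, ⟨
    { T := fun i => TT h i
      x := fun i => xx V i
      cl := fun f => cls V f
      cl_add := fun f g hf hg => cls_add h hf hg
      cl_smul := fun c f hf => cls_cmul h hf c
      cl_one := cls_one h
      nrm := fun f hf => norm_cls h hf
      ib := fun f hf g => inner_cls h hf g
      c0 := fun hC g => c0_TT h hC g
      bound := fun κ' M' h' g => bound_TT h' g
      chain := fun κ' M' h' g => chain_TT h' g }⟩⟩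

end Pool.Agent.Lib.MP_8d00da_gt.h65a
end

section

/-!
# Full KLS, output of part (beta) (captain helper25): every nice potential has a representation
-/

namespace Pool.Agent.Lib.MP_8d00da_gt.h28k

open h42k

variable {ι : Type} [Fintype ι] [DecidableEq ι] {κ M : ℝ} {V : (ι → ℝ) → ℝ}

theorem exists_rep (h : Nice κ M V) :
    ∃ (H : Type) (_ : NormedAddCommGroup H) (_ : InnerProductSpace ℝ H), Nonempty (Rep V H) :=
  h65a.exists_rep h

end Pool.Agent.Lib.MP_8d00da_gt.h28k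
end

section

/-!
# The flow for polynomials (full KLS, part gamma): `Q_j(1; p, p)` in terms of words
-/

namespace Pool.Agent.Lib.MP_8d00da_gt.h42k.G

open MeasureTheory Set Filter
open scoped Topology NNReal ENNReal ContDiff

set_option linter.unusedSectionVars false
set_option linter.unusedVariables false

variable {ι : Type} [Fintype ι] [DecidableEq ι]

variable {κ M : ℝ} {V : (ι → ℝ) → ℝ}

/-- Output 3: `Q_j(1; p, p)` is the square of the Hilbert-Schmidt norm of `E D^j p`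
(`h65a.dW`: derivative along a word, first letter first). -/
theorem Qj_one_dW (j : ℕ) (p : MvPolynomial ι ℝ) :
    Qj V 1 j p p = ∑ w : Fin j → ι,
      ex V (ev (Pool.Agent.Lib.MP_8d00da_gt.h65a.dW j w p)) ^ 2 := by
  induction j generalizing p with
  | zero =>
    rw [Fintype.sum_unique]
    simp only [Pool.Agent.Lib.MP_8d00da_gt.h65a.dW_zero]
    rw [Qj, pow_two]
  | succ j ih =>
    rw [Qj, ← (Fin.consEquiv (fun _ : Fin (j + 1) => ι)).sum_comp, Fintype.sum_prod_type]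
    refine Finset.sum_congr rfl fun i _ => ?_
    rw [Finset.sum_eq_single i (fun k _ hk => by rw [Matrix.one_apply_ne' hk, zero_mul])
      (fun h => absurd (Finset.mem_univ i) h), Matrix.one_apply_eq, one_mul, ih]
    refine Finset.sum_congr rfl fun w _ => ?_
    show _ = ex V (ev (Pool.Agent.Lib.MP_8d00da_gt.h65a.dW (j + 1)
      (Fin.cons i w : Fin (j + 1) → ι) p)) ^ 2
    rw [Pool.Agent.Lib.MP_8d00da_gt.h65a.dW_cons]

end Pool.Agent.Lib.MP_8d00da_gt.h42k.G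
end

section

/-!
# Paper 344 (quadratic KLS with a universal constant): U.6 (iii): the class inequality at time t
-/

namespace Pool.Agent.Lib.MP_8d00da_gt.h42k.U

open MeasureTheory Set Filter
open scoped Topology NNReal ENNReal ContDiff

set_option linter.unusedSectionVars false
set_option linter.unusedVariables false

variable {ι : Type} [Fintype ι] [DecidableEq ι]

variable {κ M : ℝ} {V : (ι → ℝ) → ℝ}

private theorem U5d_diag {d : ι → ℝ} (hd : ∀ i, 0 ≤ d i) : PSD (Matrix.diagonal d) := by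
  constructor
  · rw [Matrix.diagonal_transpose]
  · intro w
    refine Finset.sum_nonneg fun i _ => ?_
    rw [Finset.sum_eq_single i]
    · rw [Matrix.diagonal_apply_eq]
      have := mul_nonneg (sq_nonneg (w i)) (hd i)
      nlinarith
    · intro j _ hj
      rw [Matrix.diagonal_apply_ne _ (Ne.symm hj)]
      ring
    · intro h
      exact absurd (Finset.mem_univ i) h

private theorem U5d_hs (hc : ContDiff ℝ 2 V) (s : ℝ) (y x u : ι → ℝ) :
    hs (pt V s y) x u = hs V x u + s * sq u := by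
  have hVd : Differentiable ℝ V := hc.differentiable (by norm_num)
  have h1 : ∀ j : ι, pd j (pt V s y) = fun x => (pd j V x + s * x j) - y j := by
    intro j
    funext x
    exact pd_pt hVd s y x j
  have h2 : ∀ i j : ι, pd i (pd j (pt V s y)) x =
      pd i (pd j V) x + s * if i = j then 1 else 0 := by
    intro i j
    have hcd : Differentiable ℝ (fun x : ι → ℝ => x j) :=
      (T1.coord j).c1.differentiable (by norm_num)
    have hp : Differentiable ℝ (pd j V) :=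
      (contDiff_pd (n := 1) (by exact_mod_cast hc) j).differentiable (by norm_num)
    have k1 : pd i (fun x => (pd j V x + s * x j) - y j) x =
        pd i (fun x => pd j V x + s * x j) x - pd i (fun _ => y j) x :=
      pd_sub (f := fun x => pd j V x + s * x j) (g := fun _ => y j) (hp.fun_add (hcd.const_mul s))
        (differentiable_const _) i x
    have k2 : pd i (fun x => pd j V x + s * x j) x = pd i (pd j V) x + pd i (fun x => s * x j) x :=
      pd_add (f := pd j V) (g := fun x => s * x j) hp (hcd.const_mul s) i x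
    rw [h1, k1, k2, pd_cmul hcd, pd_coord, pd_const]
    ring
  unfold hs sq
  rw [Finset.mul_sum, ← Finset.sum_add_distrib]
  refine Finset.sum_congr rfl fun i _ => ?_
  simp only [h2, mul_add, Finset.sum_add_distrib]
  congr 1
  rw [Finset.sum_eq_single i]
  · rw [if_pos rfl]
    ring
  · intro j _ hj
    rw [if_neg (Ne.symm hj)]
    ring
  · intro h
    exact absurd (Finset.mem_univ i) h

/-- U.6 (iii), time `t`: `Var_{t,y}⟨Bx̃,x̃⟩ ≤ K' tr(B(G+A_t)B(G+A_t))`, `QT.lin` with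
`τ + t`, `R_t = (τ+t)R(τ+tR)⁻¹ ≤ R + (t/(τσ)) A`, `tq_mono`. -/
theorem NF.quad_t {τ σ M K' t : ℝ} {V : (ι → ℝ) → ℝ} {α : ι → ℝ} (h : NF τ σ M V α)
    (hσ : 2 ≤ σ) (ht : 0 < t) (hK : 0 ≤ K') (hQ : QT ι (τ + t) K') {B : Matrix ι ι ℝ}
    (hB : ∀ i j, B i j = B j i) (y : ι → ℝ) :
    var (pt V t y) (qf (pt V t y) B) ≤
      K' * tq B (Matrix.diagonal (fun i => (1 - α i / σ) + t / (τ * σ) * α i) +
        CM (pt V t y)) := by
  have hτ := h.nice.kpos
  have hn := h.nice.ptn (t := t) (by linarith) y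
  have hr : ∀ i, 0 < 1 - α i / σ := fun i => (h.sw_facts hσ i).2.2.2.1
  have hr1 : ∀ i, 1 - α i / σ ≤ 1 := fun i => (h.sw_facts hσ i).2.2.2.2.1
  have hden : ∀ i, 0 < τ + t * (1 - α i / σ) := fun i => by
    have := mul_pos ht (hr i)
    linarith
  have hρ : ∀ i, 0 < (τ + t) * (1 - α i / σ) / (τ + t * (1 - α i / σ)) := fun i =>
    div_pos (mul_pos (by linarith) (hr i)) (hden i)
  have h1 : var (pt V t y) (qf (pt V t y) B) ≤
      K' * tq B (Matrix.diagonal (fun i => (τ + t) * (1 - α i / σ) / (τ + t * (1 - α i / σ))) +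
        CM (pt V t y)) := by
    refine QT.lin (by linarith) hQ hn hρ (fun x u => ?_) hB
    rw [U5d_hs h.nice.c2]
    have h2 := h.lo x u
    have h3 : (τ + t) * ∑ i, u i ^ 2 / ((τ + t) * (1 - α i / σ) / (τ + t * (1 - α i / σ))) =
        τ * ∑ i, u i ^ 2 / (1 - α i / σ) + t * sq u := by
      unfold sq
      rw [Finset.mul_sum, Finset.mul_sum, Finset.mul_sum, ← Finset.sum_add_distrib]
      refine Finset.sum_congr rfl fun i _ => ?_
      have e1 := (hr i).ne'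
      have e2 := (hden i).ne'
      have e3 : τ + t ≠ 0 := by linarith
      generalize 1 - α i / σ = r at e1 e2 ⊢
      field_simp
    rw [h3]
    linarith
  have hX : PSD (Matrix.diagonal (fun i => (τ + t) * (1 - α i / σ) / (τ + t * (1 - α i / σ))) +
      CM (pt V t y)) := diag_add_CM_psd hn fun i => (hρ i).le
  have hXY : PSD (Matrix.diagonal (fun i => (1 - α i / σ) + t / (τ * σ) * α i) +
      CM (pt V t y) -
      (Matrix.diagonal (fun i => (τ + t) * (1 - α i / σ) / (τ + t * (1 - α i / σ))) +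
      CM (pt V t y))) := by
    rw [add_sub_add_right_eq_sub, Matrix.diagonal_sub]
    refine U5d_diag fun i => ?_
    have e1 := hr i
    have e2 := hr1 i
    have e3 := hden i
    have e4 : t / (τ * σ) * α i = t / τ * (1 - (1 - α i / σ)) := by
      have : σ ≠ 0 := by linarith
      field_simp
      ring
    rw [e4]
    generalize 1 - α i / σ = r at e1 e2 e3 ⊢
    have e5 : (τ + t) * r / (τ + t * r) = r + t * r * (1 - r) / (τ + t * r) := by
      have := e3.ne'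
      field_simp
      ring
    rw [e5]
    have e6 : t * r * (1 - r) / (τ + t * r) ≤ t / τ * (1 - r) := by
      rw [div_mul_eq_mul_div, div_le_div_iff₀ e3 hτ]
      have e7 : 0 ≤ t * (1 - r) := mul_nonneg ht.le (by linarith)
      have e8 : r * τ ≤ τ + t * r := by nlinarith [mul_pos ht e1]
      calc t * r * (1 - r) * τ = t * (1 - r) * (r * τ) := by ring
        _ ≤ t * (1 - r) * (τ + t * r) := mul_le_mul_of_nonneg_left e8 e7
        _ = _ := by ring
    linarith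
  exact h1.trans (mul_le_mul_of_nonneg_left (tq_mono hB hX hXY) hK)

end Pool.Agent.Lib.MP_8d00da_gt.h42k.U
end

section

/-!
# Full KLS, part (delta): `Q_j` for the identity matrix
-/

namespace Pool.Agent.Lib.MP_8d00da_gt.h28k

open h42k h42k.G

variable {ι : Type} [Fintype ι] [DecidableEq ι]

/-- Induction on `j`; `Matrix.one_apply`, `Fin.consEquiv` (see the proof of `h65a.taylor`). -/
theorem Qj_one (V : (ι → ℝ) → ℝ) (j : ℕ) (p : MvPolynomial ι ℝ) :
    Qj V 1 j p p = ∑ w : Fin j → ι, ex V (ev (h65a.dW j w p)) ^ 2 :=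
  Qj_one_dW j p

end Pool.Agent.Lib.MP_8d00da_gt.h28k
end

section

/-!
# Full KLS, part (delta): the representation on polynomials
-/

open scoped BigOperators InnerProductSpace

namespace Pool.Agent.Lib.MP_8d00da_gt.h28k

open h42k h42k.G

variable {ι : Type} [Fintype ι] [DecidableEq ι] {κ M : ℝ} {V : (ι → ℝ) → ℝ}
  {H : Type} [NormedAddCommGroup H] [InnerProductSpace ℝ H]

theorem ex_ev_one (hV : Nice κ M V) : ex V (ev (1 : MvPolynomial ι ℝ)) = 1 := by
  have h : (ev (1 : MvPolynomial ι ℝ)) = fun _ => 1 := by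
    funext x
    simp [ev]
  rw [h]
  exact ex_const hV 1

/-- The expectation on polynomials. -/
noncomputable def Ep (hV : Nice κ M V) : MvPolynomial ι ℝ →ₗ[ℝ] ℝ where
  toFun p := ex V (ev p)
  map_add' p q := ex_ev_add hV p q
  map_smul' a p := ex_ev_smul a p

/-- The class of a polynomial. -/
noncomputable def clP (hV : Nice κ M V) (R : Rep V H) : MvPolynomial ι ℝ →ₗ[ℝ] H where
  toFun p := R.cl (ev p)
  map_add' p q := by rw [ev_add]; exact R.cl_add _ _ (ev_T0 p) (ev_T0 q)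
  map_smul' a p := by rw [ev_smul]; exact R.cl_smul a _ (ev_T0 p)

theorem Ep_apply (hV : Nice κ M V) (p : MvPolynomial ι ℝ) : Ep hV p = ex V (ev p) := rfl

theorem clP_apply (hV : Nice κ M V) (R : Rep V H) (p : MvPolynomial ι ℝ) :
    clP hV R p = R.cl (ev p) := rfl

theorem clP_one (hV : Nice κ M V) (R : Rep V H) : clP hV R 1 = 0 := by
  rw [clP_apply, show (ev (1 : MvPolynomial ι ℝ)) = fun _ => 1 from by funext x; simp [ev]]
  exact R.cl_one

theorem clP_nrm (hV : Nice κ M V) (R : Rep V H) (p : MvPolynomial ι ℝ) :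
    ‖clP hV R p‖ ^ 2 = var V (ev p) := R.nrm _ (ev_T0 p)

theorem clP_ib (hV : Nice κ M V) (R : Rep V H) (p : MvPolynomial ι ℝ) (g : H) :
    ⟪clP hV R p, g⟫_ℝ = ∑ i, (Ep hV (MvPolynomial.pderiv i p) * ⟪R.x i, g⟫_ℝ +
      ⟪clP hV R (MvPolynomial.pderiv i p), R.T i g⟫_ℝ) := by
  rw [clP_apply, R.ib _ (ev_T1 p)]
  refine Finset.sum_congr rfl fun i _ => ?_
  have h : pd i (ev p) = ev (MvPolynomial.pderiv i p) := funext fun x => pd_ev i p x
  rw [h, Ep_apply, clP_apply]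

end Pool.Agent.Lib.MP_8d00da_gt.h28k
end
end
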