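import Mathlib
import Pool.Agent.Lib.MP_8d00da_gt.h28k.RepP
import Pool.Agent.Lib.MP_8d00da_gt.h42k.GP8b
import Pool.Agent.Lib.MP_8d00da_gt.h42k.U2a
import Pool.Agent.Lib.MP_8d00da_gt.h42k.KD1
import Pool.Agent.Lib.MP_8d00da_gt.h62a.Sym
import Pool.Agent.Lib.MP_8d00da_gt.h28k.Hex
import Pool.Agent.Lib.MP_8d00da_gt.h42k.S6c
import Pool.Agent.Lib.MP_8d00da_gt.h42k.UDefs
import Pool.Agent.Lib.MP_8d00da_gt.h42k.G49b
import Pool.Agent.Lib.MP_8d00da_gt.h42k.GP2b
import Pool.Agent.Lib.MP_8d00da_gt.h25.Op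
import Pool.Agent.Lib.MP_8d00da_gt.h42k.U4e

section

/-!
# The flow for polynomials (full KLS, part gamma): reduction to the normal form
-/

namespace Pool.Agent.Lib.MP_8d00da_gt.h42k.G

open MeasureTheory Set Filter
open scoped Topology NNReal ENNReal ContDiff
open Pool.Agent.Lib.MP_8d00da_gt.h42k.U (NF sw QT)

set_option linter.unusedSectionVars false
set_option linter.unusedVariables false

variable {ι : Type} [Fintype ι] [DecidableEq ι]

variable {κ M : ℝ} {V : (ι → ℝ) → ℝ}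

/-- Step 1: rotation. -/
private theorem GP4_rot (H : Nice κ M V) :
    ∃ (W : (ι → ℝ) → ℝ) (b : ι → ℝ), Nice κ M W ∧ (∀ i, 0 ≤ b i) ∧ CM W = Matrix.diagonal b ∧
      ∀ p : MvPolynomial ι ℝ, ∃ p' : MvPolynomial ι ℝ, p'.totalDegree ≤ p.totalDegree ∧
        var W (ev p') = var V (ev p) ∧
        ∀ j, Qj W (1 + CM W) j p' p' = Qj V (1 + CM V) j p p := by
  obtain ⟨e, lam, he⟩ := exists_EB (A := CM V) (CM_symm V)
  obtain ⟨U, hUe⟩ : ∃ U : Matrix ι ι ℝ, U = Matrix.of fun a k => e k a := ⟨_, rfl⟩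
  have hU : U * U.transpose = 1 := by
    ext a b
    rw [Matrix.mul_apply, Matrix.one_apply, ← he.orth' a b]
    refine Finset.sum_congr rfl fun k _ => ?_
    rw [hUe]
    rfl
  have hCM : CM (fun x => V (ogm U hU x)) = Matrix.diagonal lam := by
    ext i j
    have h1 : dt (e i) ((CM V).mulVec (e j)) = if i = j then lam i else 0 := by
      rw [he.dt_mulVec, he.orth]
      split_ifs <;> simp
    rw [Matrix.diagonal_apply, CM_og H U hU, ← h1, Matrix.mul_assoc, Matrix.mul_apply, hUe]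
    rfl
  refine ⟨fun x => V (ogm U hU x), lam, H.comp_og U hU, fun i => he.lam_nonneg H i, hCM,
    fun p => ⟨pc U p, totalDegree_pc_le U p, var_pc (ogm U hU) (fun z => ogm_apply U hU z) p,
      fun j => ?_⟩⟩
  rw [Qj_pc H (ogm U hU) (fun z => ogm_apply U hU z), CM_og H U hU]
  congr 1
  rw [Matrix.mul_add, Matrix.add_mul, Matrix.mul_one, hU]
  congr 1
  calc U * (U.transpose * CM V * U) * U.transpose
      = (U * U.transpose) * CM V * (U * U.transpose) := by simp only [Matrix.mul_assoc]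
    _ = CM V := by rw [hU, Matrix.one_mul, Matrix.mul_one]

/-- Step 2: scaling. -/
private theorem GP4_scale {τ σ : ℝ} (hσ : 0 < σ) (H : Nice τ M V) {b : ι → ℝ}
    (hb : ∀ i, 0 ≤ b i) (hA : CM V = Matrix.diagonal b) :
    ∃ (M' : ℝ) (W : (ι → ℝ) → ℝ) (α : ι → ℝ), Nice τ M' W ∧ CM W = Matrix.diagonal α ∧
      (∀ i, 0 ≤ α i) ∧ (∀ i, α i < σ) ∧
      (∀ x u, τ * ∑ i, u i ^ 2 / (1 - α i / σ) ≤ hs W x u) ∧
      ∀ p : MvPolynomial ι ℝ, ∃ p' : MvPolynomial ι ℝ, p'.totalDegree ≤ p.totalDegree ∧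
        var W (ev p') = var V (ev p) ∧
        ∀ j, Qj W (Matrix.diagonal (sw σ α)) j p' p' = Qj V (1 + CM V) j p p := by
  have hq : ∀ i, 0 < 1 + b i / σ := fun i => by
    have := div_nonneg (hb i) hσ.le
    linarith
  obtain ⟨c, hc0⟩ : ∃ c : ι → ℝ, c = fun i => √(1 + b i / σ) := ⟨_, rfl⟩
  have hcp : ∀ i, 0 < c i := fun i => by
    rw [hc0]
    exact Real.sqrt_pos.2 (hq i)
  have hc : ∀ i, c i ≠ 0 := fun i => (hcp i).ne'
  have hc2 : ∀ i, c i ^ 2 = 1 + b i / σ := fun i => by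
    rw [hc0]
    exact Real.sq_sqrt (hq i).le
  have hsq : ∀ u, sq (dg c hc u) = ∑ i, u i ^ 2 * (1 + b i / σ) := by
    intro u
    unfold sq
    refine Finset.sum_congr rfl fun i _ => ?_
    rw [dg_apply, mul_pow, hc2]
  have h1 : ∀ u, 1 * sq u ≤ sq (dg c hc u) := by
    intro u
    rw [hsq, one_mul]
    unfold sq
    refine Finset.sum_le_sum fun i _ => ?_
    have := div_nonneg (hb i) hσ.le
    nlinarith [_root_.sq_nonneg (u i)]
  have h2 : ∀ u, sq (dg c hc u) ≤ (1 + (∑ j, b j) / σ) * sq u := by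
    intro u
    rw [hsq]
    unfold sq
    rw [Finset.mul_sum]
    refine Finset.sum_le_sum fun i _ => ?_
    rw [mul_comm]
    refine mul_le_mul_of_nonneg_right ?_ (_root_.sq_nonneg _)
    have : b i / σ ≤ (∑ j, b j) / σ := by
      refine div_le_div_of_nonneg_right ?_ hσ.le
      exact Finset.single_le_sum (fun j _ => hb j) (Finset.mem_univ i)
    linarith
  have hN := H.comp_lin (dg c hc) one_pos h1 h2
  rw [mul_one] at hN
  have ha : ∀ i, 1 - b i / (1 + b i / σ) / σ = 1 / (1 + b i / σ) := by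
    intro i
    have := (hq i).ne'
    have h0 : σ + b i ≠ 0 := by
      have := hb i
      positivity
    field_simp
    ring
  have hP : ∀ z, dg c hc z = (Matrix.diagonal c).mulVec z := by
    intro z
    funext i
    rw [Matrix.mulVec_diagonal, dg_apply, mul_comm]
  refine ⟨_, fun x => V (dg c hc x), fun i => b i / (1 + b i / σ), hN, ?_, ?_, ?_, ?_, ?_⟩
  · ext i j
    have h3 := CM_comp_lin H (dg c hc) (Matrix.diagonal fun i => (c i)⁻¹) (fun x => by
      funext i
      rw [Matrix.mulVec_diagonal, dg_apply, mul_comm (x i), ← mul_assoc,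
        inv_mul_cancel₀ (hc i), one_mul])
    rw [h3, Matrix.diagonal_transpose, Matrix.mul_diagonal, Matrix.diagonal_mul, hA,
      Matrix.diagonal_apply, Matrix.diagonal_apply]
    by_cases hij : i = j
    · subst hij
      rw [if_pos rfl, if_pos rfl, ← hc2]
      have := hc i
      field_simp
    · rw [if_neg hij, if_neg hij, mul_zero, zero_mul]
  · intro i
    exact div_nonneg (hb i) (hq i).le
  · intro i
    show b i / (1 + b i / σ) < σ
    rw [div_lt_iff₀ (hq i), mul_add, mul_one, mul_div_cancel₀ _ hσ.ne']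
    linarith
  · intro x u
    have h3 := hs_comp (dg c hc : (ι → ℝ) →L[ℝ] (ι → ℝ)) H.c2 x u
    rw [show hs (fun x => V (dg c hc x)) x u = hs V (dg c hc x) (dg c hc u) from h3]
    refine le_trans (le_of_eq ?_) (H.lo _ _)
    rw [hsq]
    congr 1
    refine Finset.sum_congr rfl fun i _ => ?_
    show u i ^ 2 / (1 - b i / (1 + b i / σ) / σ) = _
    rw [ha, div_div_eq_mul_div, div_one]
  · intro p
    refine ⟨pc (Matrix.diagonal c) p, totalDegree_pc_le _ p, var_pc (dg c hc) hP p, fun j => ?_⟩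
    rw [Qj_pc H (dg c hc) hP]
    congr 1
    rw [Matrix.diagonal_transpose, Matrix.diagonal_mul_diagonal, Matrix.diagonal_mul_diagonal, hA,
      ← Matrix.diagonal_one, Matrix.diagonal_add]
    congr 1
    funext i
    show c i * sw σ (fun i => b i / (1 + b i / σ)) i * c i = 1 + b i
    have h4 : sw σ (fun i => b i / (1 + b i / σ)) i = (1 + b i) / (1 + b i / σ) := by
      unfold sw
      have := (hq i).ne'
      have h5 := ha i
      have h6 : 1 + (1 - 1 / σ) * (b i / (1 + b i / σ))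
          = (1 - b i / (1 + b i / σ) / σ) + b i / (1 + b i / σ) := by ring
      rw [h6, h5, ← add_div]
    rw [h4, mul_comm (c i), mul_assoc, ← pow_two, hc2, div_mul_cancel₀ _ (hq i).ne']

/-- For `V` with `D²V ≥ τ` there are `W` in normal form and a map `p ↦ p'` of the polynomials
which preserves the degree bound, the variance and all `Q_j`, with the diagonal metric `S_i`.
(As `U.exists_nf`: eigenbasis of `CM V`, `c_k = √(1+λ_k/σ)`, translation.) -/
theorem exists_nf_poly {τ σ : ℝ} (hσ : 2 ≤ σ) (H : Nice τ M V) :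
    ∃ (M' : ℝ) (W : (ι → ℝ) → ℝ) (α : ι → ℝ), NF τ σ M' W α ∧
      ∀ p : MvPolynomial ι ℝ, ∃ p' : MvPolynomial ι ℝ, p'.totalDegree ≤ p.totalDegree ∧
        var W (ev p') = var V (ev p) ∧
        ∀ j, Qj W (Matrix.diagonal (sw σ α)) j p' p' = Qj V (1 + CM V) j p p := by
  obtain ⟨W1, b, H1, hb, hC1, hp1⟩ := GP4_rot H
  obtain ⟨M', W2, α, H2, hC2, hα0, hα1, hlo, hp2⟩ :=
    GP4_scale (σ := σ) (by linarith) H1 hb hC1
  obtain ⟨a, ha⟩ : ∃ a : ι → ℝ, a = mn W2 := ⟨_, rfl⟩
  have hW : Nice τ M' fun x => W2 (x + a) := H2.translate a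
  have hmn : ∀ i, mn (fun x => W2 (x + a)) i = 0 := by
    intro i
    have h1 := ex_translate a W2 fun x => x i - a i
    have h2 : (fun x : ι → ℝ => (x + a) i - a i) = fun x => x i := by
      funext x
      simp
    rw [h2, ex_sub H2 (T0.coord i) (T0.const (a i)), ex_const H2] at h1
    have h3 : mn W2 i = ex W2 fun x => x i := rfl
    have h4 : mn (fun x => W2 (x + a)) i = ex (fun x => W2 (x + a)) fun x => x i := rfl
    rw [h4, h1, ← h3, ha, sub_self]
  have hcm : CM (fun x => W2 (x + a)) = CM W2 := by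
    ext i j
    have h1 := cov_translate a W2 (fun x => x i + -a i) (fun x => x j + -a j)
    have h2 : ∀ i, (fun x : ι → ℝ => (x + a) i + -a i) = fun x => x i := by
      intro i
      funext x
      simp
    have h3 := h2 i
    have h4 := h2 j
    rw [h3, h4, cov_addc H2 (T0.coord i) ((T0.coord j).add (T0.const (-a j)))] at h1
    have h5 : cov W2 (fun x => x i) (fun x => x j + -a j) = cov W2 (fun x => x i) fun x => x j := by
      rw [cov_comm, cov_addc H2 (T0.coord j) (T0.coord i), cov_comm]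
    rw [h5] at h1
    exact h1
  refine ⟨M', fun x => W2 (x + a), α, ⟨hW, hmn, hcm.trans hC2, hα0, hα1, fun x u => ?_⟩,
    fun p => ?_⟩
  · rw [hs_translate]
    exact hlo _ _
  · obtain ⟨p1, hd1, hv1, hQ1⟩ := hp1 p
    obtain ⟨p2, hd2, hv2, hQ2⟩ := hp2 p1
    refine ⟨ptr a p2, (totalDegree_ptr_le a p2).trans (hd2.trans hd1), ?_, fun j => ?_⟩
    · rw [var_ptr, hv2, hv1]
    · rw [Qj_ptr, hQ2, hQ1]

/-- It is enough to prove the class inequality in normal form. -/
theorem PTw_of_nf {b : ℕ} {τ σ : ℝ} {w : ℕ → ℝ} (hσ : 2 ≤ σ)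
    (h : ∀ (M : ℝ) (V : (ι → ℝ) → ℝ) (α : ι → ℝ), NF τ σ M V α → ∀ p : MvPolynomial ι ℝ,
      p.totalDegree ≤ b →
      var V (ev p) ≤ ∑ j ∈ Finset.Icc 1 b, w j * Qj V (Matrix.diagonal (sw σ α)) j p p) :
    PTw ι b τ w := by
  intro M V H p hp
  obtain ⟨M', W, α, hN, hmap⟩ := exists_nf_poly hσ H
  obtain ⟨p', hd, hv, hQ⟩ := hmap p
  have := h M' W α hN p' (hd.trans hp)
  rw [hv] at this
  refine this.trans (le_of_eq ?_)
  exact Finset.sum_congr rfl fun j _ => by rw [hQ]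

/-- The class inequality at time `0` in normal form (`PTw.lin` with `L = diag √(1-α_i/σ)`). -/
theorem PTw.nf {b : ℕ} {τ σ : ℝ} {w : ℕ → ℝ} {α : ι → ℝ} (h : PTw ι b τ w) (hσ : 2 ≤ σ)
    (hN : NF τ σ M V α) {p : MvPolynomial ι ℝ} (hp : p.totalDegree ≤ b) :
    var V (ev p) ≤ ∑ j ∈ Finset.Icc 1 b, w j * Qj V (Matrix.diagonal (sw σ α)) j p p := by
  have hσ0 : 0 < σ := by linarith
  have hr : ∀ i, 0 < 1 - α i / σ := fun i => by
    have := (div_lt_one hσ0).2 (hN.lt i)
    linarith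
  set c : ι → ℝ := fun i => √(1 - α i / σ) with hcdef
  have hcp : ∀ i, 0 < c i := fun i => Real.sqrt_pos.2 (hr i)
  have hc2 : ∀ i, c i ^ 2 = 1 - α i / σ := fun i => Real.sq_sqrt (hr i).le
  have hL : Matrix.diagonal c * Matrix.diagonal (fun i => (c i)⁻¹) = 1 := by
    rw [Matrix.diagonal_mul_diagonal, ← Matrix.diagonal_one]
    congr 1
    funext i
    exact mul_inv_cancel₀ (hcp i).ne'
  have hlo : ∀ x u, τ * sq ((Matrix.diagonal (fun i => (c i)⁻¹)).mulVec u) ≤ hs V x u := by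
    intro x u
    refine le_trans (le_of_eq ?_) (hN.lo x u)
    congr 1
    unfold sq
    refine Finset.sum_congr rfl fun i _ => ?_
    rw [Matrix.mulVec_diagonal, mul_pow, inv_pow, hc2, inv_mul_eq_div]
  have := PTw.lin hN.nice.kpos h hN.nice hL hlo hp
  refine this.trans (le_of_eq ?_)
  refine Finset.sum_congr rfl fun j _ => ?_
  congr 2
  rw [Matrix.diagonal_transpose, Matrix.diagonal_mul_diagonal, hN.cm, Matrix.diagonal_add]
  congr 1
  funext i
  show c i * c i + α i = sw σ α i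
  rw [← pow_two, hc2]
  unfold sw
  ring

end Pool.Agent.Lib.MP_8d00da_gt.h42k.G
end

section

section

/-!
# The flow for polynomials (full KLS, part gamma): the iteration (real variable)
-/

namespace Pool.Agent.Lib.MP_8d00da_gt.h42k.G

open MeasureTheory Set Filter
open scoped Topology NNReal ENNReal ContDiff

set_option linter.unusedSectionVars false
set_option linter.unusedVariables false

private theorem GP9b_rate {B x : ℝ} (hB : 0 < B) (hx : 0 < x) :
    2 / (x * (1 / √(B * x))) + 1 / √(B * x) * B = 3 * √B / √x := by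
  have h1 : √(B * x) = √B * √x := Real.sqrt_mul hB.le x
  have hp : 0 < √B := Real.sqrt_pos.2 hB
  have hq : 0 < √x := Real.sqrt_pos.2 hx
  have hBp : B = √B ^ 2 := (Real.sq_sqrt hB.le).symm
  have hxq : x = √x ^ 2 := (Real.sq_sqrt hx.le).symm
  rw [h1]
  generalize √B = p at *
  generalize √x = q at *
  subst hBp hxq
  field_simp
  ring

/-- Euler iteration.  `P τ m`: a property which is monotone in `m` and closed; one step from `τ + t`
to `τ` with `σ = (Bτ)^{-1/2}`, rate `3 √(B/τ)`; then `P τ₁ m₁` gives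
`P τ (m₁ exp(6 √(B τ₁)))` for all `τ ∈ (0, τ₁]`. -/
theorem iter_flow {P : ℝ → ℝ → Prop} {B τ₁ m₁ : ℝ} (hB : 1 ≤ B) (hτ₁ : 0 < τ₁)
    (h4 : B * τ₁ ≤ 1 / 4) (hm : 0 < m₁)
    (hmono : ∀ τ m m', 0 < τ → 0 ≤ m → m ≤ m' → P τ m → P τ m')
    (hclosed : ∀ τ m, 0 < τ → (∀ m', m < m' → P τ m') → P τ m)
    (hstep : ∀ τ₀ σ₁ a b : ℝ, 0 < τ₀ → 0 < a → ∃ C t₀ : ℝ, 0 ≤ C ∧ 0 < t₀ ∧
      ∀ τ σ t m : ℝ, τ₀ ≤ τ → τ ≤ 1 → 2 ≤ σ → σ ≤ σ₁ → a ≤ m → m ≤ b → 0 < t → t ≤ t₀ →
        P (τ + t) m → P τ (m * (1 + (2 / (τ * σ) + σ * B) * t + C * t ^ 2)))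
    (h1 : P τ₁ m₁) {τ : ℝ} (hτ : 0 < τ) (hle : τ ≤ τ₁) :
    P τ (m₁ * Real.exp (6 * √(B * τ₁))) := by
  have hB0 : 0 < B := by linarith
  have hE0 : 0 ≤ 6 * √(B * τ₁) := by positivity
  rcases hle.eq_or_lt with rfl | hlt
  · refine hmono τ m₁ _ hτ hm.le ?_ h1
    exact le_mul_of_one_le_right hm.le (Real.one_le_exp hE0)
  obtain ⟨C, t₀, hC, ht₀, hst⟩ := hstep τ (1 / √(B * τ)) m₁ (m₁ * Real.exp (6 * √(B * τ₁))) hτ hm
  have hd : 0 < τ₁ - τ := by linarith
  have hsB : 0 < √B := Real.sqrt_pos.2 hB0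
  have hsτ : 0 < √τ := Real.sqrt_pos.2 hτ
  have hBτ₁ : √(B * τ₁) = √B * √τ₁ := Real.sqrt_mul hB0.le τ₁
  -- choice of `N`
  obtain ⟨D, hD⟩ : ∃ D : ℝ, D = 3 * √B / √τ + C * (τ₁ - τ) + 1 := ⟨_, rfl⟩
  have hD0 : 0 < D := by rw [hD]; positivity
  obtain ⟨N, hN⟩ := exists_nat_gt (max ((τ₁ - τ) / t₀) ((τ₁ - τ) * D / (6 * √B * √τ)))
  have hN1 : (τ₁ - τ) / t₀ < N := (le_max_left _ _).trans_lt hN
  have hN2 : (τ₁ - τ) * D / (6 * √B * √τ) < N := (le_max_right _ _).trans_lt hN
  have hN0 : (0 : ℝ) < N := lt_of_le_of_lt (by positivity) hN1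
  obtain ⟨t, ht⟩ : ∃ t : ℝ, t = (τ₁ - τ) / N := ⟨_, rfl⟩
  have htp : 0 < t := by rw [ht]; positivity
  have hNt : N * t = τ₁ - τ := by rw [ht]; field_simp
  have htt₀ : t ≤ t₀ := by
    rw [ht, div_le_iff₀ hN0]
    rw [div_lt_iff₀ ht₀] at hN1
    linarith
  have htD : t * D ≤ 6 * √B * √τ := by
    rw [div_lt_iff₀ (by positivity)] at hN2
    have h5 : t * D * N ≤ 6 * √B * √τ * N := by
      have h6 : t * D * N = (τ₁ - τ) * D := by rw [← hNt]; ring
      rw [h6]
      linarith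
    exact le_of_mul_le_mul_right h5 hN0
  -- the exponents
  obtain ⟨r, hr⟩ : ∃ r : ℕ → ℝ, r = fun i : ℕ => t / √(τ₁ - ((i + 1 : ℕ) : ℝ) * t) := ⟨_, rfl⟩
  have hr0 : ∀ i, 0 ≤ r i := fun i => by rw [hr]; positivity
  have hsumN : ∑ i ∈ Finset.range N, r i ≤ t / √τ + 2 * (√τ₁ - √τ) := by
    have h6 := U.riemann_inv_sqrt hτ htp N
    have h7 : τ + N * t = τ₁ := by linarith
    rw [h7] at h6
    refine le_trans (le_of_eq ?_) h6
    rw [← Finset.sum_range_reflect]
    refine Finset.sum_congr rfl fun i hi => ?_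
    have hi' : i < N := Finset.mem_range.1 hi
    rw [hr]
    have h8 : ((N - 1 - i + 1 : ℕ) : ℝ) = N - i := by
      have : N - 1 - i + 1 = N - i := by omega
      rw [this, Nat.cast_sub hi'.le]
    change t / √(τ₁ - ((N - 1 - i + 1 : ℕ) : ℝ) * t) = t / √(τ + i * t)
    rw [h8]
    congr 2
    linarith
  have hexp : ∀ n : ℕ, n ≤ N →
      3 * √B * (∑ i ∈ Finset.range n, r i) + n * (C * t ^ 2) ≤ 6 * √(B * τ₁) := by
    intro n hn
    have h6 : ∑ i ∈ Finset.range n, r i ≤ ∑ i ∈ Finset.range N, r i :=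
      Finset.sum_le_sum_of_subset_of_nonneg (Finset.range_subset_range.2 hn)
        fun i _ _ => hr0 i
    have h7 : 3 * √B * (∑ i ∈ Finset.range n, r i) ≤
        3 * √B * (t / √τ + 2 * (√τ₁ - √τ)) :=
      mul_le_mul_of_nonneg_left (h6.trans hsumN) (by positivity)
    have hn' : (n : ℝ) ≤ N := by exact_mod_cast hn
    have h8 : (n : ℝ) * (C * t ^ 2) ≤ C * (τ₁ - τ) * t := by
      have h9 : (n : ℝ) * (C * t ^ 2) ≤ N * (C * t ^ 2) :=
        mul_le_mul_of_nonneg_right hn' (by positivity)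
      have h10 : (N : ℝ) * (C * t ^ 2) = C * (τ₁ - τ) * t := by rw [← hNt]; ring
      linarith
    have h11 : t * D = 3 * √B * (t / √τ) + C * (τ₁ - τ) * t + t := by
      rw [hD]; ring
    rw [hBτ₁]
    have h12 : 3 * √B * (t / √τ + 2 * (√τ₁ - √τ)) =
        3 * √B * (t / √τ) + 6 * (√B * √τ₁) - 6 * √B * √τ := by ring
    rw [h12] at h7
    linarith
  have key : ∀ n : ℕ, n ≤ N → P (τ₁ - n * t)
      (m₁ * Real.exp (3 * √B * (∑ i ∈ Finset.range n, r i) + n * (C * t ^ 2))) := by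
    intro n
    induction n with
    | zero =>
      intro _
      simpa using h1
    | succ n ih =>
      intro hn
      have ih' := ih (by omega)
      have hn' : ((n + 1 : ℕ) : ℝ) ≤ N := by exact_mod_cast hn
      obtain ⟨x, hx⟩ : ∃ x : ℝ, x = τ₁ - ((n + 1 : ℕ) : ℝ) * t := ⟨_, rfl⟩
      have hx1 : τ ≤ x := by
        have h6 : ((n + 1 : ℕ) : ℝ) * t ≤ N * t := mul_le_mul_of_nonneg_right hn' htp.le
        rw [hx]
        linarith
      have hx0 : 0 < x := lt_of_lt_of_le hτ hx1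
      have hx2 : x ≤ τ₁ := by
        rw [hx]
        have : 0 ≤ ((n + 1 : ℕ) : ℝ) * t := by positivity
        linarith
      have hx3 : x + t = τ₁ - n * t := by rw [hx]; push_cast; ring
      rw [← hx3] at ih'
      rw [← hx]
      have hτ₁1 : τ₁ ≤ 1 := by
        have h7 : 1 * τ₁ ≤ B * τ₁ := mul_le_mul_of_nonneg_right hB hτ₁.le
        linarith
      have hBx : 0 < B * x := by positivity
      have hBx4 : B * x ≤ 1 / 4 := (mul_le_mul_of_nonneg_left hx2 hB0.le).trans h4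
      have hσ2 : 2 ≤ 1 / √(B * x) := by
        rw [le_div_iff₀ (Real.sqrt_pos.2 hBx)]
        have h7 : √(B * x) ≤ 1 / 2 := by
          rw [show (1 / 2 : ℝ) = √(1 / 4) from by
            rw [show (1 / 4 : ℝ) = (1 / 2) ^ 2 by norm_num]
            exact (Real.sqrt_sq (by norm_num)).symm]
          exact Real.sqrt_le_sqrt hBx4
        linarith
      have hσ1 : 1 / √(B * x) ≤ 1 / √(B * τ) :=
        one_div_le_one_div_of_le (Real.sqrt_pos.2 (by positivity))
          (Real.sqrt_le_sqrt (mul_le_mul_of_nonneg_left hx1 hB0.le))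
      obtain ⟨e, he⟩ : ∃ e : ℝ, e = 3 * √B * (∑ i ∈ Finset.range n, r i) + n * (C * t ^ 2) :=
        ⟨_, rfl⟩
      have he0 : 0 ≤ e := by
        rw [he]
        have := Finset.sum_nonneg fun i (_ : i ∈ Finset.range n) => hr0 i
        positivity
      have heE : e ≤ 6 * √(B * τ₁) := by rw [he]; exact hexp n (by omega)
      rw [← he] at ih'
      have h8 := hst x (1 / √(B * x)) t (m₁ * Real.exp e) hx1 (hx2.trans hτ₁1) hσ2 hσ1
        (le_mul_of_one_le_right hm.le (Real.one_le_exp he0))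
        (mul_le_mul_of_nonneg_left (Real.exp_le_exp.2 heE) hm.le) htp htt₀ ih'
      rw [GP9b_rate hB0 hx0] at h8
      refine hmono x _ _ hx0 ?_ ?_ h8
      · have h9 : 0 ≤ 3 * √B / √x * t + C * t ^ 2 := by positivity
        have h10 : 0 ≤ m₁ * Real.exp e := by positivity
        exact mul_nonneg h10 (by linarith)
      · have h9 : 3 * √B * (∑ i ∈ Finset.range (n + 1), r i) +
            ((n + 1 : ℕ) : ℝ) * (C * t ^ 2) = e + (3 * √B / √x * t + C * t ^ 2) := by
          rw [Finset.sum_range_succ, he]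
          have h10 : r n = t / √x := by rw [hr, hx]
          rw [h10]
          push_cast
          ring
        rw [h9, Real.exp_add, ← mul_assoc]
        refine mul_le_mul_of_nonneg_left ?_ (by positivity)
        have h11 := Real.add_one_le_exp (3 * √B / √x * t + C * t ^ 2)
        linarith
  have hfin := key N le_rfl
  have h6 : τ₁ - N * t = τ := by linarith
  rw [h6] at hfin
  refine hmono τ _ _ hτ (by positivity) ?_ hfin
  exact mul_le_mul_of_nonneg_left (Real.exp_le_exp.2 (hexp N le_rfl)) hm.le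

end Pool.Agent.Lib.MP_8d00da_gt.h42k.G
end

section

/-!
# Paper 344 (quadratic KLS with a universal constant): U.1: the a priori bound
-/

namespace Pool.Agent.Lib.MP_8d00da_gt.h42k.U

open MeasureTheory Set Filter
open scoped Topology NNReal ENNReal ContDiff

set_option linter.unusedSectionVars false
set_option linter.unusedVariables false

variable {ι : Type} [Fintype ι] [DecidableEq ι]

variable {κ M : ℝ} {V : (ι → ℝ) → ℝ}

/-- `B' = Lᵀ B L` is symmetric. -/
private theorem U2b_symm {B : Matrix ι ι ℝ} (hB : ∀ i j, B i j = B j i) (L : Matrix ι ι ℝ) :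
    ∀ i j, (L.transpose * B * L) i j = (L.transpose * B * L) j i := by
  intro i j
  have hBt : B.transpose = B := by
    ext a b
    rw [Matrix.transpose_apply]
    exact hB b a
  have h : (L.transpose * B * L).transpose = L.transpose * B * L := by
    rw [Matrix.transpose_mul, Matrix.transpose_mul, Matrix.transpose_transpose, hBt,
      Matrix.mul_assoc]
  conv_lhs => rw [← h]
  rw [Matrix.transpose_apply]

/-- The a priori bound when the covariance matrix is diagonal. -/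
private theorem U2b_diag {τ : ℝ} (H : Nice τ M V) {b : ι → ℝ}
    (hb : ∀ i, 0 ≤ b i) (hA : CM V = Matrix.diagonal b) {B : Matrix ι ι ℝ}
    (hB : ∀ i j, B i j = B j i) :
    var V (qf V B) ≤ 4 / √τ * tq B (1 + CM V) := by
  have hτ : 0 < τ := H.kpos
  have hq : ∀ i, 0 < 1 + b i := fun i => by
    have := hb i
    linarith
  obtain ⟨c, hc0⟩ : ∃ c : ι → ℝ, c = fun i => √(1 + b i) := ⟨_, rfl⟩
  have hcp : ∀ i, 0 < c i := fun i => by
    rw [hc0]
    exact Real.sqrt_pos.2 (hq i)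
  have hc : ∀ i, c i ≠ 0 := fun i => (hcp i).ne'
  have hc2 : ∀ i, c i ^ 2 = 1 + b i := fun i => by
    rw [hc0]
    exact Real.sq_sqrt (hq i).le
  have hsq : ∀ u, sq (dg c hc u) = ∑ i, u i ^ 2 * (1 + b i) := by
    intro u
    unfold sq
    refine Finset.sum_congr rfl fun i _ => ?_
    rw [dg_apply, mul_pow, hc2]
  have h1 : ∀ u, 1 * sq u ≤ sq (dg c hc u) := by
    intro u
    rw [hsq, one_mul]
    unfold sq
    refine Finset.sum_le_sum fun i _ => ?_
    have := hb i
    nlinarith [_root_.sq_nonneg (u i)]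
  have h2 : ∀ u, sq (dg c hc u) ≤ (1 + ∑ j, b j) * sq u := by
    intro u
    rw [hsq]
    unfold sq
    rw [Finset.mul_sum]
    refine Finset.sum_le_sum fun i _ => ?_
    rw [mul_comm]
    refine mul_le_mul_of_nonneg_right ?_ (_root_.sq_nonneg _)
    have : b i ≤ ∑ j, b j := Finset.single_le_sum (fun j _ => hb j) (Finset.mem_univ i)
    linarith
  have hN := H.comp_lin (dg c hc) one_pos h1 h2
  rw [mul_one] at hN
  have hP : ∀ z, dg c hc z = (Matrix.diagonal c).mulVec z := by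
    intro z
    funext i
    rw [Matrix.mulVec_diagonal, dg_apply, mul_comm]
  have hL : Matrix.diagonal c * Matrix.diagonal (fun i => (c i)⁻¹) = 1 := by
    rw [Matrix.diagonal_mul_diagonal, ← Matrix.diagonal_one]
    congr 1
    funext i
    exact mul_inv_cancel₀ (hc i)
  have hL2 : Matrix.diagonal (fun i => (c i)⁻¹) * Matrix.diagonal c = 1 := mul_eq_one_comm.1 hL
  have hCM : CM (fun x => V (dg c hc x)) = Matrix.diagonal fun i => b i / (1 + b i) := by
    have h3 := CM_comp_lin H (dg c hc) (Matrix.diagonal fun i => (c i)⁻¹) (fun x => by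
      rw [hP, Matrix.mulVec_mulVec, hL2, Matrix.one_mulVec])
    rw [h3, Matrix.diagonal_transpose, hA, Matrix.diagonal_mul_diagonal,
      Matrix.diagonal_mul_diagonal]
    congr 1
    funext i
    rw [← hc2]
    have := hc i
    field_simp
  have hCLe : CLe (fun x => V (dg c hc x)) 1 := by
    intro θ
    rw [← CM_quad hN, hCM, one_mul]
    unfold sq
    refine Finset.sum_le_sum fun i _ => ?_
    rw [Finset.sum_eq_single i]
    · rw [Matrix.diagonal_apply_eq]
      have h3 : b i / (1 + b i) ≤ 1 := by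
        rw [div_le_one (hq i)]
        linarith
      nlinarith [mul_le_mul_of_nonneg_right h3 (_root_.sq_nonneg (θ i))]
    · intro j _ hj
      rw [Matrix.diagonal_apply_ne _ (Ne.symm hj)]
      ring
    · intro h
      exact absurd (Finset.mem_univ i) h
  have hPI := IL hN zero_le_one hCLe
  obtain ⟨e1, -⟩ := qt_lin H (dg c hc) hL hP B
  have h4 := quad_le hN zero_le_one (Real.sqrt_nonneg _) hCLe hPI
    (U2b_symm hB (Matrix.diagonal c))
  have h5 : var (fun z => V (dg c hc z)) (qf (fun z => V (dg c hc z))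
      ((Matrix.diagonal c).transpose * B * Matrix.diagonal c)) = var V (qf V B) := e1
  have h6 : (4 : ℝ) * √(1 / τ) * 1 = 4 / √τ := by
    rw [Real.sqrt_div zero_le_one, Real.sqrt_one]
    ring
  rw [h6] at h4
  rw [← h5]
  refine h4.trans (le_of_eq ?_)
  congr 1
  rw [hA, ← Matrix.diagonal_one, Matrix.diagonal_add, tq_diag hB]
  unfold nB
  refine Finset.sum_congr rfl fun i _ => Finset.sum_congr rfl fun j _ => ?_
  rw [Matrix.diagonal_transpose, Matrix.mul_diagonal, Matrix.diagonal_mul]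
  calc (c i * B i j * c j) ^ 2 = B i j ^ 2 * (c i ^ 2 * c j ^ 2) := by ring
    _ = _ := by rw [hc2, hc2]

/-- U.1, a priori bound: `Q(τ, 4/√τ)`.  Coordinates `x = ∑ c_k z_k e_k`, `e` an eigenbasis of
`A = Cov V`, `c_k = √(1 + λ_k)` (`stv`, `stv_nice`, `CLe_stv` with `z = 1`), `IL`, `quad_le`;
`L Lᵀ = 1 + A`, so `tq B' (1) ≤ ...`: with `B' = Lᵀ B L`,
`∑ B'_ij² = tr(B(1+A)B(1+A))`. -/
theorem qt_apriori {τ : ℝ} (hτ : 0 < τ) : QT ι τ (4 / √τ) := by
  intro M V H B hB
  obtain ⟨e, lam, he⟩ := exists_EB (A := CM V) (CM_symm V)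
  obtain ⟨U, hUe⟩ : ∃ U : Matrix ι ι ℝ, U = Matrix.of fun a k => e k a := ⟨_, rfl⟩
  have hU : U * U.transpose = 1 := by
    ext a b
    rw [Matrix.mul_apply, Matrix.one_apply, ← he.orth' a b]
    refine Finset.sum_congr rfl fun k _ => ?_
    rw [hUe]
    rfl
  have hCM : CM (fun x => V (ogm U hU x)) = Matrix.diagonal lam := by
    ext i j
    have h1 : dt (e i) ((CM V).mulVec (e j)) = if i = j then lam i else 0 := by
      rw [he.dt_mulVec, he.orth]
      split_ifs <;> simp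
    rw [Matrix.diagonal_apply, CM_og H U hU, ← h1, Matrix.mul_assoc, Matrix.mul_apply, hUe]
    rfl
  obtain ⟨e1, e2⟩ := qt_lin H (ogm U hU) hU (fun z => ogm_apply U hU z) B
  have h := U2b_diag (H.comp_og U hU) (fun i => he.lam_nonneg H i) hCM (U2b_symm hB U)
  rw [e1, e2, hU] at h
  exact h

end Pool.Agent.Lib.MP_8d00da_gt.h42k.U
end

section

/-!
# Paper 344 (quadratic KLS with a universal constant): from the class to (QK)
-/

namespace Pool.Agent.Lib.MP_8d00da_gt.h42k.U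

open MeasureTheory Set Filter
open scoped Topology NNReal ENNReal ContDiff

set_option linter.unusedSectionVars false
set_option linter.unusedVariables false

variable {ι : Type} [Fintype ι] [DecidableEq ι]

variable {κ M : ℝ} {V : (ι → ℝ) → ℝ}

/-- From the class to (QK): if `Q(τ,C)` for all `τ > 0`, then `QKP (4C)`. -/
theorem qkp_of_qt {C : ℝ} (hC : 0 ≤ C) (h : ∀ τ : ℝ, 0 < τ → QT ι τ C) : QKP (4 * C) ι := by
  intro κ M V H hCL t
  have hBs : ∀ i j, (Matrix.diagonal t : Matrix ι ι ℝ) i j = (Matrix.diagonal t) j i := by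
    intro i j
    by_cases hij : i = j
    · rw [hij]
    · rw [Matrix.diagonal_apply_ne _ hij, Matrix.diagonal_apply_ne _ (Ne.symm hij)]
  have h1 := h κ H.kpos M V H (Matrix.diagonal t) hBs
  have h2 : qf V (Matrix.diagonal t : Matrix ι ι ℝ) =
      fun x => ∑ i, t i * (x i - mn V i) ^ 2 := by
    funext x
    unfold qf
    refine Finset.sum_congr rfl fun i _ => ?_
    rw [Finset.sum_eq_single i]
    · rw [Matrix.diagonal_apply_eq]
      ring
    · intro j _ hj
      rw [Matrix.diagonal_apply_ne _ (Ne.symm hj)]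
      ring
    · intro hi
      exact absurd (Finset.mem_univ i) hi
  rw [h2] at h1
  have hpsd : PSD ((Matrix.diagonal fun _ : ι => (2 : ℝ)) - (1 + CM V)) := by
    refine ⟨?_, fun θ => ?_⟩
    · rw [Matrix.transpose_sub, Matrix.transpose_add, Matrix.diagonal_transpose,
        Matrix.transpose_one, (CM_PSD H).symm]
    · have e1 : ∀ i, ∑ j, θ i * ((Matrix.diagonal fun _ : ι => (2 : ℝ)) - (1 + CM V)) i j * θ j =
          θ i ^ 2 - ∑ j, θ i * CM V i j * θ j := by
        intro i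
        have e2 : ∀ j, θ i * ((Matrix.diagonal fun _ : ι => (2 : ℝ)) - (1 + CM V)) i j * θ j =
            (if i = j then θ i * θ j else 0) - θ i * CM V i j * θ j := by
          intro j
          rw [Matrix.sub_apply, Matrix.add_apply]
          by_cases hij : i = j
          · rw [if_pos hij, hij, Matrix.diagonal_apply_eq, Matrix.one_apply_eq]
            ring
          · rw [if_neg hij, Matrix.diagonal_apply_ne _ hij, Matrix.one_apply_ne hij]
            ring
        simp only [e2, Finset.sum_sub_distrib]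
        rw [Finset.sum_ite_eq, if_pos (Finset.mem_univ i)]
        ring
      simp only [e1, Finset.sum_sub_distrib]
      rw [CM_quad H]
      have e3 := hCL θ
      unfold sq at e3
      linarith
  have h3 := tq_mono hBs (one_add_CM_psd H) hpsd
  rw [tq_diag hBs] at h3
  have h4 : nB (fun _ : ι => (2 : ℝ)) (Matrix.diagonal t) = 4 * ∑ i, t i ^ 2 := by
    unfold nB
    rw [Finset.mul_sum]
    refine Finset.sum_congr rfl fun i _ => ?_
    rw [Finset.sum_eq_single i]
    · rw [Matrix.diagonal_apply_eq]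
      ring
    · intro j _ hj
      rw [Matrix.diagonal_apply_ne _ (Ne.symm hj)]
      ring
    · intro hi
      exact absurd (Finset.mem_univ i) hi
  rw [h4] at h3
  have h5 := mul_le_mul_of_nonneg_left h3 hC
  linarith

end Pool.Agent.Lib.MP_8d00da_gt.h42k.U
end

section

/-!
# Paper 344 (quadratic KLS with a universal constant): U.3: reduction to the normal form
-/

namespace Pool.Agent.Lib.MP_8d00da_gt.h42k.U

open MeasureTheory Set Filter
open scoped Topology NNReal ENNReal ContDiff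

set_option linter.unusedSectionVars false
set_option linter.unusedVariables false

variable {ι : Type} [Fintype ι] [DecidableEq ι]

variable {τ σ M : ℝ} {V : (ι → ℝ) → ℝ} {α : ι → ℝ}

/-- U.3: to prove `Q(τ,C)` it is enough to treat potentials in normal form and
`∑ B_ij² S_i S_j ≤ 1` (`exists_nf`; scale `B'` by `nB^{-1/2}`; if `nB (sw σ α) B' = 0`, then
`B' = 0`). -/
theorem qt_of_nf {C : ℝ} (hσ : 2 ≤ σ) (hC : 0 ≤ C)
    (h : ∀ (M : ℝ) (V : (ι → ℝ) → ℝ) (α : ι → ℝ), NF τ σ M V α → ∀ B : Matrix ι ι ℝ,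
      (∀ i j, B i j = B j i) → nB (sw σ α) B ≤ 1 → var V (q0 B) ≤ C) : QT ι τ C := by
  intro M V H B hB
  obtain ⟨M', W, β, B', hNF, hB', hvar, hn⟩ := exists_nf hσ H hB
  rw [← hvar, ← hn]
  have hS : ∀ i, 1 ≤ sw σ β i := fun i => (hNF.sw_facts hσ i).1
  have hN0 : 0 ≤ nB (sw σ β) B' := by
    apply Finset.sum_nonneg
    intro i _
    apply Finset.sum_nonneg
    intro j _
    have h1 := hS i
    have h2 := hS j
    have h3 : 0 ≤ sw σ β i * sw σ β j := by nlinarith
    exact mul_nonneg (sq_nonneg _) h3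
  have hscale : ∀ c : ℝ, nB (sw σ β) (c • B') = c ^ 2 * nB (sw σ β) B' := by
    intro c
    rw [nB, nB, Finset.mul_sum]
    refine Finset.sum_congr rfl fun i _ => ?_
    rw [Finset.mul_sum]
    refine Finset.sum_congr rfl fun j _ => ?_
    rw [Matrix.smul_apply, smul_eq_mul]
    ring
  have hq : ∀ c : ℝ, q0 (c • B') = fun x => c * q0 B' x := by
    intro c
    funext x
    rw [q0, q0, Finset.mul_sum]
    refine Finset.sum_congr rfl fun i _ => ?_
    rw [Finset.mul_sum]
    refine Finset.sum_congr rfl fun j _ => ?_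
    rw [Matrix.smul_apply, smul_eq_mul]
    ring
  rcases hN0.lt_or_eq with hN | hN
  · have hc : (√(nB (sw σ β) B'))⁻¹ ^ 2 * nB (sw σ β) B' = 1 := by
      rw [inv_pow, Real.sq_sqrt hN0, inv_mul_cancel₀ hN.ne']
    have h1 := h M' W β hNF ((√(nB (sw σ β) B'))⁻¹ • B') (fun i j => by
      rw [Matrix.smul_apply, Matrix.smul_apply, hB' i j]) (by rw [hscale, hc])
    rw [hq, var_cmul, inv_pow, Real.sq_sqrt hN0] at h1
    rw [inv_mul_le_iff₀ hN] at h1
    rw [mul_comm]
    exact h1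
  · have h0 : ∀ i j, B' i j = 0 := by
      intro i j
      by_contra hij
      have h1 : 0 < B' i j ^ 2 * (sw σ β i * sw σ β j) := by
        have h2 := hS i
        have h3 := hS j
        have h4 : 0 < sw σ β i * sw σ β j := by nlinarith
        exact mul_pos (by positivity) h4
      have hnn : ∀ a b, 0 ≤ B' a b ^ 2 * (sw σ β a * sw σ β b) := by
        intro a b
        have h2 := hS a
        have h3 := hS b
        have h4 : 0 ≤ sw σ β a * sw σ β b := by nlinarith
        exact mul_nonneg (sq_nonneg _) h4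
      have h5 : B' i j ^ 2 * (sw σ β i * sw σ β j) ≤ nB (sw σ β) B' := by
        rw [nB]
        refine le_trans ?_ (Finset.single_le_sum (f := fun a => ∑ b, B' a b ^ 2 *
          (sw σ β a * sw σ β b)) (fun a _ => Finset.sum_nonneg fun b _ => hnn a b)
          (Finset.mem_univ i))
        exact Finset.single_le_sum (f := fun b => B' i b ^ 2 * (sw σ β i * sw σ β b))
          (fun b _ => hnn i b) (Finset.mem_univ j)
      rw [← hN] at h5
      linarith
    have h1 : q0 B' = fun x => (0 : ℝ) * q0 B' x := by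
      funext x
      rw [zero_mul, q0]
      refine Finset.sum_eq_zero fun i _ => Finset.sum_eq_zero fun j _ => ?_
      rw [h0 i j, zero_mul, zero_mul]
    rw [← hN, mul_zero, h1, var_cmul]
    simp

end Pool.Agent.Lib.MP_8d00da_gt.h42k.U
end

section

/-!
# Full KLS, part (epsilon): the Poincare inequality from the growth rate
-/

open scoped BigOperators InnerProductSpace
open Finset

namespace Pool.Agent.Lib.MP_8d00da_gt.h28k

open h42k

set_option linter.unusedSectionVars false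

variable {ι : Type} [Fintype ι] [DecidableEq ι] {κ M S : ℝ} {V : (ι → ℝ) → ℝ}

theorem inner_sum_sq_le {H : Type*} [NormedAddCommGroup H] [InnerProductSpace ℝ H]
    (u v : ι → H) : (∑ i, ⟪u i, v i⟫_ℝ) ^ 2 ≤ (∑ i, ‖u i‖ ^ 2) * ∑ i, ‖v i‖ ^ 2 := by
  have h1 : |∑ i, ⟪u i, v i⟫_ℝ| ≤ ∑ i, ‖u i‖ * ‖v i‖ :=
    (abs_sum_le_sum_abs _ _).trans (sum_le_sum fun i _ => abs_real_inner_le_norm _ _)
  have h2 := sum_mul_sq_le_sq_mul_sq univ (fun i => ‖u i‖) (fun i => ‖v i‖)
  refine le_trans ?_ h2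
  rw [← sq_abs]
  exact pow_le_pow_left₀ (abs_nonneg _) h1 2

theorem ex_gs_eq (hN : Nice κ M V) {f : (ι → ℝ) → ℝ} (hf : T1 f) :
    ex V (gs f) = ∑ i, (ex V (pd i f) ^ 2 + var V (pd i f)) := by
  unfold gs
  rw [ex_sum hN univ (F := fun i x => pd i f x ^ 2) fun i _ => (hf.pdt0 i).pow 2]
  refine sum_congr rfl fun i _ => ?_
  rw [var_eq']
  ring

/-- Poincare inequality from the bound of the operators `T_i`. -/
theorem rep_pi {H : Type} [NormedAddCommGroup H] [InnerProductSpace ℝ H] (R : Rep V H)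
    (hN : Nice κ M V) (hC : CLe V 1) {a : ℝ} (ha : 0 ≤ a)
    (hT : ∀ g : H, ∑ i, ‖R.T i g‖ ^ 2 ≤ a * ‖g‖ ^ 2) : PI V (1 + a) := by
  intro f hf
  have hf0 : T0 f := hf.t0
  set g : H := R.cl f with hg
  set n : ℝ := var V f with hn
  have n0 : 0 ≤ n := var_nonneg hN hf0
  have h1 : ‖g‖ ^ 2 = n := R.nrm f hf0
  have h2 := R.ib f hf g
  rw [real_inner_self_eq_norm_sq, h1, sum_add_distrib] at h2
  set p : ℝ := ∑ i, ex V (pd i f) * ⟪R.x i, g⟫_ℝ with hp
  set q : ℝ := ∑ i, ⟪R.cl (pd i f), R.T i g⟫_ℝ with hq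
  set A : ℝ := ∑ i, ex V (pd i f) ^ 2 with hA
  set B : ℝ := ∑ i, var V (pd i f) with hB
  have A0 : 0 ≤ A := sum_nonneg fun i _ => sq_nonneg _
  have B0 : 0 ≤ B := sum_nonneg fun i _ => var_nonneg hN (hf.pdt0 i)
  have hE : ex V (gs f) = A + B := by
    rw [ex_gs_eq hN hf, sum_add_distrib]
  have hp2 : p ^ 2 ≤ A * n := by
    have e1 := sum_mul_sq_le_sq_mul_sq univ (fun i => ex V (pd i f)) (fun i => ⟪R.x i, g⟫_ℝ)
    have e2 := R.c0 hC g
    rw [h1] at e2
    exact e1.trans (mul_le_mul_of_nonneg_left e2 A0)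
  have hq2 : q ^ 2 ≤ a * B * n := by
    have e1 := inner_sum_sq_le (fun i => R.cl (pd i f)) (fun i => R.T i g)
    have e2 := hT g
    rw [h1] at e2
    have e3 : ∑ i, ‖R.cl (pd i f)‖ ^ 2 = B := sum_congr rfl fun i _ => R.nrm _ (hf.pdt0 i)
    rw [e3] at e1
    calc q ^ 2 ≤ B * ∑ i, ‖R.T i g‖ ^ 2 := e1
      _ ≤ B * (a * n) := mul_le_mul_of_nonneg_left e2 B0
      _ = a * B * n := by ring
  have hpq : 2 * (p * q) ≤ (a * A + B) * n := by
    have e1 : 0 ≤ (a * A + B) * n := by positivity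
    have e2 : (2 * (p * q)) ^ 2 ≤ ((a * A + B) * n) ^ 2 := by
      have e3 : p ^ 2 * q ^ 2 ≤ (A * n) * (a * B * n) :=
        mul_le_mul hp2 hq2 (sq_nonneg _) (mul_nonneg A0 n0)
      have e4 : 4 * (a * A * B) ≤ (a * A + B) ^ 2 := by nlinarith [sq_nonneg (a * A - B)]
      have e5 := mul_le_mul_of_nonneg_right e4 (sq_nonneg n)
      calc (2 * (p * q)) ^ 2 = 4 * (p ^ 2 * q ^ 2) := by ring
        _ ≤ 4 * ((A * n) * (a * B * n)) := by linarith
        _ = 4 * (a * A * B) * n ^ 2 := by ring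
        _ ≤ (a * A + B) ^ 2 * n ^ 2 := e5
        _ = _ := by ring
    exact le_of_sq_le_sq e2 e1
  have hfin : n * n ≤ ((1 + a) * (A + B)) * n := by
    have e1 : n * n = p ^ 2 + 2 * (p * q) + q ^ 2 := by rw [h2]; ring
    rw [e1]
    nlinarith
  rw [hE]
  rcases n0.eq_or_lt with h | h
  · rw [← h]
    positivity
  · exact le_of_mul_le_mul_right hfin h

theorem aT_one {H : Type*} [NormedAddCommGroup H] [InnerProductSpace ℝ H] (T : ι → H →L[ℝ] H)
    (g : H) : aT T 1 g = ∑ i, ‖T i g‖ ^ 2 := by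
  unfold aT
  rw [← Equiv.sum_comp (Equiv.funUnique (Fin 1) ι).symm]
  refine sum_congr rfl fun i _ => ?_
  simp [wd, Equiv.funUnique]

/-- For `W` in the class: `Var f ≤ (1 + 2S) E|∇f|²`.  PROOF: `R` from `exists_rep`, `g = cl f`:
`Var f = ⟪cl f, g⟫ = ∑ (E ∂_i f ⟪x_i, g⟫ + ⟪cl ∂_i f, T_i g⟫) ≤ (∑ (E ∂_i f)² + ∑ |cl ∂_i f|²)^(1/2)
(∑ ⟪x_i,g⟫² + ∑ |T_i g|²)^(1/2)`; the first factor is `(E|∇f|²)^(1/2)` (`nrm`), the second at most
`((1 + 2S)|g|²)^(1/2)` (`c0`, `KW.cle`, `hG` with `k = 1`). -/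
theorem PI_KW {W : (ι → ℝ) → ℝ} (hS : 0 ≤ S) (hG : GP κ S) (hW : KW κ M W) : PI W (1 + 2 * S) := by
  obtain ⟨H, _, _, ⟨R⟩⟩ := exists_rep hW.1
  refine rep_pi R hW.1 hW.cle (by positivity) fun g => ?_
  have h1 := hG ι M W hW H R 1 g
  rw [aT_one, pow_one] at h1
  exact h1

/-- `|∇(f ∘ P)|² = ⟨(1 + Cov V)∇f, ∇f⟩ ≤ 2|∇f|²`. -/
theorem gs_comp_le (H : Nice κ M V) (hC : CLe V 1) {P : (ι → ℝ) ≃L[ℝ] (ι → ℝ)}
    {Q : Matrix ι ι ℝ} (hP : ∀ z, P z = Q.mulVec z) (hQ : Q * Q.transpose = 1 + CM V)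
    {f : (ι → ℝ) → ℝ} (hf : Differentiable ℝ f) (x : ι → ℝ) :
    gs (fun z => f (P z)) x ≤ 2 * gs f (P x) := by
  set θ : ι → ℝ := fun a => pd a f (P x) with hθ
  have h1 : ∀ i, pd i (fun z => f (P z)) x = ∑ a, Q a i * θ a := by
    intro i
    have e1 := pd_comp (P : (ι → ℝ) →L[ℝ] (ι → ℝ)) hf i x
    have e2 : P (Pi.single i 1) = fun a => Q a i := by
      rw [hP, Matrix.mulVec_single_one]
      rfl
    rw [show pd i (fun z => f (P z)) x = gd f (P x) (P (Pi.single i 1)) from e1, e2]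
    rfl
  have h2 : gs (fun z => f (P z)) x = ∑ a, ∑ b, θ a * (1 + CM V) a b * θ b := by
    unfold gs
    rw [← hQ]
    have e1 : ∀ i, pd i (fun z => f (P z)) x ^ 2 = ∑ a, ∑ b, θ a * (Q a i * Q b i) * θ b := by
      intro i
      rw [h1, pow_two, sum_mul_sum]
      exact sum_congr rfl fun a _ => sum_congr rfl fun b _ => by ring
    rw [sum_congr rfl fun i _ => e1 i, sum_comm]
    refine sum_congr rfl fun a _ => ?_
    rw [sum_comm]
    refine sum_congr rfl fun b _ => ?_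
    rw [Matrix.mul_apply, mul_sum, sum_mul]
    rfl
  have h3 : ∑ a, ∑ b, θ a * (1 + CM V) a b * θ b =
      h42k.sq θ + ∑ a, ∑ b, θ a * CM V a b * θ b := by
    have e3 : h42k.sq θ = ∑ i, ∑ j, θ i * (if i = j then 1 else 0) * θ j := by
      unfold h42k.sq
      refine sum_congr rfl fun i _ => ?_
      rw [sum_eq_single i]
      · rw [if_pos rfl]
        ring
      · intro j _ hj
        rw [if_neg (Ne.symm hj)]
        ring
      · intro h
        exact absurd (mem_univ i) h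
    rw [e3, ← sum_add_distrib]
    refine sum_congr rfl fun i _ => ?_
    rw [← sum_add_distrib]
    refine sum_congr rfl fun j _ => ?_
    rw [Matrix.add_apply, Matrix.one_apply]
    ring
  rw [h2, h3, CM_quad H]
  have h4 := hC θ
  have h5 : gs f (P x) = h42k.sq θ := rfl
  rw [h5]
  linarith

/-- The Poincare inequality of `W = V ∘ P` gives one for `V`. -/
theorem PI.of_kw (H : Nice κ M V) (hC : CLe V 1) {P : (ι → ℝ) ≃L[ℝ] (ι → ℝ)}
    {Q : Matrix ι ι ℝ} {κ' M' : ℝ} (hP : ∀ z, P z = Q.mulVec z)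
    (hQ : Q * Q.transpose = 1 + CM V) (hN : Nice κ' M' (fun z => V (P z))) {C : ℝ} (C0 : 0 ≤ C)
    (h : PI (fun z => V (P z)) C) : PI V (2 * C) := by
  intro f hf
  have hfP : T1 (fun z => f (P z)) := hf.comp_lin (P : (ι → ℝ) →L[ℝ] (ι → ℝ))
  have h1 := h (fun z => f (P z)) hfP
  rw [var_comp_lin P V f] at h1
  have tg : ∀ {g : (ι → ℝ) → ℝ}, T1 g → T0 (gs g) := fun {g} hg =>
    T0.sum univ fun i _ => (hg.pdt0 i).pow 2
  have h2 : ex (fun z => V (P z)) (gs fun z => f (P z)) ≤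
      ex (fun z => V (P z)) (fun z => 2 * gs f (P z)) :=
    ex_mono hN (tg hfP) (((tg hf).comp_lin (P : (ι → ℝ) →L[ℝ] (ι → ℝ))).cmul 2)
      fun x => gs_comp_le H hC hP hQ (hf.c1.differentiable (by norm_num)) x
  rw [ex_cmul, ex_comp_lin P V (gs f)] at h2
  calc var V f ≤ C * ex (fun z => V (P z)) (gs fun z => f (P z)) := h1
    _ ≤ C * (2 * ex V (gs f)) := mul_le_mul_of_nonneg_left h2 C0
    _ = 2 * C * ex V (gs f) := by ring

/-- For all nice potentials with covariance at most `1`.  PROOF: `exists_sqrt`, `W = V ∘ P`,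
`KW_of_nice`, `PI_KW` for `f ∘ P`: `Var_V f = Var_W (f ∘ P) ≤ (1+2S) E_W |∇(f∘P)|² =
(1+2S) E_V |Lᵀ ∇f|² = (1+2S) E_V ⟨(1 + CM V) ∇f, ∇f⟩ ≤ 2 (1+2S) E_V |∇f|²` (`pd_comp`,
`ex_comp_lin`, `var_comp_lin`). -/
theorem PI_of_GP {V : (ι → ℝ) → ℝ} (hS : 0 ≤ S) (hG : GP κ S) (hV : Nice κ M V) (hC : CLe V 1) :
    PI V (2 * (1 + 2 * S)) := by
  obtain ⟨P, L, L', hP, h1, h2, h3⟩ := exists_sqrt hV
  obtain ⟨M', hW⟩ := KW_of_nice hV P hP h1 h2 h3
  exact PI.of_kw hV hC hP h2 hW.1 (by linarith) (PI_KW hS hG hW)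

end Pool.Agent.Lib.MP_8d00da_gt.h28k
end

section

/-!
# Paper 344 (quadratic KLS with a universal constant): U.6 (ii): splitting of the variance
-/

namespace Pool.Agent.Lib.MP_8d00da_gt.h42k.U

open MeasureTheory Set Filter
open scoped Topology NNReal ENNReal ContDiff

set_option linter.unusedSectionVars false
set_option linter.unusedVariables false

variable {ι : Type} [Fintype ι] [DecidableEq ι]

variable {κ M : ℝ} {V : (ι → ℝ) → ℝ}

/-- U.6 (ii): `Var_{t,y} f ≤ Var_{t,y}⟨Bx̃,x̃⟩ + 4Ψ(t,y)` (`f = ⟨Bx̃,x̃⟩ + 2⟨Ba,x⟩ + const`,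
`Var f = Var g + 4 Cov(f, ⟨Ba,x⟩) - 4 Var ⟨Ba,x⟩`). -/
theorem var_le_Ps (H : Nice κ M V) {B : Matrix ι ι ℝ} (hB : ∀ i j, B i j = B j i) {t : ℝ}
    (ht : 0 ≤ t) (y : ι → ℝ) :
    var (pt V t y) (q0 B) ≤ var (pt V t y) (qf (pt V t y) B) + 4 * Ps V B t y := by
  have kp := H.kpos
  have Hp := H.ptn (t := t) (by linarith) y
  set W := pt V t y with hW
  have tq0 : T0 (q0 B) := by
    unfold q0
    exact T0.sum _ fun i _ => T0.sum _ fun j _ => ((T0.coord i).cmul (B i j)).mul (T0.coord j)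
  have tqf : T0 (qf W B) := by
    unfold qf
    exact T0.sum _ fun i _ => T0.sum _ fun j _ =>
      ((((T0.coord i).sub (T0.const _)).cmul (B i j))).mul ((T0.coord j).sub (T0.const _))
  have tl : T0 (fun x : ι → ℝ => ∑ k, (∑ j, B j k * mn W j) * x k) :=
    T0.sum _ fun k _ => (T0.coord k).cmul _
  have e1 : q0 B = fun x => qf W B x + (2 * (∑ k, (∑ j, B j k * mn W j) * x k) +
      (-(∑ i, ∑ j, B i j * mn W i * mn W j))) := by
    funext x
    have h2 : ∑ k, (∑ j, B j k * mn W j) * x k = ∑ i, ∑ j, B i j * mn W i * x j := by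
      rw [Finset.sum_comm]
      refine Finset.sum_congr rfl fun k _ => ?_
      rw [Finset.sum_mul]
    have h3 : ∑ i, ∑ j, B i j * x i * mn W j = ∑ i, ∑ j, B i j * mn W i * x j := by
      rw [Finset.sum_comm]
      refine Finset.sum_congr rfl fun i _ => Finset.sum_congr rfl fun j _ => ?_
      rw [hB j i]; ring
    have h4 : qf W B x = q0 B x - ∑ i, ∑ j, B i j * x i * mn W j -
        ∑ i, ∑ j, B i j * mn W i * x j + ∑ i, ∑ j, B i j * mn W i * mn W j := by
      unfold qf q0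
      simp only [← Finset.sum_sub_distrib, ← Finset.sum_add_distrib]
      refine Finset.sum_congr rfl fun i _ => Finset.sum_congr rfl fun j _ => ?_
      ring
    rw [h4, h3, h2]; ring
  have e2 : qf W B = fun x => (q0 B x - 2 * (∑ k, (∑ j, B j k * mn W j) * x k)) +
      (∑ i, ∑ j, B i j * mn W i * mn W j) := by
    funext x
    have h : q0 B x = qf W B x + (2 * (∑ k, (∑ j, B j k * mn W j) * x k) +
      (-(∑ i, ∑ j, B i j * mn W i * mn W j))) := congrFun e1 x
    linarith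
  have hcov : cov W (q0 B) (fun x => ∑ k, (∑ j, B j k * mn W j) * x k) = Ps V B t y := by
    rw [cov_comm, cov_sum Hp _ (fun k _ => (T0.coord k).cmul _) tq0]
    unfold Ps
    rw [Finset.sum_comm]
    refine Finset.sum_congr rfl fun k _ => ?_
    rw [cov_cmul, cov_comm, Finset.sum_mul]
    refine Finset.sum_congr rfl fun j _ => ?_
    rw [← hW]; ring
  have v1 : var W (qf W B) = var W (q0 B) - 4 * Ps V B t y +
      4 * var W (fun x => ∑ k, (∑ j, B j k * mn W j) * x k) := by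
    rw [e2, var_addc Hp (tq0.sub (tl.cmul 2))]
    have e3 : (fun x => q0 B x - 2 * ∑ k, (∑ j, B j k * mn W j) * x k) =
        fun x => q0 B x + (-2) * ∑ k, (∑ j, B j k * mn W j) * x k := by
      funext x; ring
    rw [e3, var_add Hp tq0 (tl.cmul (-2)), var_cmul, cov_comm, cov_cmul, cov_comm, hcov]
    ring
  have v2 := var_nonneg Hp tl
  linarith

end Pool.Agent.Lib.MP_8d00da_gt.h42k.U
end

section

/-!
# The flow for polynomials (full KLS, part gamma): W_j and V_j
-/

namespace Pool.Agent.Lib.MP_8d00da_gt.h42k.G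

open MeasureTheory Set Filter
open scoped Topology NNReal ENNReal ContDiff
open Pool.Agent.Lib.MP_8d00da_gt.h42k.U (NF sw QT)

set_option linter.unusedSectionVars false
set_option linter.unusedVariables false

variable {ι : Type} [Fintype ι] [DecidableEq ι]

variable {κ M : ℝ} {V : (ι → ℝ) → ℝ}

/-- `∑_m Cov(f,x_m)² ≤ σ Var f` in normal form. -/
theorem cov_vec_le0 {τ σ : ℝ} {α : ι → ℝ} (h : NF τ σ M V α) {f : (ι → ℝ) → ℝ} (hf : T0 f) :
    ∑ m, cov V f (fun x => x m) ^ 2 ≤ σ * var V f := by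
  have hCL : CLe V σ := by
    intro θ
    rw [var_dt h.nice, h.cm]
    have h1 : ∑ i, ∑ j, θ i * θ j * Matrix.diagonal α i j = ∑ i, α i * θ i ^ 2 := by
      refine Finset.sum_congr rfl fun i _ => ?_
      rw [Finset.sum_eq_single i]
      · rw [Matrix.diagonal_apply_eq]
        ring
      · intro j _ hj
        rw [Matrix.diagonal_apply_ne _ (Ne.symm hj), mul_zero]
      · intro hi
        exact absurd (Finset.mem_univ i) hi
    rw [h1]
    unfold sq
    rw [Finset.mul_sum]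
    exact Finset.sum_le_sum fun i _ => mul_le_mul_of_nonneg_right (h.lt i).le (sq_nonneg _)
  exact CLe.cov_sq h.nice hCL hf

theorem Wj_le {τ σ : ℝ} {α : ι → ℝ} (h : NF τ σ M V α) {S : ι → ℝ} (hS : ∀ i, 0 ≤ S i) (j : ℕ)
    (p : MvPolynomial ι ℝ) : Wj V S j p ≤ σ * Vj V S j p := by
  induction j generalizing p with
  | zero => exact cov_vec_le0 h (ev_T0 p)
  | succ j ih =>
    change ∑ k, S k * Wj V S j (MvPolynomial.pderiv k p) ≤
      σ * ∑ k, S k * Vj V S j (MvPolynomial.pderiv k p)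
    rw [Finset.mul_sum]
    refine Finset.sum_le_sum fun k _ => ?_
    have h1 := mul_le_mul_of_nonneg_left (ih (MvPolynomial.pderiv k p)) (hS k)
    linarith

/-- `V_j(p) ≤ ∑_i w_i N_{i+j}(p)` for `deg p ≤ b` (induction on `j`). -/
theorem Vj_le {b : ℕ} {τ σ : ℝ} {w : ℕ → ℝ} {α : ι → ℝ} (h : PTw ι b τ w) (hσ : 2 ≤ σ)
    (hN : NF τ σ M V α) (j : ℕ) {p : MvPolynomial ι ℝ} (hp : p.totalDegree ≤ b) :
    Vj V (sw σ α) j p ≤
      ∑ i ∈ Finset.Icc 1 b, w i * Qj V (Matrix.diagonal (sw σ α)) (i + j) p p := by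
  induction j generalizing p with
  | zero => exact h.nf hσ hN hp
  | succ j ih =>
    have h1 : ∀ k, sw σ α k * Vj V (sw σ α) j (MvPolynomial.pderiv k p) ≤
        ∑ i ∈ Finset.Icc 1 b, w i * (sw σ α k * Qj V (Matrix.diagonal (sw σ α)) (i + j)
          (MvPolynomial.pderiv k p) (MvPolynomial.pderiv k p)) := by
      intro k
      have h2 := ih (p := MvPolynomial.pderiv k p) ((totalDegree_pderiv_le k p).trans ((Nat.sub_le _ _).trans hp))
      have h3 : 0 ≤ sw σ α k := by linarith [(hN.sw_facts hσ k).1]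
      refine (mul_le_mul_of_nonneg_left h2 h3).trans (le_of_eq ?_)
      rw [Finset.mul_sum]
      exact Finset.sum_congr rfl fun i _ => by ring
    change ∑ k, sw σ α k * Vj V (sw σ α) j (MvPolynomial.pderiv k p) ≤ _
    refine (Finset.sum_le_sum fun k _ => h1 k).trans (le_of_eq ?_)
    rw [Finset.sum_comm]
    refine Finset.sum_congr rfl fun i _ => ?_
    rw [← Finset.mul_sum, ← add_assoc, Qj_diag_succ]

end Pool.Agent.Lib.MP_8d00da_gt.h42k.G
end

section

/-!
# The flow for polynomials (full KLS, part gamma): the class inequality at time t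
-/

namespace Pool.Agent.Lib.MP_8d00da_gt.h42k.G

open MeasureTheory Set Filter
open scoped Topology NNReal ENNReal ContDiff
open Pool.Agent.Lib.MP_8d00da_gt.h42k.U (NF sw QT)

set_option linter.unusedSectionVars false
set_option linter.unusedVariables false

variable {ι : Type} [Fintype ι] [DecidableEq ι]

variable {κ M : ℝ} {V : (ι → ℝ) → ℝ}

private theorem GP8c_a {τ t r u : ℝ} (h1 : r ≠ 0) (h2 : τ + t * r ≠ 0) (h3 : τ + t ≠ 0) :
    (τ + t) * (((τ + t) * r / (τ + t * r))⁻¹ * u ^ 2) = τ * (u ^ 2 / r) + t * u ^ 2 := by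
  field_simp

private theorem GP8c_b {τ t r : ℝ} (h2 : τ + t * r ≠ 0) :
    (τ + t) * r / (τ + t * r) - r = t * r * (1 - r) / (τ + t * r) := by
  field_simp
  ring

/-- `Var_{t,y} p ≤ ∑ w_j Q_j(G+A_t)`, `G = R + (t/(τσ)) A` (`PTw.lin` for `pt V t y` with `τ + t`
and `R_t = (τ+t)R(τ+tR)⁻¹ ≤ G`, `Qj_psd_mono`; compare `U.NF.quad_t`). -/
theorem PTw.time_t {b : ℕ} {τ σ t : ℝ} {w : ℕ → ℝ} {α : ι → ℝ} (h : PTw ι b (τ + t) w)
    (hw : ∀ j, 0 ≤ w j) (hσ : 2 ≤ σ) (ht : 0 < t) (hN : NF τ σ M V α)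
    {p : MvPolynomial ι ℝ} (hp : p.totalDegree ≤ b) (y : ι → ℝ) :
    var (pt V t y) (ev p) ≤ ∑ j ∈ Finset.Icc 1 b, w j *
      Qj (pt V t y) (Matrix.diagonal (fun i => (1 - α i / σ) + t / (τ * σ) * α i) +
        CM (pt V t y)) j p p := by
  have hτ := hN.nice.kpos
  have hn := hN.nice.ptn (t := t) (by linarith) y
  have hσ0 : 0 < σ := by linarith
  have hR : ∀ i, 0 < 1 - α i / σ := fun i => (hN.sw_facts hσ i).2.2.2.1
  have hR1 : ∀ i, 1 - α i / σ ≤ 1 := fun i => (hN.sw_facts hσ i).2.2.2.2.1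
  have hd : ∀ i, 0 < τ + t * (1 - α i / σ) := fun i => by
    have := mul_pos ht (hR i)
    linarith
  set Rt : ι → ℝ := fun i => (τ + t) * (1 - α i / σ) / (τ + t * (1 - α i / σ)) with hRt
  have hRt0 : ∀ i, 0 < Rt i := fun i =>
    div_pos (mul_pos (by linarith) (hR i)) (hd i)
  set L : Matrix ι ι ℝ := Matrix.diagonal (fun i => √(Rt i)) with hL
  set L' : Matrix ι ι ℝ := Matrix.diagonal (fun i => (√(Rt i))⁻¹) with hL'
  have hLL' : L * L' = 1 := by
    rw [hL, hL', Matrix.diagonal_mul_diagonal, ← Matrix.diagonal_one]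
    congr 1
    funext i
    exact mul_inv_cancel₀ (Real.sqrt_pos.2 (hRt0 i)).ne'
  have hLLt : L * L.transpose = Matrix.diagonal Rt := by
    rw [hL, Matrix.diagonal_transpose, Matrix.diagonal_mul_diagonal]
    congr 1
    funext i
    exact Real.mul_self_sqrt (hRt0 i).le
  have hlo : ∀ x u, (τ + t) * sq (L'.mulVec u) ≤ hs (pt V t y) x u := by
    intro x u
    refine le_trans (le_of_eq ?_) (hN.lo_pt ht.le y x u)
    unfold sq
    rw [Finset.mul_sum, Finset.mul_sum, Finset.mul_sum, ← Finset.sum_add_distrib]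
    refine Finset.sum_congr rfl fun i _ => ?_
    have h1 : L'.mulVec u i = (√(Rt i))⁻¹ * u i := by
      rw [hL', Matrix.mulVec_diagonal]
    have h2 : (√(Rt i)) ^ 2 = Rt i := Real.sq_sqrt (hRt0 i).le
    rw [h1, mul_pow, inv_pow, h2]
    exact GP8c_a (hR i).ne' (hd i).ne' (by linarith)
  have key := PTw.lin (τ := τ + t) (by linarith) h hn hLL' hlo hp
  refine key.trans (Finset.sum_le_sum fun j _ => mul_le_mul_of_nonneg_left ?_ (hw j))
  refine Qj_psd_mono hn ?_ ?_ j p
  · rw [hLLt]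
    exact U.diag_add_CM_psd hn fun i => (hRt0 i).le
  · have h6 : Matrix.diagonal (fun i => (1 - α i / σ) + t / (τ * σ) * α i) +
        CM (pt V t y) - (L * L.transpose + CM (pt V t y)) =
        Matrix.diagonal (fun i => (1 - α i / σ) + t / (τ * σ) * α i - Rt i) := by
      rw [hLLt, add_sub_add_right_eq_sub, Matrix.diagonal_sub]
    rw [h6]
    refine U.U2a_diag_psd fun i => ?_
    have h7 : Rt i - (1 - α i / σ) ≤ t / (τ * σ) * α i := by
      have h8 : Rt i - (1 - α i / σ) =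
          t * (1 - α i / σ) * (α i / σ) / (τ + t * (1 - α i / σ)) := by
        have h4 := GP8c_b (hd i).ne'
        rw [show 1 - (1 - α i / σ) = α i / σ by ring] at h4
        exact h4
      rw [h8, div_le_iff₀ (hd i)]
      have h9 : 0 ≤ α i / σ := div_nonneg (hN.nn i) hσ0.le
      have h10 : t / (τ * σ) * α i * (τ + t * (1 - α i / σ)) =
          t * (α i / σ) + t / τ * (α i / σ) * (t * (1 - α i / σ)) := by
        field_simp
      rw [h10]
      have h11 : 0 ≤ t / τ * (α i / σ) * (t * (1 - α i / σ)) := by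
        have := hR i
        positivity
      have h12 : t * (1 - α i / σ) * (α i / σ) ≤ t * (α i / σ) := by
        have := mul_le_mul_of_nonneg_right (mul_le_mul_of_nonneg_left (hR1 i) ht.le) h9
        linarith
      linarith
    linarith

end Pool.Agent.Lib.MP_8d00da_gt.h42k.G
end

section

/-!
# The flow for polynomials (full KLS, part gamma): bound of the coefficients
-/

namespace Pool.Agent.Lib.MP_8d00da_gt.h42k.G

open MeasureTheory Set Filter
open scoped Topology NNReal ENNReal ContDiff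
open Pool.Agent.Lib.MP_8d00da_gt.h42k.U (NF sw QT)

set_option linter.unusedSectionVars false
set_option linter.unusedVariables false

variable {ι : Type} [Fintype ι] [DecidableEq ι]

variable {κ M : ℝ} {V : (ι → ℝ) → ℝ}

private theorem GP8a_Qnn (j : ℕ) (p : MvPolynomial ι ℝ) : 0 ≤ Qj V 1 j p p := by
  have h := Qj_diag_nonneg (V := V) (S := fun _ : ι => (1 : ℝ)) (fun _ => zero_le_one) j p
  rwa [Matrix.diagonal_one] at h

private theorem GP8a_Qsucc (j : ℕ) (p : MvPolynomial ι ℝ) :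
    Qj V 1 (j + 1) p p = ∑ k, Qj V 1 j (MvPolynomial.pderiv k p) (MvPolynomial.pderiv k p) := by
  have h := Qj_diag_succ (V := V) (fun _ : ι => (1 : ℝ)) j p p
  rw [Matrix.diagonal_one] at h
  rw [h]
  exact Finset.sum_congr rfl fun k _ => one_mul _

private theorem GP8a_main (ι : Type) [Fintype ι] [DecidableEq ι] {κ₀ : ℝ} (h0 : 0 < κ₀) (b : ℕ) :
    ∃ C : ℝ, 0 ≤ C ∧ ∀ (κ M : ℝ) (V : (ι → ℝ) → ℝ), κ₀ ≤ κ → Nice κ M V →
      (∀ i, mn V i = 0) → ∀ p : MvPolynomial ι ℝ, p.totalDegree ≤ b →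
      ∑ j ∈ Finset.range (b + 1), Qj V 1 j p p ≤ 1 → ∀ γ, |p.coeff γ| ≤ C := by
  induction b with
  | zero =>
    refine ⟨1, zero_le_one, ?_⟩
    intro κ M V hκ H hm p hp hN γ
    obtain ⟨a, ha⟩ : ∃ a : ℝ, p = MvPolynomial.C a :=
      ⟨_, MvPolynomial.totalDegree_eq_zero_iff_eq_C.1 (by omega)⟩
    rw [ha] at hN ⊢
    rw [Finset.sum_range_one] at hN
    have h1 : ex V (ev (MvPolynomial.C a : MvPolynomial ι ℝ)) = a := by
      have h2 : ev (MvPolynomial.C a : MvPolynomial ι ℝ) = fun _ => a := by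
        funext x
        simp [ev]
      rw [h2, ex_const H]
    have h3 : a * a ≤ 1 := by
      have h4 : Qj V 1 0 (MvPolynomial.C a : MvPolynomial ι ℝ) (MvPolynomial.C a) = a * a := by
        show ex V (ev (MvPolynomial.C a : MvPolynomial ι ℝ)) *
          ex V (ev (MvPolynomial.C a : MvPolynomial ι ℝ)) = a * a
        rw [h1]
      rwa [h4] at hN
    have h5 : |a| ≤ 1 := abs_le_one_iff_mul_self_le_one.2 h3
    rw [MvPolynomial.coeff_C]
    split_ifs
    · exact h5
    · simp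
  | succ b ih =>
    obtain ⟨C0, hC0, ih⟩ := ih
    obtain ⟨C1, hC1, hmom⟩ := mom_unif ι h0 (b + 1)
    obtain ⟨F, hF⟩ : ∃ F : Finset (ι →₀ ℕ), ∀ γ : ι →₀ ℕ, Finsupp.degree γ ≤ b + 1 → γ ∈ F :=
      ⟨(Finsupp.finite_of_degree_le (b + 1)).toFinset, fun γ hγ => by
        rw [Set.Finite.mem_toFinset]; exact hγ⟩
    refine ⟨1 + F.card * (C0 * C1) + C0, by positivity, ?_⟩
    intro κ M V hκ H hm p hp hN γ
    -- the derivatives
    have hd : ∀ i, ∀ γ, |(MvPolynomial.pderiv i p).coeff γ| ≤ C0 := by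
      intro i
      apply ih κ M V hκ H hm
      · have := totalDegree_pderiv_le i p
        omega
      · have h1 : ∑ j ∈ Finset.range (b + 1), Qj V 1 j (MvPolynomial.pderiv i p)
            (MvPolynomial.pderiv i p) ≤ ∑ j ∈ Finset.range (b + 1), Qj V 1 (j + 1) p p := by
          apply Finset.sum_le_sum
          intro j _
          rw [GP8a_Qsucc]
          exact Finset.single_le_sum (f := fun k => Qj V 1 j (MvPolynomial.pderiv k p)
            (MvPolynomial.pderiv k p)) (fun k _ => GP8a_Qnn j _) (Finset.mem_univ i)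
        rw [Finset.sum_range_succ'] at hN
        have h2 := GP8a_Qnn (V := V) 0 p
        linarith
    have hne : ∀ γ : ι →₀ ℕ, γ ≠ 0 → |p.coeff γ| ≤ C0 := by
      intro γ hγ
      obtain ⟨i, hi⟩ : ∃ i, γ i ≠ 0 := by
        by_contra h
        push Not at h
        exact hγ (Finsupp.ext h)
      have h1 := hd i (γ - Finsupp.single i 1)
      rw [MvPolynomial.coeff_pderiv] at h1
      have h2 : γ - Finsupp.single i 1 + Finsupp.single i 1 = γ := by
        apply tsub_add_cancel_of_le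
        rw [Finsupp.single_le_iff]
        omega
      rw [h2, abs_mul] at h1
      have h3 : ∀ n : ℕ, (1 : ℝ) ≤ |(n : ℝ) + 1| := by
        intro n
        rw [abs_of_nonneg (by positivity)]
        have : (0 : ℝ) ≤ (n : ℝ) := Nat.cast_nonneg _
        linarith
      exact (le_mul_of_one_le_right (abs_nonneg _) (h3 _)).trans h1
    by_cases hγ : γ = 0
    · -- the constant coefficient
      have hdeg : ∀ γ ∈ p.support, ∑ i, γ i ≤ b + 1 := by
        intro γ hγ
        have h1 := MvPolynomial.le_totalDegree hγ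
        rw [Finsupp.sum_fintype _ _ (fun _ => rfl)] at h1
        omega
      have hex : ex V (ev p) = ∑ γ ∈ p.support, p.coeff γ * ex V (fun x => ∏ i, x i ^ γ i) := by
        have h1 : ev p = fun x => ∑ γ ∈ p.support, p.coeff γ * ∏ i, x i ^ γ i :=
          funext fun x => ev_monomials p x
        rw [h1, ex_sum H _ (F := fun γ x => p.coeff γ * ∏ i, x i ^ γ i)
          (fun γ _ => (mono_T0 (fun i => γ i)).cmul _)]
        exact Finset.sum_congr rfl fun γ _ => ex_cmul _ _ _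
      have hmo : ∀ γ ∈ p.support, |ex V (fun x => ∏ i, x i ^ γ i)| ≤ C1 := by
        intro γ hγ
        refine (ex_abs_le H (mono_T0 _)).trans ?_
        refine le_trans ?_ (hmom κ M V hκ H hm)
        refine ex_mono H (mono_T0 _).abs
          (T0.pow (T0.add (T0.const 1) T0.sqf) _) fun x => ?_
        refine (mono_le _ x).trans ?_
        exact pow_le_pow_right₀ (one_le_sq x) (hdeg γ hγ)
      have hE : |ex V (ev p)| ≤ 1 := by
        have h1 : ∑ j ∈ Finset.range 1, Qj V 1 j p p ≤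
            ∑ j ∈ Finset.range (b + 1 + 1), Qj V 1 j p p :=
          Finset.sum_le_sum_of_subset_of_nonneg
            (Finset.range_mono (by omega)) fun j _ _ => GP8a_Qnn j p
        rw [Finset.sum_range_one] at h1
        have h2 : ex V (ev p) * ex V (ev p) ≤ 1 := h1.trans hN
        exact abs_le_one_iff_mul_self_le_one.2 h2
      rw [hγ]
      by_cases h00 : (0 : ι →₀ ℕ) ∈ p.support
      · have h1 : ∑ γ ∈ p.support, p.coeff γ * ex V (fun x => ∏ i, x i ^ γ i) =
            (∑ γ ∈ p.support.erase 0, p.coeff γ * ex V (fun x => ∏ i, x i ^ γ i)) +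
            p.coeff 0 := by
          rw [← Finset.sum_erase_add _ _ h00]
          congr 1
          have h2 : (fun x : ι → ℝ => ∏ i, x i ^ (0 : ι →₀ ℕ) i) = fun _ => 1 := by
            funext x
            simp
          rw [h2, ex_const H, mul_one]
        have h2 : |∑ γ ∈ p.support.erase 0, p.coeff γ * ex V (fun x => ∏ i, x i ^ γ i)| ≤
            F.card * (C0 * C1) := by
          refine (Finset.abs_sum_le_sum_abs _ _).trans ?_
          have h3 : ∑ γ ∈ p.support.erase 0, |p.coeff γ * ex V (fun x => ∏ i, x i ^ γ i)| ≤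
              ∑ γ ∈ p.support.erase 0, C0 * C1 := by
            apply Finset.sum_le_sum
            intro γ hγ
            rw [abs_mul]
            exact mul_le_mul (hne γ (Finset.ne_of_mem_erase hγ))
              (hmo γ (Finset.mem_of_mem_erase hγ)) (abs_nonneg _) hC0
          refine h3.trans ?_
          rw [Finset.sum_const, nsmul_eq_mul]
          apply mul_le_mul_of_nonneg_right _ (by positivity)
          have h4 : (p.support.erase 0).card ≤ F.card := by
            apply Finset.card_le_card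
            intro γ hγ
            apply hF
            rw [Finsupp.degree_eq_sum]
            exact hdeg γ (Finset.mem_of_mem_erase hγ)
          exact_mod_cast h4
        rw [hex, h1] at hE
        have h5 := abs_le.1 hE
        have h6 := abs_le.1 h2
        rw [abs_le]
        constructor <;> linarith [h5.1, h5.2, h6.1, h6.2]
      · rw [MvPolynomial.notMem_support_iff.1 h00, abs_zero]
        positivity
    · refine (hne γ hγ).trans ?_
      have : 0 ≤ (F.card : ℝ) * (C0 * C1) := by positivity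
      linarith

/-- For `deg p ≤ b`, `E p = 0` and `∑_{1≤j≤b} |E D^j p|² ≤ 1` the coefficients of `p` are bounded
uniformly (descending induction: the value at `0` of a derivative of order `j` is its mean minus the
mean of its non constant part, whose coefficients are values at `0` of higher derivatives). -/
theorem coef_bound (ι : Type) [Fintype ι] [DecidableEq ι] (b : ℕ) {κ₀ : ℝ} (h0 : 0 < κ₀) :
    ∃ C : ℝ, 0 ≤ C ∧ ∀ (κ M : ℝ) (V : (ι → ℝ) → ℝ), κ₀ ≤ κ → Nice κ M V →
      (∀ i, mn V i = 0) → ∀ p : MvPolynomial ι ℝ, p.totalDegree ≤ b → ex V (ev p) = 0 →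
      ∑ j ∈ Finset.Icc 1 b, Qj V 1 j p p ≤ 1 → ∀ γ, |p.coeff γ| ≤ C := by
  obtain ⟨C, hC, h⟩ := GP8a_main ι h0 b
  refine ⟨C, hC, ?_⟩
  intro κ M V hκ H hm p hp hE hN
  apply h κ M V hκ H hm p hp
  have h1 : ∑ j ∈ Finset.range (b + 1), Qj V 1 j p p =
      Qj V 1 0 p p + ∑ j ∈ Finset.Icc 1 b, Qj V 1 j p p := by
    rw [Finset.range_eq_Ico, Finset.sum_eq_sum_Ico_succ_bot (Nat.succ_pos b)]
    rfl
  have h2 : Qj V 1 0 p p = 0 := by
    show ex V (ev p) * ex V (ev p) = 0
    rw [hE, mul_zero]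
  rw [h1, h2, zero_add]
  exact hN

end Pool.Agent.Lib.MP_8d00da_gt.h42k.G
end

section

/-!
# Paper 344 (quadratic KLS with a universal constant): U.6 (i): loss of variance
-/

namespace Pool.Agent.Lib.MP_8d00da_gt.h42k.U

open MeasureTheory Set Filter
open scoped Topology NNReal ENNReal ContDiff

set_option linter.unusedSectionVars false
set_option linter.unusedVariables false

variable {ι : Type} [Fintype ι] [DecidableEq ι]

variable {κ M : ℝ} {V : (ι → ℝ) → ℝ}

private theorem U5a_q0_t0 (B : Matrix ι ι ℝ) : T0 (q0 B) := by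
  refine T0.sum Finset.univ (F := fun i x => ∑ j, B i j * x i * x j) fun i _ => ?_
  refine T0.sum Finset.univ (F := fun j x => B i j * x i * x j) fun j _ => ?_
  exact (((T0.coord i).cmul (B i j)).mul (T0.coord j))

/-- `⟨D θ, θ⟩ ≤ ‖D‖_HS |θ|²`. -/
private theorem U5a_hs (D : ι → ι → ℝ) (θ : ι → ℝ) :
    ∑ i, ∑ j, θ i * θ j * D i j ≤ √(∑ i, ∑ j, D i j ^ 2) * sq θ := by
  have e1 : ∑ i, ∑ j, θ i * θ j * D i j = ∑ p : ι × ι, D p.1 p.2 * (θ p.1 * θ p.2) := by
    rw [Fintype.sum_prod_type]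
    exact Finset.sum_congr rfl fun i _ => Finset.sum_congr rfl fun j _ => by ring
  have e2 : ∑ i, ∑ j, D i j ^ 2 = ∑ p : ι × ι, D p.1 p.2 ^ 2 := by
    rw [Fintype.sum_prod_type]
  have e3 : sq θ ^ 2 = ∑ p : ι × ι, (θ p.1 * θ p.2) ^ 2 := by
    unfold sq
    rw [Fintype.sum_prod_type, pow_two, Finset.sum_mul_sum]
    exact Finset.sum_congr rfl fun i _ => Finset.sum_congr rfl fun j _ => by ring
  have h0 : 0 ≤ sq θ := Finset.sum_nonneg fun i _ => sq_nonneg _
  have hD : 0 ≤ ∑ i, ∑ j, D i j ^ 2 :=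
    Finset.sum_nonneg fun i _ => Finset.sum_nonneg fun j _ => sq_nonneg _
  have h1 : (∑ i, ∑ j, θ i * θ j * D i j) ^ 2 ≤ (√(∑ i, ∑ j, D i j ^ 2) * sq θ) ^ 2 := by
    rw [mul_pow, Real.sq_sqrt hD, e1, e2, e3]
    exact Finset.sum_mul_sq_le_sq_mul_sq _ _ _
  exact le_of_abs_le (sq_le_sq₀ (abs_nonneg _) (mul_nonneg (Real.sqrt_nonneg _) h0) |>.1
    (by rwa [sq_abs]))

/-- The covariance vector: `|Cov_{s,y}(f,x)|² ≤ |A_s| Var_{s,y} f`, here with
`|A_s| ≤ a + δ` if `Cov V ≤ a`. -/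
theorem cov_vec_le (H : Nice κ M V) {a : ℝ} (ha : 0 ≤ a) (hC : CLe V a) {f : (ι → ℝ) → ℝ}
    (hf : T0 f) {s : ℝ} (s0 : 0 ≤ s) (y : ι → ℝ) :
    ∑ i, cov (pt V s y) f (fun x => x i) ^ 2 ≤ (a + dl V s y) * var (pt V s y) f := by
  have hκ := H.kpos
  have hsκ : -κ < s := by linarith
  have Hp := H.ptn hsκ y
  refine CLe.cov_sq Hp (fun θ => ?_) hf
  have h1 := U5a_hs (fun i j => CM (pt V s y) i j - CM V i j) θ
  have h2 := hC θ
  rw [var_dt H] at h2
  rw [var_dt Hp, add_mul]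
  have h3 : ∑ i, ∑ j, θ i * θ j * CM (pt V s y) i j =
      (∑ i, ∑ j, θ i * θ j * CM V i j) +
        ∑ i, ∑ j, θ i * θ j * (CM (pt V s y) i j - CM V i j) := by
    rw [← Finset.sum_add_distrib]
    refine Finset.sum_congr rfl fun i _ => ?_
    rw [← Finset.sum_add_distrib]
    exact Finset.sum_congr rfl fun j _ => by ring
  rw [h3]
  exact add_le_add h2 h1

/-- U.6 (i): `GE_t Var_{t,y} f ≥ (1 - σ t) Var_V f - C t^{3/2}` for `f = ⟨Bx,x⟩`. -/
theorem step_i (ι : Type) [Fintype ι] [DecidableEq ι] {κ₀ : ℝ} (h0 : 0 < κ₀) :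
    ∃ C : ℝ, 0 ≤ C ∧ ∀ (κ M σ : ℝ) (V : (ι → ℝ) → ℝ), κ₀ ≤ κ → Nice κ M V →
      (∀ i, mn V i = 0) → 0 ≤ σ → CLe V σ → ∀ B : Matrix ι ι ℝ, ∑ i, ∑ j, B i j ^ 2 ≤ 1 →
      ∀ t : ℝ, 0 < t →
      (1 - σ * t) * var V (q0 B) ≤
        GE V t (fun y => var (pt V t y) (q0 B)) + C * (t * √t) := by
  obtain ⟨C, hC0, hC⟩ := GE_dl_errors ι h0
  refine ⟨C, hC0, ?_⟩
  intro κ M σ V hκ₀ H hm hσ hCV B hB t ht
  have hκ := H.kpos
  have hf : T0 (q0 B) := U5a_q0_t0 B
  set F : ℝ → ℝ := fun s => - GE V s (fun y => CP V s (q0 B) (q0 B) y) with hF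
  set F' : ℝ → ℝ := fun s => GE V s (fun y => ∑ i, CP V s (q0 B) (fun x => x i) y *
    CP V s (q0 B) (fun x => x i) y) with hF'
  have hAL : AL V (fun s y => CP V s (q0 B) (q0 B) y) := AL.cp V hf hf
  have hc : ContinuousOn F (Icc 0 t) :=
    (AL.GE_continuousOn H hAL).neg.mono fun s hs => hs.1
  have hd : ∀ s ∈ Ioo 0 t, HasDerivAt F (F' s) s := by
    intro s hs
    have h1 := (GE_CP_hasDerivAt H hf hf hs.1).neg
    rw [neg_neg] at h1
    exact h1
  have hle : ∀ s ∈ Ioo 0 t, F' s ≤ σ * var V (q0 B) + C * √s := by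
    intro s hs
    have s0 : 0 ≤ s := hs.1.le
    have hsκ : -κ < s := by linarith
    have hv : T0 (fun y => var (pt V s y) (q0 B)) := CP_t0 H hf hf hsκ
    have hdl : T0 (dl V s) := dl_t0 H s0
    have h1 : T0 (fun y => ∑ i, CP V s (q0 B) (fun x => x i) y *
        CP V s (q0 B) (fun x => x i) y) :=
      T0.sum _ fun k _ => (CP_t0 H hf (T0.coord k) hsκ).mul (CP_t0 H hf (T0.coord k) hsκ)
    have h2 : T0 (fun y => σ * var (pt V s y) (q0 B)) := hv.cmul σ
    have h3 : T0 (fun y => dl V s y * var (pt V s y) (q0 B)) := hdl.mul hv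
    have h4 := GE_mono H h1 (h2.add h3) s fun y => by
      have h5 := cov_vec_le H hσ hCV hf s0 y
      calc (∑ i, CP V s (q0 B) (fun x => x i) y * CP V s (q0 B) (fun x => x i) y)
          = ∑ i, cov (pt V s y) (q0 B) (fun x => x i) ^ 2 := by
            refine Finset.sum_congr rfl fun k _ => ?_
            unfold CP
            ring
        _ ≤ _ := h5
        _ = σ * var (pt V s y) (q0 B) + dl V s y * var (pt V s y) (q0 B) := by ring
    rw [GE_add H h2 h3, GE_cmul] at h4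
    have h6 := GE_var_le H hf s0
    have h7 := (hC κ M V hκ₀ H hm B hB s s0).2
    exact h4.trans (add_le_add (mul_le_mul_of_nonneg_left h6 hσ) h7)
  have hmain := mvt_sqrt' ht.le hC0 hc hd hle
  have e0 : F 0 = - var V (q0 B) := by
    rw [hF]
    change - GE V 0 (fun y => CP V 0 (q0 B) (q0 B) y) = _
    rw [GE_zero H]
    unfold CP
    have h3 : pt V 0 (0 : ι → ℝ) = V := by
      funext x
      unfold pt dt
      simp
    rw [h3]
    rfl
  have et : F t = - GE V t (fun y => var (pt V t y) (q0 B)) := rfl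
  rw [e0, et] at hmain
  linarith

end Pool.Agent.Lib.MP_8d00da_gt.h42k.U
end

section

/-!
# Full KLS, part (delta): the moment bound from the class inequality
-/

open scoped BigOperators InnerProductSpace

namespace Pool.Agent.Lib.MP_8d00da_gt.h28k

open h42k h42k.G

variable {κ : ℝ}

/-- The moment bound of order `l` from the class inequality of degree `l`.  PROOF: `l = l' + 1`.  For
`W ∈ KW κ` with matrices `L, L'`: `PTw.lin` gives (with `L Lᵀ + CM W = 1` and `Qj_one`)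
`var W (ev p) ≤ ∑_{1≤j≤l} c m^j ∑_w (E ∂_w p)²` for `deg p ≤ l`; shift the index and apply
`h65a.appell_bound` with `E = Ep`, `cl = clP R`, `p j = c m^(j+1)` (`ex_ev_one`, `clP_one`, `clP_ib`,
`clP_nrm`), then `MomT_of_tW`. -/
theorem AP_of_PT {l : ℕ} (hl : 1 ≤ l) {c m : ℝ} (hκ : 0 < κ)
    (h : ∀ (ι : Type) [Fintype ι] [DecidableEq ι], PT ι l κ c m) : AP κ l (c * m ^ l) := by
  obtain ⟨l, rfl⟩ : ∃ l', l = l' + 1 := ⟨l - 1, by omega⟩
  intro ι _ _ M W hW H _ _ R
  obtain ⟨hN, L, L', hL, hC, hlo⟩ := hW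
  refine MomT_of_tW R.T R.x l _ fun C hC' g => ?_
  refine h65a.appell_bound R.T R.x (Ep hN) (ex_ev_one hN) (clP hN R) (clP_one hN R)
    (clP_ib hN R) l (fun j => c * m ^ (j + 1)) ?_ C hC' g
  intro f hf
  have h1 : PTw ι (l + 1) κ (fun j => c * m ^ j) := h ι
  rw [clP_nrm]
  refine (PTw.lin hκ h1 hN hL hlo hf).trans_eq ?_
  rw [hC, show Finset.Icc 1 (l + 1) = Finset.Ico 1 (l + 1 + 1) from by ext k; simp,
    Finset.sum_Ico_eq_sum_range, Nat.add_sub_cancel]
  refine Finset.sum_congr rfl fun j _ => ?_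
  rw [add_comm 1 j, Qj_one]
  simp only [Ep_apply]

end Pool.Agent.Lib.MP_8d00da_gt.h28k
end
end
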