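import Pool.Agent.Lib.MP_8d00da_gt.h28k.Hex
import Pool.Agent.Lib.MP_8d00da_gt.h28k.RepP
import Pool.Agent.Lib.MP_8d00da_gt.h28k.MomB
import Pool.Agent.Lib.MP_8d00da_gt.h42k.GP3c
import Pool.Agent.Lib.MP_8d00da_gt.h42k.U6c
import Pool.Agent.Lib.MP_8d00da_gt.h42k.GP8b

section

/-!
# Full KLS, part (delta): the base inequality
-/

open scoped BigOperators InnerProductSpace

namespace Pool.Agent.Lib.MP_8d00da_gt.h28k

open h42k h42k.G

variable {ι : Type} [Fintype ι] [DecidableEq ι] {κ M : ℝ} {W : (ι → ℝ) → ℝ}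

/-- The base inequality for the class `KW κ`.  PROOF: `exists_rep hW.1`, `h65a.base_bound` for
`E = Ep`, `cl = clP`, `B = 2`, `z = s`, `δ = 1/b` (`clP_one`, `clP_ib`, `clP_nrm`), with
`∑_w tW² ≤ aT ≤ 2 s^j |g|²` from `sum_tW_sq` (`R.c0 hW.cle`) and `hG`; the coefficient of order
`j + 1` is `2 b (1+1/b)^(j+1) s^j = (2b/s) ((1+1/b)s)^(j+1)`; shift `range b` to `Icc 1 b`; and
`Qj_one`. -/
theorem base_KW {b : ℕ} (hb : 1 ≤ b) {s : ℝ} (hs : 0 < s) (hG : GP κ s) (hW : KW κ M W)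
    (p : MvPolynomial ι ℝ) (hp : p.totalDegree ≤ b) :
    var W (ev p) ≤ ∑ j ∈ Finset.Icc 1 b, 2 * b / s * ((1 + 1 / b) * s) ^ j * Qj W 1 j p p := by
  obtain ⟨H, i1, i2, ⟨R⟩⟩ := exists_rep hW.1
  have hb' : (0 : ℝ) < b := by exact_mod_cast hb
  have h := h65a.base_bound R.T R.x (Ep hW.1) (clP hW.1 R) (clP_one hW.1 R) (clP_ib hW.1 R) b 2 s
    (1 / b) (by norm_num) hs.le (by positivity)
    (fun j _ g => (sum_tW_sq R.T R.x (R.c0 hW.cle) j g).trans (hG ι M W hW H R j g)) p hp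
  rw [clP_nrm] at h
  refine h.trans_eq ?_
  rw [show Finset.Icc 1 b = Finset.Ico 1 (b + 1) from by ext k; simp,
    Finset.sum_Ico_eq_sum_range, Nat.add_sub_cancel]
  refine Finset.sum_congr rfl fun j _ => ?_
  rw [add_comm 1 j, Qj_one]
  simp only [Ep_apply]
  congr 1
  rw [mul_pow, pow_succ s j]
  field_simp

/-- The base inequality for all nice potentials.  PROOF: for `V` nice take `P, L, L'` from
`exists_sqrt`, `W = V ∘ P`, `KW_of_nice`, and `base_KW` for `pc L p` (`totalDegree_pc_le`),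
`var_pc`, `Qj_pc` with `X = 1` and `L * 1 * Lᵀ = 1 + CM V`. -/
theorem base_PT (ι : Type) [Fintype ι] [DecidableEq ι] {b : ℕ} (hb : 1 ≤ b) {s : ℝ} (hs : 0 < s)
    (hG : GP κ s) : PT ι b κ (2 * b / s) ((1 + 1 / b) * s) := by
  intro M V hV p hp
  obtain ⟨P, L, L', hP, hL, hS, h1⟩ := exists_sqrt hV
  obtain ⟨M', hW⟩ := KW_of_nice hV P hP hL hS h1
  have h := base_KW hb hs hG hW (pc L p) ((totalDegree_pc_le L p).trans hp)
  rw [var_pc P hP] at h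
  refine h.trans_eq (Finset.sum_congr rfl fun j _ => ?_)
  rw [Qj_pc hV P hP, mul_one, hS]

end Pool.Agent.Lib.MP_8d00da_gt.h28k
end

section

/-!
# Paper 344 (quadratic KLS with a universal constant): U.6: the step
-/

namespace Pool.Agent.Lib.MP_8d00da_gt.h42k.U

open MeasureTheory Set Filter
open scoped Topology NNReal ENNReal ContDiff

set_option linter.unusedSectionVars false
set_option linter.unusedVariables false

variable {ι : Type} [Fintype ι] [DecidableEq ι]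

variable {κ M : ℝ} {V : (ι → ℝ) → ℝ}

private theorem U6d_q0_t0 (B : Matrix ι ι ℝ) : T0 (q0 B) :=
  T0.sum _ fun i _ => T0.sum _ fun j _ => ((T0.const (B i j)).mul (T0.coord i)).mul (T0.coord j)

private theorem U6d_qf_t0 (W : (ι → ℝ) → ℝ) (B : Matrix ι ι ℝ) : T0 (qf W B) :=
  T0.sum _ fun i _ => T0.sum _ fun j _ => ((T0.const _).mul ((T0.coord i).sub
    (T0.const _))).mul ((T0.coord j).sub (T0.const _))

private theorem U6d_tq_t0 (H : Nice κ M V) (B G : Matrix ι ι ℝ) {t : ℝ} (ht : -κ < t) :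
    T0 (fun y => tq B (G + CM (pt V t y))) := by
  have h0 : ∀ i j, T0 (fun y => (G + CM (pt V t y)) i j) := fun i j => by
    have h1 : T0 (fun y => CM (pt V t y) i j) := (AL.cm V i j).t0 H ht
    exact (T0.const (G i j)).add h1
  have h2 : (fun y => tq B (G + CM (pt V t y))) = fun y => ∑ i, ∑ j, ∑ k, ∑ l,
      B i j * B k l * ((G + CM (pt V t y)) j k * (G + CM (pt V t y)) l i) := by
    funext y
    rw [tq_eq]
    refine Finset.sum_congr rfl fun i _ => Finset.sum_congr rfl fun j _ =>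
      Finset.sum_congr rfl fun k _ => Finset.sum_congr rfl fun l _ => ?_
    ring
  rw [h2]
  exact T0.sum _ fun i _ => T0.sum _ fun j _ => T0.sum _ fun k _ => T0.sum _ fun l _ =>
    ((h0 j k).mul (h0 l i)).cmul _

private theorem U6d_Ps_t0 (H : Nice κ M V) (B : Matrix ι ι ℝ) {t : ℝ} (ht : -κ < t) :
    T0 (fun y => Ps V B t y) := by
  refine T0.sum _ fun j _ => T0.sum _ fun k _ => ?_
  have h1 : T0 (fun y => mn (pt V t y) j) := EP_t0 H (T0.coord j) ht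
  have h2 : T0 (fun y => cov (pt V t y) (q0 B) (fun x => x k)) :=
    CP_t0 H (U6d_q0_t0 B) (T0.coord k) ht
  exact (h1.mul h2).cmul _

private theorem U6d_cle {τ σ M : ℝ} {V : (ι → ℝ) → ℝ} {α : ι → ℝ} (h : NF τ σ M V α) :
    CLe V σ := by
  intro θ
  rw [var_dt h.nice, h.cm]
  have h1 : ∑ i, ∑ j, θ i * θ j * Matrix.diagonal α i j = ∑ i, α i * θ i ^ 2 := by
    refine Finset.sum_congr rfl fun i _ => ?_
    rw [Finset.sum_eq_single i]
    · rw [Matrix.diagonal_apply_eq]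
      ring
    · intro j _ hj
      rw [Matrix.diagonal_apply_ne _ (Ne.symm hj), mul_zero]
    · intro hi
      exact absurd (Finset.mem_univ i) hi
  rw [h1]
  unfold sq
  rw [Finset.mul_sum]
  exact Finset.sum_le_sum fun i _ => mul_le_mul_of_nonneg_right (h.lt i).le (sq_nonneg _)

private theorem U6d_B1 {τ σ M : ℝ} {V : (ι → ℝ) → ℝ} {α : ι → ℝ} (h : NF τ σ M V α)
    (hσ : 2 ≤ σ) {B : Matrix ι ι ℝ} (hB : nB (sw σ α) B ≤ 1) : ∑ i, ∑ j, B i j ^ 2 ≤ 1 := by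
  refine le_trans ?_ hB
  refine Finset.sum_le_sum fun i _ => Finset.sum_le_sum fun j _ => ?_
  have h1 := (h.sw_facts hσ i).1
  have h2 := (h.sw_facts hσ j).1
  have h3 : 1 ≤ sw σ α i * sw σ α j := by nlinarith
  calc B i j ^ 2 = B i j ^ 2 * 1 := (mul_one _).symm
    _ ≤ B i j ^ 2 * (sw σ α i * sw σ α j) := mul_le_mul_of_nonneg_left h3 (sq_nonneg _)

/-- U.6, the step for potentials in normal form. -/
theorem step_nf (ι : Type) [Fintype ι] [DecidableEq ι] {τ₀ σ₁ K₁ : ℝ} (h0 : 0 < τ₀) :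
    ∃ C : ℝ, 0 ≤ C ∧ ∀ (τ σ M K K' t : ℝ) (V : (ι → ℝ) → ℝ) (α : ι → ℝ) (B : Matrix ι ι ℝ),
      τ₀ ≤ τ → 2 ≤ σ → σ ≤ σ₁ → 0 ≤ K → K ≤ K₁ → 0 ≤ K' → K' ≤ K₁ → QT ι τ K →
      QT ι (τ + t) K' → NF τ σ M V α → (∀ i j, B i j = B j i) → nB (sw σ α) B ≤ 1 → 0 < t →
      (1 - σ * t) * var V (q0 B) ≤
        K' * ((1 + 2 * (t / (τ * σ))) ^ 2 + 2 * σ * K * t) + 4 * σ * K * t + C * (t * √t) := by
  obtain ⟨C1, hC1, h1⟩ := step_i ι h0
  obtain ⟨C3, hC3, h3⟩ := step_iii ι (σ₁ := σ₁) (K₁ := K₁) h0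
  obtain ⟨C4, hC4, h4⟩ := step_iv ι (σ₁ := σ₁) (K₁ := K₁) h0
  refine ⟨C1 + |K₁| * C3 + C4, by positivity, ?_⟩
  intro τ σ M K K' t V α B hτ hσ hσ₁ hK hK₁ hK' hK'₁ hQ hQ' hN hB hB1 ht
  have H := hN.nice
  have hk := H.kpos
  have htκ : -τ < t := by linarith
  have a1 := h1 τ M σ V hτ H hN.mean (by linarith) (U6d_cle hN) B (U6d_B1 hN hσ hB1) t ht
  have a3 := h3 τ σ M K t V α B hτ hσ hσ₁ hK hK₁ hQ hN hB hB1 ht
  have a4 := h4 τ σ M K t V α B hτ hσ hσ₁ hK hK₁ hQ hN hB hB1 ht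
  set G : Matrix ι ι ℝ := Matrix.diagonal (fun i => (1 - α i / σ) + t / (τ * σ) * α i) with hG
  have tv : T0 (fun y => var (pt V t y) (q0 B)) := CP_t0 H (U6d_q0_t0 B) (U6d_q0_t0 B) htκ
  have tt := U6d_tq_t0 H B G htκ
  have tp := U6d_Ps_t0 H B htκ
  have hpt : ∀ y, var (pt V t y) (q0 B) ≤
      K' * tq B (G + CM (pt V t y)) + 4 * Ps V B t y := fun y => by
    have b1 := var_le_Ps H hB ht.le y
    have b2 := hN.quad_t hσ ht hK' hQ' hB y
    linarith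
  have a2 := GE_mono H tv ((tt.cmul K').add (tp.cmul 4)) t hpt
  rw [GE_add H (tt.cmul K') (tp.cmul 4), GE_cmul, GE_cmul] at a2
  have hs : 0 ≤ t * √t := by positivity
  have a5 := mul_le_mul_of_nonneg_left a3 hK'
  have a6 : K' * (C3 * (t * √t)) ≤ |K₁| * (C3 * (t * √t)) :=
    mul_le_mul_of_nonneg_right (hK'₁.trans (le_abs_self _)) (by positivity)
  calc (1 - σ * t) * var V (q0 B)
      ≤ GE V t (fun y => var (pt V t y) (q0 B)) + C1 * (t * √t) := a1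
    _ ≤ (K' * GE V t (fun y => tq B (G + CM (pt V t y))) + 4 * GE V t (fun y => Ps V B t y)) +
        C1 * (t * √t) := by linarith
    _ ≤ _ := by linarith

/-- U.6, the step. -/
theorem qt_step (ι : Type) [Fintype ι] [DecidableEq ι] {τ₀ σ₁ K₁ : ℝ} (h0 : 0 < τ₀) :
    ∃ C : ℝ, 0 ≤ C ∧ ∀ (τ σ K K' t : ℝ),
      τ₀ ≤ τ → 2 ≤ σ → σ ≤ σ₁ → 0 ≤ K → K ≤ K₁ → 0 ≤ K' → K' ≤ K₁ → QT ι τ K →
      QT ι (τ + t) K' → 0 < t → σ * t < 1 →
      QT ι τ ((K' * ((1 + 2 * (t / (τ * σ))) ^ 2 + 2 * σ * K * t) + 4 * σ * K * t +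
        C * (t * √t)) / (1 - σ * t)) := by
  obtain ⟨C, hC, h⟩ := step_nf ι (σ₁ := σ₁) (K₁ := K₁) h0
  refine ⟨C, hC, ?_⟩
  intro τ σ K K' t hτ hσ hσ₁ hK hK₁ hK' hK'₁ hQ hQ' ht hst
  have hd : 0 < 1 - σ * t := by linarith
  have hσ0 : 0 ≤ σ := by linarith
  refine qt_of_nf hσ ?_ ?_
  · refine div_nonneg ?_ hd.le
    have e1 : 0 ≤ K' * ((1 + 2 * (t / (τ * σ))) ^ 2 + 2 * σ * K * t) := by positivity
    have e2 : 0 ≤ 4 * σ * K * t := by positivity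
    have e3 : 0 ≤ C * (t * √t) := by positivity
    linarith
  · intro M V α hN B hB hB1
    rw [le_div_iff₀ hd, mul_comm]
    exact h τ σ M K K' t V α B hτ hσ hσ₁ hK hK₁ hK' hK'₁ hQ hQ' hN hB hB1 ht

end Pool.Agent.Lib.MP_8d00da_gt.h42k.U
end

section

/-!
# Paper 344 (quadratic KLS with a universal constant): U.7: the optimal constant
-/

namespace Pool.Agent.Lib.MP_8d00da_gt.h42k.U

open MeasureTheory Set Filter
open scoped Topology NNReal ENNReal ContDiff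

set_option linter.unusedSectionVars false
set_option linter.unusedVariables false

variable {ι : Type} [Fintype ι] [DecidableEq ι]

/-- The optimal constant `q_τ`. -/
noncomputable def qc (ι : Type) [Fintype ι] [DecidableEq ι] (τ : ℝ) : ℝ :=
  sInf {C : ℝ | 0 ≤ C ∧ QT ι τ C}

variable {ι : Type} [Fintype ι] [DecidableEq ι]

theorem qc_nonneg {τ : ℝ} (hτ : 0 < τ) : 0 ≤ qc ι τ :=
  Real.sInf_nonneg fun _ hC => hC.1

theorem U8a_isClosed (τ : ℝ) : IsClosed {C : ℝ | 0 ≤ C ∧ QT ι τ C} := by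
  have e : {C : ℝ | 0 ≤ C ∧ QT ι τ C} = Set.Ici 0 ∩ ⋂ (M : ℝ), ⋂ (V : (ι → ℝ) → ℝ),
      ⋂ (_ : Nice τ M V), ⋂ (B : Matrix ι ι ℝ), ⋂ (_ : ∀ i j, B i j = B j i),
      {C : ℝ | var V (qf V B) ≤ C * tq B (1 + CM V)} := by
    ext C
    simp only [QT, Set.mem_setOf_eq, Set.mem_inter_iff, Set.mem_Ici, Set.mem_iInter]
  rw [e]
  refine isClosed_Ici.inter (isClosed_iInter fun M => isClosed_iInter fun V =>
    isClosed_iInter fun _ => isClosed_iInter fun B => isClosed_iInter fun _ => ?_)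
  exact isClosed_le continuous_const (continuous_id.mul continuous_const)

theorem U8a_bdd (τ : ℝ) : BddBelow {C : ℝ | 0 ≤ C ∧ QT ι τ C} := ⟨0, fun _ h => h.1⟩

/-- The infimum is attained. -/
theorem qt_qc {τ : ℝ} (hτ : 0 < τ) : QT ι τ (qc ι τ) :=
  ((U8a_isClosed (ι := ι) τ).csInf_mem
    ⟨4 / √τ, div_nonneg (by norm_num) (Real.sqrt_nonneg _), qt_apriori hτ⟩ (U8a_bdd τ)).2

theorem qc_le {τ C : ℝ} (hC : 0 ≤ C) (h : QT ι τ C) : qc ι τ ≤ C :=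
  csInf_le (U8a_bdd τ) ⟨hC, h⟩

theorem qc_anti {τ τ' : ℝ} (hτ : 0 < τ) (hle : τ ≤ τ') : qc ι τ' ≤ qc ι τ := by
  refine qc_le (qc_nonneg hτ) fun M V hV B hB => qt_qc hτ M V ⟨hτ, hV.c2, fun x u => ?_, hV.hi⟩ B hB
  exact (mul_le_mul_of_nonneg_right hle (Finset.sum_nonneg fun i _ => sq_nonneg (u i))).trans
    (hV.lo x u)

theorem qc_apriori {τ : ℝ} (hτ : 0 < τ) : qc ι τ ≤ 4 / √τ :=
  qc_le (div_nonneg (by norm_num) (Real.sqrt_nonneg _)) (qt_apriori hτ)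

/-- The hypothesis of `iter_real` for `k τ = max 1 (qc ι τ)`. -/
theorem qc_step {τ₀ τ₁ : ℝ} (h0 : 0 < τ₀) (h1 : τ₁ ≤ 1 / 256) (σ₁ : ℝ) :
    ∃ C : ℝ, 0 ≤ C ∧ ∀ τ σ t : ℝ, τ₀ ≤ τ → 2 ≤ σ → σ ≤ σ₁ → 0 < t →
      τ + t ≤ τ₁ → max 1 (qc ι τ) * (1 - σ * t) ≤
        max 1 (qc ι (τ + t)) * ((1 + 2 * (t / (τ * σ))) ^ 2 + 2 * σ * max 1 (qc ι τ) * t) +
          4 * σ * max 1 (qc ι τ) * t + C * (t * √t) := by
  obtain ⟨C, hC, H⟩ := qt_step ι (τ₀ := τ₀) (σ₁ := σ₁) (K₁ := 4 / √τ₀) h0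
  refine ⟨C, hC, fun τ σ t hτ hσ hσ₁ ht htt => ?_⟩
  have hτp : 0 < τ := h0.trans_le hτ
  have hσp : 0 < σ := by linarith
  have hE : 0 ≤ C * (t * √t) := mul_nonneg hC (mul_nonneg ht.le (Real.sqrt_nonneg _))
  have h1K : 1 ≤ max 1 (qc ι τ) := le_max_left _ _
  have h1K' : 1 ≤ max 1 (qc ι (τ + t)) := le_max_left _ _
  have hq : 0 ≤ t / (τ * σ) := by positivity
  have hsq : 1 ≤ (1 + 2 * (t / (τ * σ))) ^ 2 := by nlinarith
  have hK0 : 0 ≤ 2 * σ * max 1 (qc ι τ) * t := by positivity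
  have hP : 1 ≤ (1 + 2 * (t / (τ * σ))) ^ 2 + 2 * σ * max 1 (qc ι τ) * t := by linarith
  have hR : 1 ≤ max 1 (qc ι (τ + t)) *
      ((1 + 2 * (t / (τ * σ))) ^ 2 + 2 * σ * max 1 (qc ι τ) * t) := by
    nlinarith [mul_nonneg (sub_nonneg.2 h1K') (sub_nonneg.2 hP)]
  have hst : 0 < σ * t := mul_pos hσp ht
  by_cases h1 : qc ι τ ≤ 1
  · rw [max_eq_left h1] at hR hK0 ⊢
    nlinarith
  · push Not at h1
    rw [max_eq_right h1.le] at h1K hK0 hP hR ⊢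
    by_cases h2 : σ * t < 1
    · have hKle : qc ι τ ≤ 4 / √τ₀ := (qc_anti h0 hτ).trans (qc_apriori h0)
      have hK'le : qc ι (τ + t) ≤ 4 / √τ₀ :=
        (qc_anti hτp (by linarith)).trans hKle
      have hK'0 : 0 ≤ qc ι (τ + t) := qc_nonneg (by linarith)
      have h3 := H τ σ (qc ι τ) (qc ι (τ + t)) t hτ hσ hσ₁ (qc_nonneg hτp) hKle hK'0 hK'le
        (qt_qc hτp) (qt_qc (by linarith)) ht h2
      have h1s : 0 < 1 - σ * t := by linarith
      have hN : 0 ≤ qc ι (τ + t) * ((1 + 2 * (t / (τ * σ))) ^ 2 + 2 * σ * qc ι τ * t) +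
          4 * σ * qc ι τ * t + C * (t * √t) := by
        have := mul_nonneg hK'0 (zero_le_one.trans hP)
        linarith
      have h4 := qc_le (div_nonneg hN h1s.le) h3
      rw [le_div_iff₀ h1s] at h4
      have h5 := mul_le_mul_of_nonneg_right (le_max_right 1 (qc ι (τ + t)))
        (zero_le_one.trans hP)
      linarith
    · push Not at h2
      have h6 : qc ι τ * (1 - σ * t) ≤ 0 :=
        mul_nonpos_of_nonneg_of_nonpos (by linarith) (by linarith)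
      linarith

end Pool.Agent.Lib.MP_8d00da_gt.h42k.U
end

section

/-!
# Paper 344 (quadratic KLS with a universal constant): Theorem U
-/

namespace Pool.Agent.Lib.MP_8d00da_gt.h42k.U

open MeasureTheory Set Filter
open scoped Topology NNReal ENNReal ContDiff

set_option linter.unusedSectionVars false
set_option linter.unusedVariables false

variable {ι : Type} [Fintype ι] [DecidableEq ι]

/-- `q_τ ≤ 176²` for all `τ > 0`. -/
theorem qt_univ {τ : ℝ} (hτ : 0 < τ) : QT ι τ 30976 := by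
  obtain ⟨τ₁, hτ₁⟩ : ∃ t : ℝ, t = 1 / 3748096 := ⟨_, rfl⟩
  have hτ₁p : 0 < τ₁ := by rw [hτ₁]; norm_num
  have hs1 : √τ₁ = 1 / 1936 := by
    rw [hτ₁, show (1 / 3748096 : ℝ) = (1 / 1936) ^ 2 by norm_num]
    exact Real.sqrt_sq (by norm_num)
  rcases le_or_gt τ₁ τ with h | h
  · refine (qt_apriori hτ).mono_right ?_
    have hs : 1 / 1936 ≤ √τ := hs1 ▸ Real.sqrt_le_sqrt h
    rw [div_le_iff₀ (Real.sqrt_pos.2 hτ)]
    nlinarith
  · have hk : ∀ t : ℝ, 0 < t → t ≤ τ₁ → max 1 (qc ι t) ≤ 4 / √t := by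
      intro t ht htt
      refine max_le ?_ (qc_apriori ht)
      have hst : √t ≤ 1 / 1936 := hs1 ▸ Real.sqrt_le_sqrt htt
      rw [le_div_iff₀ (Real.sqrt_pos.2 ht)]
      linarith
    have hmain := iter_real (k := fun t => max 1 (qc ι t)) (τ₀ := τ) (τ₁ := τ₁) hτ h
      (by rw [hτ₁]; norm_num) (fun t _ => le_max_left _ _)
      (fun a ha b _ hab => max_le_max le_rfl (qc_anti (hτ.trans_le ha.1) hab))
      (fun t ht => hk t (hτ.trans_le ht.1) ht.2)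
      (fun σ₁ => qc_step hτ (by rw [hτ₁]; norm_num) σ₁)
    have hb : max 1 (qc ι τ₁) ≤ 7744 := by
      refine (hk τ₁ hτ₁p le_rfl).trans ?_
      rw [hs1]
      norm_num
    have hb1 : (1 : ℝ) ≤ max 1 (qc ι τ₁) := le_max_left _ _
    have hsb : √(max 1 (qc ι τ₁)) ≤ 88 := by
      rw [show (88 : ℝ) = √7744 by
        rw [show (7744 : ℝ) = 88 ^ 2 by norm_num]
        exact (Real.sqrt_sq (by norm_num)).symm]
      exact Real.sqrt_le_sqrt hb
    have hsp : 0 < √(max 1 (qc ι τ₁)) := Real.sqrt_pos.2 (by linarith)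
    have h88 : (1 : ℝ) / 88 ≤ 1 / √(max 1 (qc ι τ₁)) := one_div_le_one_div_of_le hsp hsb
    have hc1 : (1 : ℝ) ≤ max 1 (qc ι τ) := le_max_left _ _
    have hcp : 0 < √(max 1 (qc ι τ)) := Real.sqrt_pos.2 (by linarith)
    have h176 : (1 : ℝ) / 176 ≤ 1 / √(max 1 (qc ι τ)) := by
      have hm : 1 / √(max 1 (qc ι τ₁)) ≤ 1 / √(max 1 (qc ι τ)) + 11 * √τ₁ := hmain
      rw [hs1] at hm
      linarith
    have hle : √(max 1 (qc ι τ)) ≤ 176 := by
      rw [div_le_div_iff₀ (by norm_num) hcp] at h176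
      linarith
    have hq : max 1 (qc ι τ) ≤ 30976 := by
      have hsq : √(max 1 (qc ι τ)) ^ 2 = max 1 (qc ι τ) := Real.sq_sqrt (by linarith)
      nlinarith
    exact (qt_qc hτ).mono_right ((le_max_right _ _).trans hq)

/-- THEOREM U: the quadratic KLS inequality with a universal constant. -/
theorem qkp_univ (ι : Type) [Fintype ι] [DecidableEq ι] : QKP 123904 ι := by
  have h := qkp_of_qt (ι := ι) (C := 30976) (by norm_num) fun τ hτ => qt_univ hτ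
  norm_num at h
  exact h

end Pool.Agent.Lib.MP_8d00da_gt.h42k.U
end

section

/-!
# The flow for polynomials (full KLS, part gamma): the step in normal form
-/

namespace Pool.Agent.Lib.MP_8d00da_gt.h42k.G

open MeasureTheory Set Filter
open scoped Topology NNReal ENNReal ContDiff
open Pool.Agent.Lib.MP_8d00da_gt.h42k.U (NF sw QT)

set_option linter.unusedSectionVars false
set_option linter.unusedVariables false

variable {ι : Type} [Fintype ι] [DecidableEq ι]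

variable {κ M : ℝ} {V : (ι → ℝ) → ℝ}

private theorem GP8d_KU0 : (0 : ℝ) ≤ KU := by unfold KU; norm_num

/-- The metric at time `t`. -/
private noncomputable def GP8d_S (τ σ t : ℝ) (α : ι → ℝ) (i : ι) : ℝ :=
  sw σ α i + t / (τ * σ) * α i

private theorem GP8d_GA {τ σ t : ℝ} {α : ι → ℝ} (h : NF τ σ M V α) :
    Matrix.diagonal (fun i => (1 - α i / σ) + t / (τ * σ) * α i) + CM V =
      Matrix.diagonal (GP8d_S τ σ t α) := by
  rw [h.cm, Matrix.diagonal_add]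
  congr 1
  funext i
  unfold GP8d_S sw
  ring

private theorem GP8d_sw1 {σ : ℝ} {α : ι → ℝ} (hσ : 2 ≤ σ) (hα : ∀ i, 0 ≤ α i) (i : ι) :
    1 ≤ sw σ α i := by
  unfold sw
  have h1 : 0 ≤ 1 - 1 / σ := by
    have : 1 / σ ≤ 1 := by
      rw [div_le_one (by linarith)]
      linarith
    linarith
  have := mul_nonneg h1 (hα i)
  linarith

private theorem GP8d_S_le {τ σ t : ℝ} {α : ι → ℝ} (hτ : 0 < τ) (ht : 0 < t) (hσ : 2 ≤ σ)
    (hα : ∀ i, 0 ≤ α i) (i : ι) :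
    sw σ α i ≤ GP8d_S τ σ t α i ∧
      GP8d_S τ σ t α i ≤ (1 + 2 * (t / (τ * σ))) * sw σ α i := by
  have hσ0 : 0 < σ := by linarith
  have hq : 0 ≤ t / (τ * σ) := by positivity
  have h1 : 0 ≤ t / (τ * σ) * α i := mul_nonneg hq (hα i)
  unfold GP8d_S
  refine ⟨by linarith, ?_⟩
  have h2 : α i ≤ 2 * sw σ α i := by
    unfold sw
    have : 1 / σ ≤ 1 / 2 := one_div_le_one_div_of_le two_pos hσ
    have h3 : (1 : ℝ) / 2 * α i ≤ (1 - 1 / σ) * α i :=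
      mul_le_mul_of_nonneg_right (by linarith) (hα i)
    linarith
  have h3 := mul_le_mul_of_nonneg_left h2 hq
  nlinarith [h3]

private theorem GP8d_growth (H : Nice κ M V) {b j : ℕ} {τ σ t θ C : ℝ} {α : ι → ℝ} {w : ℕ → ℝ}
    (hτ : 0 < τ) (hσ : 2 ≤ σ) (ht : 0 < t) (hθ : θ = 2 * σ * KU)
    (hN : NF τ σ M V α) (hH : H3 V (sw σ α) θ) (hw : PTw ι b τ w)
    {p : MvPolynomial ι ℝ} (hp : p.totalDegree ≤ b)
    (hg : GE V t (fun y => Qj (pt V t y)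
      (Matrix.diagonal (fun i => (1 - α i / σ) + t / (τ * σ) * α i) + CM (pt V t y)) j p p) ≤
      Qj V (Matrix.diagonal (fun i => (1 - α i / σ) + t / (τ * σ) * α i) + CM V) j p p +
        t * gQ V (Matrix.diagonal (fun i => (1 - α i / σ) + t / (τ * σ) * α i) + CM V) j p p +
        C * t ^ 2) :
    GE V t (fun y => Qj (pt V t y)
      (Matrix.diagonal (fun i => (1 - α i / σ) + t / (τ * σ) * α i) + CM (pt V t y)) j p p) ≤
      (1 + 2 * (t / (τ * σ))) ^ j *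
        ((1 + t * (3 / 2 * (j : ℝ) ^ 2 * (2 * σ * KU))) *
          Qj V (Matrix.diagonal (sw σ α)) j p p +
        2 * σ * t * ∑ i ∈ Finset.Icc 1 b, w i *
          Qj V (Matrix.diagonal (sw σ α)) (i + j) p p) + C * t ^ 2 := by
  have hσ0 : 0 < σ := by linarith
  have hS1 : ∀ i, 1 ≤ sw σ α i := GP8d_sw1 hσ hN.nn
  have hS0 : ∀ i, 0 < sw σ α i := fun i => lt_of_lt_of_le one_pos (hS1 i)
  have hle : ∀ i, sw σ α i ≤ GP8d_S τ σ t α i := fun i => (GP8d_S_le hτ ht hσ hN.nn i).1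
  have hle2 : ∀ i, GP8d_S τ σ t α i ≤ (1 + 2 * (t / (τ * σ))) * sw σ α i :=
    fun i => (GP8d_S_le hτ ht hσ hN.nn i).2
  have hS'0 : ∀ i, 0 < GP8d_S τ σ t α i := fun i => (hS0 i).trans_le (hle i)
  have ha0 : 0 ≤ 1 + 2 * (t / (τ * σ)) := by positivity
  have hθ0 : 0 ≤ θ := by
    rw [hθ]
    have := GP8d_KU0
    positivity
  have hH' : H3 V (GP8d_S τ σ t α) θ := H3.mono_S hS0 hθ0 hle hH
  rw [GP8d_GA hN] at hg
  have h1 := gQ_le' H hS'0 hθ0 hN.cm hH' j p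
  have h2 : Qj V (Matrix.diagonal (GP8d_S τ σ t α)) j p p ≤
      (1 + 2 * (t / (τ * σ))) ^ j * Qj V (Matrix.diagonal (sw σ α)) j p p := by
    refine (Qj_diag_mono (fun i => (hS'0 i).le) hle2 j p).trans (le_of_eq ?_)
    exact Qj_diag_smul _ _ _ _
  have h3 : Wj V (GP8d_S τ σ t α) j p ≤ (1 + 2 * (t / (τ * σ))) ^ j * (σ *
      ∑ i ∈ Finset.Icc 1 b, w i * Qj V (Matrix.diagonal (sw σ α)) (i + j) p p) := by
    refine (Wj_mono_smul (fun i => (hS'0 i).le) ha0 hle2 j p).trans ?_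
    refine mul_le_mul_of_nonneg_left ?_ (pow_nonneg ha0 j)
    refine (Wj_le hN (fun i => (hS0 i).le) j p).trans ?_
    exact mul_le_mul_of_nonneg_left (Vj_le hw hσ hN j hp) hσ0.le
  have h4 : (0 : ℝ) ≤ 1 + t * (3 / 2 * (j : ℝ) ^ 2 * θ) := by positivity
  have h5 := mul_le_mul_of_nonneg_left h1 ht.le
  have h6 := mul_le_mul_of_nonneg_left h2 h4
  have h7 := mul_le_mul_of_nonneg_left h3 (by positivity : (0 : ℝ) ≤ 2 * t)
  rw [← hθ]
  refine hg.trans ?_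
  have e1 : Qj V (Matrix.diagonal (GP8d_S τ σ t α)) j p p +
      t * (3 / 2 * (j : ℝ) ^ 2 * θ * Qj V (Matrix.diagonal (GP8d_S τ σ t α)) j p p +
        2 * Wj V (GP8d_S τ σ t α) j p) =
      (1 + t * (3 / 2 * (j : ℝ) ^ 2 * θ)) * Qj V (Matrix.diagonal (GP8d_S τ σ t α)) j p p +
      2 * t * Wj V (GP8d_S τ σ t α) j p := by ring
  have e2 : (1 + 2 * (t / (τ * σ))) ^ j *
        ((1 + t * (3 / 2 * (j : ℝ) ^ 2 * θ)) *
          Qj V (Matrix.diagonal (sw σ α)) j p p +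
        2 * σ * t * ∑ i ∈ Finset.Icc 1 b, w i *
          Qj V (Matrix.diagonal (sw σ α)) (i + j) p p) =
      (1 + t * (3 / 2 * (j : ℝ) ^ 2 * θ)) *
        ((1 + 2 * (t / (τ * σ))) ^ j * Qj V (Matrix.diagonal (sw σ α)) j p p) +
      2 * t * ((1 + 2 * (t / (τ * σ))) ^ j * (σ *
      ∑ i ∈ Finset.Icc 1 b, w i * Qj V (Matrix.diagonal (sw σ α)) (i + j) p p)) := by ring
  rw [e2]
  linarith [e1, h5, h6, h7]

/-- The step in normal form for normalised polynomials; `θ = 2σK`, `K = KU`.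
With `G + A = diag S'`, `S'_i = S_i + (t/(τσ)) α_i ≤ (1 + 2t/(τσ)) S_i`: `H3 V S' θ` (`H3.mono_S`),
`gQ_le'` for `S'`, `N_j^{S'} ≤ (1+2t/(τσ))^j N_j^S`, `Wj_mono_smul`, `Wj_le`, `Vj_le`, `var_loss`,
`Qj_growth`, `PTw.time_t`, `coef_bound` (`S_i ≥ 1`). -/
theorem step_norm (ι : Type) [Fintype ι] [DecidableEq ι] (b : ℕ) {τ₀ σ₁ W : ℝ} (h0 : 0 < τ₀)
    (hQ : ∀ τ : ℝ, 0 < τ → QT ι τ KU) :
    ∃ C : ℝ, 0 ≤ C ∧ ∀ (τ σ M t : ℝ) (V : (ι → ℝ) → ℝ) (α : ι → ℝ) (w w' : ℕ → ℝ)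
      (p : MvPolynomial ι ℝ), τ₀ ≤ τ → τ ≤ 1 → 2 ≤ σ → σ ≤ σ₁ → NF τ σ M V α →
      (∀ j, 0 ≤ w j ∧ w j ≤ W) → (∀ j, 0 ≤ w' j ∧ w' j ≤ W) → PTw ι b τ w →
      PTw ι b (τ + t) w' → p.totalDegree ≤ b → 0 < t → t ≤ τ →
      ex V (ev p) = 0 → ∑ j ∈ Finset.Icc 1 b, Qj V (Matrix.diagonal (sw σ α)) j p p ≤ 1 →
      (1 - σ * t) * var V (ev p) ≤ (∑ j ∈ Finset.Icc 1 b,
        w' j * (1 + 2 * (t / (τ * σ))) ^ j *
        ((1 + t * (3 / 2 * (j : ℝ) ^ 2 * (2 * σ * KU))) *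
          Qj V (Matrix.diagonal (sw σ α)) j p p +
        2 * σ * t * ∑ i ∈ Finset.Icc 1 b, w i *
          Qj V (Matrix.diagonal (sw σ α)) (i + j) p p)) + C * t ^ 2 := by
  obtain ⟨c, hc0, hc⟩ := coef_bound ι b h0
  obtain ⟨C1, hC10, hC1⟩ := var_loss ι b (c := c) h0
  have hex : ∀ j : ℕ, ∃ C : ℝ, 0 ≤ C ∧ ∀ (κ M t : ℝ) (V : (ι → ℝ) → ℝ) (G : Matrix ι ι ℝ)
      (p : MvPolynomial ι ℝ), τ₀ ≤ κ → Nice κ M V → (∀ i, mn V i = 0) →
      (∀ i k, |G i k| ≤ 2) → p.totalDegree ≤ b → (∀ γ, |p.coeff γ| ≤ c) → 0 < t →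
      GE V t (fun y => Qj (pt V t y) (G + CM (pt V t y)) j p p) ≤
        Qj V (G + CM V) j p p + t * gQ V (G + CM V) j p p + C * t ^ 2 :=
    fun j => Qj_growth ι b j h0
  choose C2 hC20 hC2 using hex
  have hsum0 : 0 ≤ ∑ j ∈ Finset.Icc 1 b, C2 j := Finset.sum_nonneg fun j _ => hC20 j
  refine ⟨C1 + |W| * ∑ j ∈ Finset.Icc 1 b, C2 j, by positivity, ?_⟩
  intro τ σ M t V α w w' p hτ₀ hτ1 hσ hσ₁ hN hw hw' hP hP' hp ht htτ hE hn
  have H : Nice τ M V := hN.nice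
  have hτ : 0 < τ := h0.trans_le hτ₀
  have hσ0 : 0 < σ := by linarith
  have hS1 : ∀ i, 1 ≤ sw σ α i := GP8d_sw1 hσ hN.nn
  have hS0 : ∀ i, 0 < sw σ α i := fun i => lt_of_lt_of_le one_pos (hS1 i)
  have htκ : -τ < t := by linarith
  have hco : ∀ γ, |p.coeff γ| ≤ c := by
    refine hc τ M V hτ₀ H hN.mean p hp hE (le_trans ?_ hn)
    refine Finset.sum_le_sum fun j _ => ?_
    have := Qj_diag_mono (V := V) (S := fun _ => 1) (fun _ => zero_le_one) hS1 j p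
    rwa [Matrix.diagonal_one] at this
  have h1 := hC1 τ M t V p hτ₀ H hN.mean hp hco ht
  have h2 := cov_vec_le0 hN (ev_T0 p)
  have hH : H3 V (sw σ α) (2 * σ * KU) := nf_H3 hN hσ (hQ τ hτ) GP8d_KU0
  have hg : ∀ i k, |Matrix.diagonal (fun i => (1 - α i / σ) + t / (τ * σ) * α i) i k| ≤ 2 := by
    intro i k
    by_cases hik : i = k
    · subst hik
      rw [Matrix.diagonal_apply_eq]
      have a1 : 0 ≤ α i / σ := div_nonneg (hN.nn i) hσ0.le
      have a2 : α i / σ ≤ 1 := by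
        rw [div_le_one hσ0]
        exact (hN.lt i).le
      have a3 : t / (τ * σ) * α i = t / τ * (α i / σ) := by
        field_simp
      have a4 : 0 ≤ t / τ := by positivity
      have a5 : t / τ ≤ 1 := by rwa [div_le_one hτ]
      have a6 : t / τ * (α i / σ) ≤ 1 := mul_le_one₀ a5 a1 a2
      have a7 : 0 ≤ t / τ * (α i / σ) := mul_nonneg a4 a1
      rw [a3, abs_le]
      constructor <;> linarith
    · rw [Matrix.diagonal_apply_ne _ hik]
      norm_num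
  -- the right-hand side
  have htT : ∀ j, T0 (fun y => Qj (pt V t y)
      (Matrix.diagonal (fun i => (1 - α i / σ) + t / (τ * σ) * α i) + CM (pt V t y)) j p p) :=
    fun j => AL.t0 H (Qj_AL V _ j p p) htκ
  have tv : T0 (fun y => var (pt V t y) (ev p)) := CP_t0 H (ev_T0 p) (ev_T0 p) htκ
  have h3 : GE V t (fun y => var (pt V t y) (ev p)) ≤ ∑ j ∈ Finset.Icc 1 b, w' j *
      GE V t (fun y => Qj (pt V t y)
        (Matrix.diagonal (fun i => (1 - α i / σ) + t / (τ * σ) * α i) + CM (pt V t y)) j p p) := by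
    have e1 := GE_mono H tv (T0.sum (Finset.Icc 1 b) (F := fun j y => w' j * Qj (pt V t y)
      (Matrix.diagonal (fun i => (1 - α i / σ) + t / (τ * σ) * α i) + CM (pt V t y)) j p p)
      fun j _ => (htT j).cmul (w' j)) t
      (fun y => PTw.time_t hP' (fun j => (hw' j).1) hσ ht hN hp y)
    refine e1.trans (le_of_eq ?_)
    rw [GE_sum H (Finset.Icc 1 b) (F := fun j y => w' j * Qj (pt V t y)
      (Matrix.diagonal (fun i => (1 - α i / σ) + t / (τ * σ) * α i) + CM (pt V t y)) j p p)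
      fun j _ => (htT j).cmul (w' j)]
    exact Finset.sum_congr rfl fun j _ => GE_cmul V t _ _
  have h4 : ∀ j ∈ Finset.Icc 1 b, w' j * GE V t (fun y => Qj (pt V t y)
        (Matrix.diagonal (fun i => (1 - α i / σ) + t / (τ * σ) * α i) + CM (pt V t y)) j p p) ≤
      w' j * (1 + 2 * (t / (τ * σ))) ^ j *
        ((1 + t * (3 / 2 * (j : ℝ) ^ 2 * (2 * σ * KU))) *
          Qj V (Matrix.diagonal (sw σ α)) j p p +
        2 * σ * t * ∑ i ∈ Finset.Icc 1 b, w i *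
          Qj V (Matrix.diagonal (sw σ α)) (i + j) p p) + |W| * C2 j * t ^ 2 := by
    intro j _
    have e1 := GP8d_growth H (j := j) hτ hσ ht rfl hN hH hP hp
      (hC2 j τ M t V _ p hτ₀ H hN.mean hg hp hco ht)
    have e2 := mul_le_mul_of_nonneg_left e1 (hw' j).1
    have e3 : w' j * (C2 j * t ^ 2) ≤ |W| * (C2 j * t ^ 2) :=
      mul_le_mul_of_nonneg_right ((hw' j).2.trans (le_abs_self W))
        (mul_nonneg (hC20 j) (sq_nonneg t))
    linarith [e2, e3]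
  have h5 := Finset.sum_le_sum h4
  rw [Finset.sum_add_distrib] at h5
  have e5 : ∑ j ∈ Finset.Icc 1 b, |W| * C2 j * t ^ 2 =
      |W| * (∑ j ∈ Finset.Icc 1 b, C2 j) * t ^ 2 := by
    rw [Finset.mul_sum, Finset.sum_mul]
  rw [e5] at h5
  have h6 := mul_le_mul_of_nonneg_left h2 ht.le
  linarith [h1, h3, h5, h6]

private theorem GP8d_deg {b : ℕ} {p : MvPolynomial ι ℝ} (hp : p.totalDegree ≤ b) (a c : ℝ) :
    (a • (p + MvPolynomial.C c)).totalDegree ≤ b := by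
  refine (MvPolynomial.totalDegree_smul_le a _).trans ?_
  refine (MvPolynomial.totalDegree_add _ _).trans ?_
  rw [MvPolynomial.totalDegree_C]
  exact max_le hp (Nat.zero_le b)

private theorem GP8d_ev (p : MvPolynomial ι ℝ) (a c : ℝ) :
    ev (a • (p + MvPolynomial.C c)) = fun x => a * (ev p x + c) := by
  rw [ev_smul, ev_add]
  funext x
  simp [ev]

/-- The step in normal form for all polynomials of degree at most `b`. -/
theorem step_nf (ι : Type) [Fintype ι] [DecidableEq ι] (b : ℕ) {τ₀ σ₁ W : ℝ} (h0 : 0 < τ₀)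
    (hQ : ∀ τ : ℝ, 0 < τ → QT ι τ KU) :
    ∃ C : ℝ, 0 ≤ C ∧ ∀ (τ σ M t : ℝ) (V : (ι → ℝ) → ℝ) (α : ι → ℝ) (w w' : ℕ → ℝ)
      (p : MvPolynomial ι ℝ), τ₀ ≤ τ → τ ≤ 1 → 2 ≤ σ → σ ≤ σ₁ → NF τ σ M V α →
      (∀ j, 0 ≤ w j ∧ w j ≤ W) → (∀ j, 0 ≤ w' j ∧ w' j ≤ W) → PTw ι b τ w →
      PTw ι b (τ + t) w' → p.totalDegree ≤ b → 0 < t → t ≤ τ →
      (1 - σ * t) * var V (ev p) ≤ ∑ j ∈ Finset.Icc 1 b,
        (w' j * (1 + 2 * (t / (τ * σ))) ^ j *
        ((1 + t * (3 / 2 * (j : ℝ) ^ 2 * (2 * σ * KU))) *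
          Qj V (Matrix.diagonal (sw σ α)) j p p +
        2 * σ * t * ∑ i ∈ Finset.Icc 1 b, w i *
          Qj V (Matrix.diagonal (sw σ α)) (i + j) p p) +
        C * t ^ 2 * Qj V (Matrix.diagonal (sw σ α)) j p p) := by
  obtain ⟨C, hC0, hC⟩ := step_norm ι b (σ₁ := σ₁) (W := W) h0 hQ
  refine ⟨C, hC0, ?_⟩
  intro τ σ M t V α w w' p hτ₀ hτ1 hσ hσ₁ hN hw hw' hP hP' hp ht htτ
  have H : Nice τ M V := hN.nice
  have hτ : 0 < τ := h0.trans_le hτ₀
  have hσ0 : 0 < σ := by linarith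
  have hS1 : ∀ i, 1 ≤ sw σ α i := GP8d_sw1 hσ hN.nn
  have hS0 : ∀ i, 0 ≤ sw σ α i := fun i => zero_le_one.trans (hS1 i)
  have hNj : ∀ j, 0 ≤ Qj V (Matrix.diagonal (sw σ α)) j p p := fun j => Qj_diag_nonneg hS0 j p
  obtain ⟨Q, hQd⟩ : ∃ Q, Q = ∑ j ∈ Finset.Icc 1 b, Qj V (Matrix.diagonal (sw σ α)) j p p :=
    ⟨_, rfl⟩
  have hQ0 : 0 ≤ Q := by
    rw [hQd]
    exact Finset.sum_nonneg fun j _ => hNj j
  rcases hQ0.eq_or_lt with hz | hpos
  · -- all `N_j` vanish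
    have hz' : ∑ j ∈ Finset.Icc 1 b, Qj V (Matrix.diagonal (sw σ α)) j p p = 0 := by
      rw [← hQd, ← hz]
    have hall := (Finset.sum_eq_zero_iff_of_nonneg fun j _ => hNj j).1 hz'
    have hv : var V (ev p) ≤ 0 := by
      refine (PTw.nf hP hσ hN hp).trans (le_of_eq ?_)
      exact Finset.sum_eq_zero fun j hj => by rw [hall j hj, mul_zero]
    have hv0 : var V (ev p) = 0 := le_antisymm hv (var_nonneg H (ev_T0 p))
    rw [hv0, mul_zero]
    refine Finset.sum_nonneg fun j _ => ?_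
    have e1 : 0 ≤ ∑ i ∈ Finset.Icc 1 b, w i *
          Qj V (Matrix.diagonal (sw σ α)) (i + j) p p :=
      Finset.sum_nonneg fun i _ => mul_nonneg (hw i).1 (hNj _)
    have e2 := (hw' j).1
    have e3 := hNj j
    have e4 := GP8d_KU0
    positivity
  · -- normalise
    obtain ⟨a, ha⟩ : ∃ a, a = 1 / √Q := ⟨_, rfl⟩
    have ha2 : a ^ 2 * Q = 1 := by
      rw [ha, div_pow, one_pow, Real.sq_sqrt hpos.le]
      field_simp
    obtain ⟨m, hm⟩ : ∃ m, m = ex V (ev p) := ⟨_, rfl⟩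
    have hE : ex V (ev (a • (p + MvPolynomial.C (-m)))) = 0 := by
      rw [GP8d_ev, ex_cmul, ex_add H (ev_T0 p) (T0.const _), ex_const H, hm]
      ring
    have hvar : var V (ev (a • (p + MvPolynomial.C (-m)))) = a ^ 2 * var V (ev p) := by
      rw [GP8d_ev, var_cmul, var_addc H (ev_T0 p)]
    have hQj : ∀ j, 1 ≤ j → Qj V (Matrix.diagonal (sw σ α)) j (a • (p + MvPolynomial.C (-m)))
        (a • (p + MvPolynomial.C (-m))) = a ^ 2 * Qj V (Matrix.diagonal (sw σ α)) j p p := by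
      intro j hj
      rw [Qj_smul_left, Qj_smul_right, Qj_add_const _ hj]
      ring
    have hn : ∑ j ∈ Finset.Icc 1 b, Qj V (Matrix.diagonal (sw σ α)) j
        (a • (p + MvPolynomial.C (-m))) (a • (p + MvPolynomial.C (-m))) ≤ 1 := by
      rw [Finset.sum_congr rfl fun j hj => hQj j (Finset.mem_Icc.1 hj).1, ← Finset.mul_sum,
        ← hQd, ha2]
    have h1 := hC τ σ M t V α w w' _ hτ₀ hτ1 hσ hσ₁ hN hw hw' hP hP' (GP8d_deg hp a (-m)) ht htτ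
      hE hn
    rw [hvar] at h1
    have e1 : ∑ j ∈ Finset.Icc 1 b,
        w' j * (1 + 2 * (t / (τ * σ))) ^ j *
        ((1 + t * (3 / 2 * (j : ℝ) ^ 2 * (2 * σ * KU))) *
          Qj V (Matrix.diagonal (sw σ α)) j (a • (p + MvPolynomial.C (-m)))
            (a • (p + MvPolynomial.C (-m))) +
        2 * σ * t * ∑ i ∈ Finset.Icc 1 b, w i *
          Qj V (Matrix.diagonal (sw σ α)) (i + j) (a • (p + MvPolynomial.C (-m)))
            (a • (p + MvPolynomial.C (-m)))) =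
        a ^ 2 * ∑ j ∈ Finset.Icc 1 b,
        w' j * (1 + 2 * (t / (τ * σ))) ^ j *
        ((1 + t * (3 / 2 * (j : ℝ) ^ 2 * (2 * σ * KU))) *
          Qj V (Matrix.diagonal (sw σ α)) j p p +
        2 * σ * t * ∑ i ∈ Finset.Icc 1 b, w i *
          Qj V (Matrix.diagonal (sw σ α)) (i + j) p p) := by
      rw [Finset.mul_sum]
      refine Finset.sum_congr rfl fun j hj => ?_
      have e2 : ∑ i ∈ Finset.Icc 1 b, w i *
          Qj V (Matrix.diagonal (sw σ α)) (i + j) (a • (p + MvPolynomial.C (-m)))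
            (a • (p + MvPolynomial.C (-m))) = a ^ 2 * ∑ i ∈ Finset.Icc 1 b, w i *
          Qj V (Matrix.diagonal (sw σ α)) (i + j) p p := by
        rw [Finset.mul_sum]
        refine Finset.sum_congr rfl fun i hi => ?_
        rw [hQj (i + j) (le_trans (Finset.mem_Icc.1 hi).1 (Nat.le_add_right i j))]
        ring
      rw [e2, hQj j (Finset.mem_Icc.1 hj).1]
      ring
    rw [e1] at h1
    have h2 := mul_le_mul_of_nonneg_left h1 hpos.le
    rw [Finset.sum_add_distrib, ← Finset.mul_sum, ← hQd]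
    have e3 : Q * ((1 - σ * t) * (a ^ 2 * var V (ev p))) = (1 - σ * t) * var V (ev p) := by
      calc Q * ((1 - σ * t) * (a ^ 2 * var V (ev p)))
          = (a ^ 2 * Q) * ((1 - σ * t) * var V (ev p)) := by ring
        _ = _ := by rw [ha2, one_mul]
    obtain ⟨Z, hZ⟩ : ∃ Z, Z = ∑ j ∈ Finset.Icc 1 b,
        w' j * (1 + 2 * (t / (τ * σ))) ^ j *
        ((1 + t * (3 / 2 * (j : ℝ) ^ 2 * (2 * σ * KU))) *
          Qj V (Matrix.diagonal (sw σ α)) j p p +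
        2 * σ * t * ∑ i ∈ Finset.Icc 1 b, w i *
          Qj V (Matrix.diagonal (sw σ α)) (i + j) p p) := ⟨_, rfl⟩
    rw [← hZ] at h2 ⊢
    have e4 : Q * (a ^ 2 * Z + C * t ^ 2) = Z + C * t ^ 2 * Q := by
      calc Q * (a ^ 2 * Z + C * t ^ 2) = (a ^ 2 * Q) * Z + C * t ^ 2 * Q := by ring
        _ = _ := by rw [ha2, one_mul]
    rw [e3, e4] at h2
    exact h2

end Pool.Agent.Lib.MP_8d00da_gt.h42k.G
end

section

/-!
# The flow for polynomials (full KLS, part gamma): the step for the class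
-/

namespace Pool.Agent.Lib.MP_8d00da_gt.h42k.G

open MeasureTheory Set Filter
open scoped Topology NNReal ENNReal ContDiff
open Pool.Agent.Lib.MP_8d00da_gt.h42k.U (NF sw QT)

set_option linter.unusedSectionVars false
set_option linter.unusedVariables false

variable {ι : Type} [Fintype ι] [DecidableEq ι]

variable {κ M : ℝ} {V : (ι → ℝ) → ℝ}

private theorem GP9a_pow2 {x : ℝ} (h0 : 0 ≤ x) (h1 : x ≤ 1) (l : ℕ) :
    (1 + x) ^ l ≤ 1 + l * x + 4 ^ l * x ^ 2 := by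
  induction l with
  | zero => simp; positivity
  | succ l ih =>
    have h2 : (1 + x) ^ (l + 1) ≤ (1 + l * x + 4 ^ l * x ^ 2) * (1 + x) := by
      rw [pow_succ]
      exact mul_le_mul_of_nonneg_right ih (by linarith)
    refine h2.trans ?_
    have h3 : (l : ℝ) ≤ 4 ^ l := by
      have : (l : ℝ) ≤ 2 ^ l := by exact_mod_cast (Nat.lt_two_pow_self (n := l)).le
      refine this.trans (pow_le_pow_left₀ (by norm_num) (by norm_num) l)
    have h4 : (4 : ℝ) ^ l * x ^ 2 * x ≤ 4 ^ l * x ^ 2 := mul_le_of_le_one_right (by positivity) h1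
    have h5 : (l : ℝ) * x ^ 2 ≤ 4 ^ l * x ^ 2 := mul_le_mul_of_nonneg_right h3 (by positivity)
    have h6 : (0 : ℝ) ≤ 4 ^ l * x ^ 2 := by positivity
    push_cast
    rw [pow_succ (4 : ℝ) l]
    nlinarith

private theorem GP9a_pow1 {x : ℝ} (h0 : 0 ≤ x) (h1 : x ≤ 1) {l b : ℕ} (hl : l ≤ b) :
    (1 + x) ^ l ≤ 1 + (b + 4 ^ b) * x := by
  have h2 := GP9a_pow2 h0 h1 l
  have h3 : (l : ℝ) ≤ b := by exact_mod_cast hl
  have h4 : (4 : ℝ) ^ l ≤ 4 ^ b := pow_le_pow_right₀ (by norm_num) hl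
  have h5 : (4 : ℝ) ^ l * x ^ 2 ≤ 4 ^ b * x := by
    have h6 : x ^ 2 ≤ x := by nlinarith
    exact mul_le_mul h4 h6 (by positivity) (by positivity)
  have h7 : (l : ℝ) * x ≤ b * x := mul_le_mul_of_nonneg_right h3 h0
  linarith

/-- The right hand side. -/
private theorem GP9a_rhs {b l : ℕ} {τ₀ σ₁ c τ σ t K : ℝ} (hl1 : 1 ≤ l) (hlb : l ≤ b)
    (h0 : 0 < τ₀) (hc : 0 < c) (hK : 0 ≤ K) (hτ0 : τ₀ ≤ τ) (hσ2 : 2 ≤ σ)
    (hσ1 : σ ≤ σ₁) (ht : 0 < t) (ht0 : t ≤ τ₀) (ht1 : t ≤ 1) :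
    (1 + 2 * (t / (τ * σ))) ^ l * (1 + t * (3 / 2 * (l : ℝ) ^ 2 * (2 * σ * K))) +
      2 * σ * t * (c * (l - 1) * (1 + t / τ) ^ l) ≤
    1 + t * (l * (2 / (τ * σ)) + 3 * σ * K * l ^ 2 + 2 * σ * c * (l - 1)) +
      (b * (3 * σ₁ * K * b ^ 2) / τ₀ + 4 ^ b * (1 + 3 * σ₁ * K * b ^ 2) / τ₀ ^ 2 +
        2 * σ₁ * c * b * (b + 4 ^ b) / τ₀) * t ^ 2 := by
  have hτ : 0 < τ := by linarith
  have hσ : 0 < σ := by linarith
  have hl : (1 : ℝ) ≤ l := by exact_mod_cast hl1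
  have hlb' : (l : ℝ) ≤ b := by exact_mod_cast hlb
  set x : ℝ := 2 * (t / (τ * σ)) with hx
  have hx0 : 0 ≤ x := by positivity
  have hxt : x ≤ t / τ₀ := by
    rw [hx, ← mul_div_assoc, div_le_div_iff₀ (by positivity) h0]
    have : t * (2 * τ₀) ≤ t * (τ * σ) := by
      refine mul_le_mul_of_nonneg_left ?_ ht.le
      nlinarith
    linarith
  have htt : t / τ ≤ t / τ₀ := div_le_div_of_nonneg_left ht.le h0 hτ0
  have ht01 : t / τ₀ ≤ 1 := (div_le_one h0).2 ht0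
  have hx1 : x ≤ 1 := hxt.trans ht01
  set Y : ℝ := 3 * σ₁ * K * b ^ 2 with hY
  set y : ℝ := 3 * σ * K * l ^ 2 with hy
  have hσ₁ : 0 < σ₁ := by linarith
  have hy0 : 0 ≤ y := by positivity
  have hyY : y ≤ Y := by
    rw [hy, hY]
    gcongr
  have hY0 : 0 ≤ Y := hy0.trans hyY
  have e1 : t * (3 / 2 * (l : ℝ) ^ 2 * (2 * σ * K)) = t * y := by
    rw [hy]; ring
  rw [e1]
  have h4 : (4 : ℝ) ^ l ≤ 4 ^ b := pow_le_pow_right₀ (by norm_num) hlb
  have h1 : (1 + x) ^ l * (1 + t * y) ≤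
      1 + l * x + t * y + b * Y / τ₀ * t ^ 2 + 4 ^ b * (1 + Y) / τ₀ ^ 2 * t ^ 2 := by
    have h2 := GP9a_pow2 hx0 hx1 l
    have h3 : (1 + x) ^ l * (1 + t * y) ≤ (1 + l * x + 4 ^ l * x ^ 2) * (1 + t * y) :=
      mul_le_mul_of_nonneg_right h2 (by positivity)
    refine h3.trans ?_
    have h5 : (l : ℝ) * x * (t * y) ≤ b * Y / τ₀ * t ^ 2 := by
      have h6 : (l : ℝ) * x * (t * y) ≤ b * (t / τ₀) * (t * Y) := by
        gcongr
      refine h6.trans (le_of_eq ?_)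
      ring
    have h7 : (4 : ℝ) ^ l * x ^ 2 * (1 + t * y) ≤ 4 ^ b * (1 + Y) / τ₀ ^ 2 * t ^ 2 := by
      have h8 : t * y ≤ Y := by
        have := mul_le_mul ht1 hyY hy0 (by norm_num)
        linarith
      have h9 : (4 : ℝ) ^ l * x ^ 2 * (1 + t * y) ≤ 4 ^ b * (t / τ₀) ^ 2 * (1 + Y) := by
        gcongr
      refine h9.trans (le_of_eq ?_)
      rw [div_pow]
      ring
    have h10 : (1 + l * x + 4 ^ l * x ^ 2) * (1 + t * y) =
        1 + l * x + t * y + l * x * (t * y) + 4 ^ l * x ^ 2 * (1 + t * y) := by ring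
    linarith
  have h11 : 2 * σ * t * (c * (l - 1) * (1 + t / τ) ^ l) ≤
      2 * σ * t * (c * (l - 1)) + 2 * σ₁ * c * b * (b + 4 ^ b) / τ₀ * t ^ 2 := by
    have h12 : (1 + t / τ) ^ l ≤ 1 + (b + 4 ^ b) * (t / τ) :=
      GP9a_pow1 (by positivity) (htt.trans ht01) hlb
    have h13 : (1 + t / τ) ^ l ≤ 1 + (b + 4 ^ b) * (t / τ₀) := by
      refine h12.trans ?_
      gcongr
    have h14 : (0 : ℝ) ≤ l - 1 := by linarith
    have h15 : 2 * σ * t * (c * (l - 1) * (1 + t / τ) ^ l) ≤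
        2 * σ * t * (c * (l - 1) * (1 + (b + 4 ^ b) * (t / τ₀))) := by
      gcongr
    refine h15.trans ?_
    have h16 : 2 * σ * t * (c * (l - 1) * ((b + 4 ^ b) * (t / τ₀))) ≤
        2 * σ₁ * t * (c * b * ((b + 4 ^ b) * (t / τ₀))) := by
      have h17 : (l : ℝ) - 1 ≤ b := by linarith
      gcongr
    have h18 : 2 * σ₁ * t * (c * b * ((b + 4 ^ b) * (t / τ₀))) =
        2 * σ₁ * c * b * (b + 4 ^ b) / τ₀ * t ^ 2 := by ring
    have h19 : 2 * σ * t * (c * (l - 1) * (1 + (b + 4 ^ b) * (t / τ₀))) =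
        2 * σ * t * (c * (l - 1)) + 2 * σ * t * (c * (l - 1) * ((b + 4 ^ b) * (t / τ₀))) := by
      ring
    linarith
  have h20 : (l : ℝ) * x = t * (l * (2 / (τ * σ))) := by
    rw [hx]; ring
  have h21 : 1 + t * (l * (2 / (τ * σ)) + y + 2 * σ * c * (l - 1)) +
      (b * Y / τ₀ + 4 ^ b * (1 + Y) / τ₀ ^ 2 + 2 * σ₁ * c * b * (b + 4 ^ b) / τ₀) * t ^ 2 =
      (1 + t * (l * (2 / (τ * σ))) + t * y + b * Y / τ₀ * t ^ 2 +
        4 ^ b * (1 + Y) / τ₀ ^ 2 * t ^ 2) +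
      (2 * σ * t * (c * (l - 1)) + 2 * σ₁ * c * b * (b + 4 ^ b) / τ₀ * t ^ 2) := by ring
  rw [h21]
  rw [h20] at h1
  linarith

/-- The left hand side. -/
private theorem GP9a_lhs {b l : ℕ} {σ₁ σ t ρ ρ₁ C : ℝ} (hl1 : 1 ≤ l) (hlb : l ≤ b)
    (hσ : 0 ≤ σ) (hσ1 : σ ≤ σ₁) (ht : 0 < t) (hts : σ * t ≤ 1 / 2) (hρ : 0 ≤ ρ)
    (hρ1 : ρ ≤ ρ₁) (hC : 0 ≤ C) :
    1 + t * (l * ρ - σ) + (C / 2 - σ₁ * b * ρ₁) * t ^ 2 ≤
      (1 - σ * t) * (1 + ρ * t + C * t ^ 2) ^ l := by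
  have hl : (1 : ℝ) ≤ l := by exact_mod_cast hl1
  have hlb' : (l : ℝ) ≤ b := by exact_mod_cast hlb
  have h1 : 1 + (l : ℝ) * (ρ * t + C * t ^ 2) ≤ (1 + (ρ * t + C * t ^ 2)) ^ l :=
    one_add_mul_le_pow (by
      have : 0 ≤ ρ * t + C * t ^ 2 := by positivity
      linarith) l
  have h2 : 1 + l * (ρ * t) + C * t ^ 2 ≤ (1 + ρ * t + C * t ^ 2) ^ l := by
    have h3 : 1 * (C * t ^ 2) ≤ l * (C * t ^ 2) := by gcongr
    have h4 : 1 + ρ * t + C * t ^ 2 = 1 + (ρ * t + C * t ^ 2) := by ring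
    rw [h4]
    linarith
  have h5 : (1 - σ * t) * (1 + l * (ρ * t) + C * t ^ 2) ≤
      (1 - σ * t) * (1 + ρ * t + C * t ^ 2) ^ l :=
    mul_le_mul_of_nonneg_left h2 (by linarith)
  refine le_trans ?_ h5
  have h6 : σ * (l * ρ) ≤ σ₁ * (b * ρ₁) := by
    have : 0 ≤ σ₁ := hσ.trans hσ1
    gcongr
  have h7 : σ * (l * ρ) * t ^ 2 ≤ σ₁ * (b * ρ₁) * t ^ 2 := by gcongr
  have h8 : σ * t * (C * t ^ 2) ≤ 1 / 2 * (C * t ^ 2) := by gcongr
  nlinarith

/-- The real inequality behind the step. -/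
private theorem GP9a_real {b l : ℕ} {τ₀ σ₁ c τ σ t K E : ℝ} (hl1 : 1 ≤ l) (hlb : l ≤ b)
    (h0 : 0 < τ₀) (hc : 0 < c) (hK : 0 ≤ K) (hE : 0 ≤ E) (hτ0 : τ₀ ≤ τ) (hσ2 : 2 ≤ σ)
    (hσ1 : σ ≤ σ₁) (ht : 0 < t) (ht0 : t ≤ τ₀) (ht1 : t ≤ 1) (hts : σ₁ * t ≤ 1 / 2) {C : ℝ}
    (hC : C = 2 * (E + (b * (3 * σ₁ * K * b ^ 2) / τ₀ +
      4 ^ b * (1 + 3 * σ₁ * K * b ^ 2) / τ₀ ^ 2 +
        2 * σ₁ * c * b * (b + 4 ^ b) / τ₀) +
        σ₁ * b * (1 / τ₀ + σ₁ * (3 * K * b + 2 * c + 1)))) :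
    (1 + 2 * (t / (τ * σ))) ^ l * (1 + t * (3 / 2 * (l : ℝ) ^ 2 * (2 * σ * K))) +
      2 * σ * t * (c * (l - 1) * (1 + t / τ) ^ l) + E * t ^ 2 ≤
    (1 - σ * t) *
      (1 + (2 / (τ * σ) + σ * (3 * K * b + 2 * c + 1)) * t + C * t ^ 2) ^ l := by
  have hτ : 0 < τ := by linarith
  have hσ : 0 < σ := by linarith
  have hσ₁ : 0 < σ₁ := by linarith
  have hl : (1 : ℝ) ≤ l := by exact_mod_cast hl1
  have hlb' : (l : ℝ) ≤ b := by exact_mod_cast hlb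
  have hr := GP9a_rhs (τ₀ := τ₀) (σ₁ := σ₁) (c := c) (K := K) (τ := τ) (σ := σ) (t := t)
    hl1 hlb h0 hc hK hτ0 hσ2 hσ1 ht ht0 ht1
  have hC0 : 0 ≤ C := by
    rw [hC]
    positivity
  have hρ1 : 2 / (τ * σ) + σ * (3 * K * b + 2 * c + 1) ≤
      1 / τ₀ + σ₁ * (3 * K * b + 2 * c + 1) := by
    have h1 : 2 / (τ * σ) ≤ 1 / τ₀ := by
      rw [div_le_div_iff₀ (by positivity) h0]
      nlinarith
    have h2 : σ * (3 * K * b + 2 * c + 1) ≤ σ₁ * (3 * K * b + 2 * c + 1) := by gcongr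
    linarith
  have hlh := GP9a_lhs (b := b) (l := l) (σ₁ := σ₁) (σ := σ) (t := t)
    (ρ := 2 / (τ * σ) + σ * (3 * K * b + 2 * c + 1))
    (ρ₁ := 1 / τ₀ + σ₁ * (3 * K * b + 2 * c + 1)) (C := C) hl1 hlb hσ.le hσ1 ht
    (by
      have : σ * t ≤ σ₁ * t := by gcongr
      linarith) (by positivity) hρ1 hC0
  refine le_trans ?_ hlh
  have hfo : (l : ℝ) * (2 / (τ * σ)) + 3 * σ * K * l ^ 2 + 2 * σ * c * (l - 1) ≤
      l * (2 / (τ * σ) + σ * (3 * K * b + 2 * c + 1)) - σ := by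
    have h1 : 3 * σ * K * (l : ℝ) ^ 2 ≤ 3 * σ * K * (l * b) := by
      have : (l : ℝ) ^ 2 ≤ l * b := by nlinarith
      gcongr
    have h2 : 0 ≤ σ * ((l : ℝ) - 1) := by
      have : (0 : ℝ) ≤ l - 1 := by linarith
      positivity
    have h3 : 0 ≤ σ * c := by positivity
    nlinarith
  have hfo2 := mul_le_mul_of_nonneg_left hfo ht.le
  have hC2 : C / 2 - σ₁ * b * (1 / τ₀ + σ₁ * (3 * K * b + 2 * c + 1)) =
      E + (b * (3 * σ₁ * K * b ^ 2) / τ₀ + 4 ^ b * (1 + 3 * σ₁ * K * b ^ 2) / τ₀ ^ 2 +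
        2 * σ₁ * c * b * (b + 4 ^ b) / τ₀) := by
    rw [hC]; ring
  rw [hC2]
  have h5 : (E + (b * (3 * σ₁ * K * b ^ 2) / τ₀ + 4 ^ b * (1 + 3 * σ₁ * K * b ^ 2) / τ₀ ^ 2 +
        2 * σ₁ * c * b * (b + 4 ^ b) / τ₀)) * t ^ 2 = E * t ^ 2 +
      (b * (3 * σ₁ * K * b ^ 2) / τ₀ + 4 ^ b * (1 + 3 * σ₁ * K * b ^ 2) / τ₀ ^ 2 +
        2 * σ₁ * c * b * (b + 4 ^ b) / τ₀) * t ^ 2 := by ring
  rw [h5]
  linarith

/-- Rearrangement: `∑_j w'_j ∑_i w_i N_{i+j} ≤ ∑_l (∑_{i+j=l} w'_j w_i) N_l`, for `w_i = c m^i`,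
`w'_j = c m'^j`, `m' ≤ m`: at most `∑_l c² (l-1) m^l N_l` (`N_l = 0` for `l > b`). -/
theorem conv_le {b : ℕ} {c m m' : ℝ} (hc : 0 ≤ c) (hm' : 0 ≤ m') (hm : m' ≤ m) {N : ℕ → ℝ}
    (hN : ∀ l, 0 ≤ N l) (hN0 : ∀ l, b < l → N l = 0) :
    ∑ j ∈ Finset.Icc 1 b, c * m' ^ j * ∑ i ∈ Finset.Icc 1 b, c * m ^ i * N (i + j) ≤
      ∑ l ∈ Finset.Icc 1 b, c ^ 2 * (l - 1) * m ^ l * N l := by
  have hm0 : 0 ≤ m := hm'.trans hm
  set F : ℕ → ℝ := fun l => c ^ 2 * m ^ l * N l with hF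
  have hF0 : ∀ l, 0 ≤ F l := fun l => by
    have := hN l
    simp only [hF]
    positivity
  have hFb : ∀ l, b < l → F l = 0 := fun l hl => by
    simp only [hF, hN0 l hl, mul_zero]
  have h1 : ∀ j ∈ Finset.Icc 1 b, c * m' ^ j * ∑ i ∈ Finset.Icc 1 b, c * m ^ i * N (i + j) ≤
      ∑ l ∈ Finset.Icc 1 b, if j < l then F l else 0 := by
    intro j hj
    rw [Finset.mem_Icc] at hj
    have h2 : c * m' ^ j * ∑ i ∈ Finset.Icc 1 b, c * m ^ i * N (i + j) ≤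
        ∑ i ∈ Finset.Icc 1 b, F (i + j) := by
      rw [Finset.mul_sum]
      refine Finset.sum_le_sum fun i _ => ?_
      simp only [hF]
      have h3 : m' ^ j ≤ m ^ j := pow_le_pow_left₀ hm' hm j
      have h4 := hN (i + j)
      calc c * m' ^ j * (c * m ^ i * N (i + j)) = m' ^ j * (c ^ 2 * m ^ i * N (i + j)) := by ring
        _ ≤ m ^ j * (c ^ 2 * m ^ i * N (i + j)) := by gcongr
        _ = c ^ 2 * m ^ (i + j) * N (i + j) := by rw [pow_add]; ring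
    refine h2.trans (le_of_eq ?_)
    rw [← Finset.sum_filter]
    have h5 : ∑ i ∈ Finset.Icc 1 b, F (i + j) =
        ∑ i ∈ (Finset.Icc 1 b).filter (fun i => i + j ≤ b), F (i + j) := by
      rw [Finset.sum_filter]
      refine Finset.sum_congr rfl fun i _ => ?_
      split_ifs with h
      · rfl
      · exact hFb _ (by omega)
    rw [h5]
    refine Finset.sum_nbij (fun i => i + j) ?_ ?_ ?_ ?_
    · intro i hi
      simp only [Finset.mem_filter, Finset.mem_Icc] at hi ⊢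
      omega
    · intro i _ i' _ h
      simpa using h
    · intro l hl
      simp only [Finset.coe_filter, Finset.mem_Icc, Set.mem_setOf_eq] at hl
      refine ⟨l - j, ?_, ?_⟩
      · simp only [Finset.coe_filter, Finset.mem_Icc, Set.mem_setOf_eq]
        omega
      · simp only
        omega
    · intro i _
      rfl
  refine (Finset.sum_le_sum h1).trans (le_of_eq ?_)
  rw [Finset.sum_comm]
  refine Finset.sum_congr rfl fun l hl => ?_
  rw [Finset.mem_Icc] at hl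
  rw [← Finset.sum_filter, Finset.sum_const, nsmul_eq_mul]
  have h6 : ((Finset.Icc 1 b).filter (fun j => j < l)).card = l - 1 := by
    have : (Finset.Icc 1 b).filter (fun j => j < l) = Finset.Ico 1 l := by
      ext j
      simp only [Finset.mem_filter, Finset.mem_Icc, Finset.mem_Ico]
      omega
    rw [this, Nat.card_Ico]
  rw [h6, Nat.cast_sub hl.1]
  simp only [hF, Nat.cast_one]
  ring

/-- Weights cut off at degree `b`. -/
private theorem GP9a_cut {b : ℕ} {c m W : ℝ} (hc : 0 < c) (hm : 0 ≤ m)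
    (hW : c * (1 + m) ^ b ≤ W) (j : ℕ) :
    0 ≤ (if j ≤ b then c * m ^ j else 0) ∧ (if j ≤ b then c * m ^ j else 0) ≤ W := by
  have h0 : 0 ≤ W := le_trans (by positivity) hW
  split_ifs with h
  · refine ⟨by positivity, le_trans ?_ hW⟩
    refine mul_le_mul_of_nonneg_left ?_ hc.le
    calc m ^ j ≤ (1 + m) ^ j := pow_le_pow_left₀ hm (by linarith) j
      _ ≤ (1 + m) ^ b := pow_le_pow_right₀ (by linarith) h
  · exact ⟨le_rfl, h0⟩

/-- The step: `(P_{τ+t}; c, m) → (P_τ; c, m (1 + ρ t + C t²))`,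
`ρ = 2/(τσ) + σ B`, `B = 3Kb + 2c + 1`. -/
theorem PT_step (ι : Type) [Fintype ι] [DecidableEq ι] (b : ℕ) {τ₀ σ₁ c m₀ m₁ : ℝ}
    (h0 : 0 < τ₀) (hc : 0 < c) (hm0 : 0 < m₀) (hQ : ∀ τ : ℝ, 0 < τ → QT ι τ KU) :
    ∃ C t₀ : ℝ, 0 ≤ C ∧ 0 < t₀ ∧ ∀ τ σ t m : ℝ, τ₀ ≤ τ → τ ≤ 1 → 2 ≤ σ → σ ≤ σ₁ → m₀ ≤ m →
      m ≤ m₁ → 0 < t → t ≤ t₀ → PT ι b (τ + t) c m →
      PT ι b τ c (m * (1 + (2 / (τ * σ) + σ * Bb b c) * t + C * t ^ 2)) := by
  have hK : (0 : ℝ) ≤ KU := by unfold KU; norm_num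
  set s₁ : ℝ := max σ₁ 2 with hs₁
  have hs2 : 2 ≤ s₁ := le_max_right _ _
  set W : ℝ := c * (1 + 2 * m₁) ^ b with hWdef
  obtain ⟨C, hC, hstep⟩ := step_nf ι b (τ₀ := τ₀) (σ₁ := s₁) (W := W) h0 hQ
  set u₀ : ℝ := (min 1 m₀) ^ b with hu₀
  have hu0 : 0 < u₀ := pow_pos (lt_min one_pos hm0) b
  set E : ℝ := C / (c * u₀) with hE
  have hE0 : 0 ≤ E := div_nonneg hC (mul_pos hc hu0).le
  set C' : ℝ := 2 * (E + (b * (3 * s₁ * KU * b ^ 2) / τ₀ +
      4 ^ b * (1 + 3 * s₁ * KU * b ^ 2) / τ₀ ^ 2 +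
        2 * s₁ * c * b * (b + 4 ^ b) / τ₀) +
        s₁ * b * (1 / τ₀ + s₁ * (3 * KU * b + 2 * c + 1))) with hC'
  have hC'0 : 0 ≤ C' := by
    rw [hC']
    have : 0 < s₁ := by linarith
    positivity
  refine ⟨C', min (min τ₀ 1) (1 / (2 * s₁)), hC'0, ?_, ?_⟩
  · refine lt_min (lt_min h0 one_pos) ?_
    have : 0 < s₁ := by linarith
    positivity
  intro τ σ t m hτ0 hτ1 hσ2 hσ1 hm hm1 ht htt hP
  have ht0 : t ≤ τ₀ := htt.trans ((min_le_left _ _).trans (min_le_left _ _))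
  have ht1 : t ≤ 1 := htt.trans ((min_le_left _ _).trans (min_le_right _ _))
  have hs1 : σ ≤ s₁ := hσ1.trans (le_max_left _ _)
  have hs0 : 0 < s₁ := by linarith
  have hts : s₁ * t ≤ 1 / 2 := by
    have h1 : t ≤ 1 / (2 * s₁) := htt.trans (min_le_right _ _)
    calc s₁ * t ≤ s₁ * (1 / (2 * s₁)) := mul_le_mul_of_nonneg_left h1 hs0.le
      _ = 1 / 2 := by field_simp
  have hτ : 0 < τ := by linarith
  have hσ : 0 < σ := by linarith
  have hmp : 0 < m := by linarith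
  have htτ : t ≤ τ := ht0.trans hτ0
  set mt : ℝ := m * ((τ + t) / τ) with hmt
  have hmt1 : mt = m * (1 + t / τ) := by
    rw [hmt, add_div, div_self hτ.ne']
  have htd : t / τ ≤ 1 := (div_le_one hτ).2 htτ
  have htd0 : 0 ≤ t / τ := by positivity
  have hmt0 : 0 < mt := by rw [hmt1]; positivity
  have hmt2 : mt ≤ 2 * m := by
    rw [hmt1]
    nlinarith
  have hPt : PT ι b τ c mt := PT.scale hτ (by linarith) hc.le hmp.le hP
  have hX : PTw ι b τ (fun j => c * (m * (1 + (2 / (τ * σ) + σ * Bb b c) * t + C' * t ^ 2)) ^ j) := by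
    refine PTw_of_nf hσ2 fun M V α hN p hp => ?_
    have hW1 : c * (1 + mt) ^ b ≤ W := by
      rw [hWdef]
      refine mul_le_mul_of_nonneg_left (pow_le_pow_left₀ (by linarith) ?_ b) hc.le
      linarith
    have hW2 : c * (1 + m) ^ b ≤ W := by
      rw [hWdef]
      refine mul_le_mul_of_nonneg_left (pow_le_pow_left₀ (by linarith) ?_ b) hc.le
      linarith
    have hw1 : PTw ι b τ (fun j => if j ≤ b then c * mt ^ j else 0) := by
      refine PTw.mono_w hPt fun j hj => ?_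
      rw [Finset.mem_Icc] at hj
      rw [if_pos hj.2]
    have hw2 : PTw ι b (τ + t) (fun j => if j ≤ b then c * m ^ j else 0) := by
      refine PTw.mono_w hP fun j hj => ?_
      rw [Finset.mem_Icc] at hj
      rw [if_pos hj.2]
    have hmain := hstep τ σ M t V α (fun j => if j ≤ b then c * mt ^ j else 0)
      (fun j => if j ≤ b then c * m ^ j else 0) p hτ0 hτ1 hσ2 hs1 hN
      (GP9a_cut hc hmt0.le hW1) (GP9a_cut hc hmp.le hW2) hw1 hw2 hp ht htτ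
    set N : ℕ → ℝ := fun l => Qj V (Matrix.diagonal (sw σ α)) l p p with hNd
    have hN0 : ∀ l, 0 ≤ N l := fun l =>
      Qj_diag_nonneg (fun i => (zero_le_one.trans (hN.sw_facts hσ2 i).1)) l p
    have hNb : ∀ l, b < l → N l = 0 := fun l hl =>
      Qj_zero_of_deg (Matrix.diagonal (sw σ α)) (lt_of_le_of_lt hp hl) p
    set a : ℝ := 1 + 2 * (t / (τ * σ)) with ha
    have ha0 : 0 < a := by rw [ha]; positivity
    have haτ : a ≤ 1 + t / τ := by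
      have h1 : 2 * (t / (τ * σ)) ≤ t / τ := by
        rw [← mul_div_assoc, div_le_div_iff₀ (by positivity) hτ]
        have : t * (2 * τ) ≤ t * (τ * σ) := by
          refine mul_le_mul_of_nonneg_left ?_ ht.le
          nlinarith
        linarith
      linarith
    have hma : m * a ≤ mt := by
      rw [hmt1]
      exact mul_le_mul_of_nonneg_left haτ hmp.le
    have hconv := conv_le (b := b) (c := c) (m := mt) (m' := m * a) hc.le
      (by positivity) hma hN0 hNb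
    have hrew : ∑ j ∈ Finset.Icc 1 b,
        ((if j ≤ b then c * m ^ j else 0) * a ^ j *
        ((1 + t * (3 / 2 * (j : ℝ) ^ 2 * (2 * σ * KU))) * N j +
        2 * σ * t * ∑ i ∈ Finset.Icc 1 b, (if i ≤ b then c * mt ^ i else 0) * N (i + j)) +
        C * t ^ 2 * N j) =
        ∑ j ∈ Finset.Icc 1 b, (c * m ^ j * a ^ j *
          (1 + t * (3 / 2 * (j : ℝ) ^ 2 * (2 * σ * KU))) * N j + C * t ^ 2 * N j) +
        2 * σ * t * ∑ j ∈ Finset.Icc 1 b, c * (m * a) ^ j *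
          ∑ i ∈ Finset.Icc 1 b, c * mt ^ i * N (i + j) := by
      rw [Finset.mul_sum, ← Finset.sum_add_distrib]
      refine Finset.sum_congr rfl fun j hj => ?_
      rw [Finset.mem_Icc] at hj
      have h1 : ∑ i ∈ Finset.Icc 1 b, (if i ≤ b then c * mt ^ i else 0) * N (i + j) =
          ∑ i ∈ Finset.Icc 1 b, c * mt ^ i * N (i + j) := by
        refine Finset.sum_congr rfl fun i hi => ?_
        rw [Finset.mem_Icc] at hi
        rw [if_pos hi.2]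
      rw [if_pos hj.2, h1, mul_pow]
      ring
    have hmain2 : (1 - σ * t) * var V (ev p) ≤
        ∑ j ∈ Finset.Icc 1 b, (c * m ^ j * a ^ j *
          (1 + t * (3 / 2 * (j : ℝ) ^ 2 * (2 * σ * KU))) * N j + C * t ^ 2 * N j) +
        2 * σ * t * ∑ l ∈ Finset.Icc 1 b, c ^ 2 * (l - 1) * mt ^ l * N l := by
      refine hmain.trans ?_
      refine (le_of_eq hrew).trans ?_
      have h2 : 0 ≤ 2 * σ * t := by positivity
      have := mul_le_mul_of_nonneg_left hconv h2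
      linarith
    have h1s : 0 < 1 - σ * t := by
      have : σ * t ≤ s₁ * t := mul_le_mul_of_nonneg_right hs1 ht.le
      linarith
    have hfin : ∑ j ∈ Finset.Icc 1 b, (c * m ^ j * a ^ j *
          (1 + t * (3 / 2 * (j : ℝ) ^ 2 * (2 * σ * KU))) * N j + C * t ^ 2 * N j) +
        2 * σ * t * ∑ l ∈ Finset.Icc 1 b, c ^ 2 * (l - 1) * mt ^ l * N l ≤
        (1 - σ * t) * ∑ j ∈ Finset.Icc 1 b,
          (c * (m * (1 + (2 / (τ * σ) + σ * Bb b c) * t + C' * t ^ 2)) ^ j) * N j := by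
      rw [Finset.mul_sum, Finset.mul_sum, ← Finset.sum_add_distrib]
      refine Finset.sum_le_sum fun l hl => ?_
      rw [Finset.mem_Icc] at hl
      have hreal := GP9a_real (b := b) (l := l) (τ₀ := τ₀) (σ₁ := s₁) (c := c) (τ := τ)
        (σ := σ) (t := t) (K := KU) (E := E) hl.1 hl.2 h0 hc hK hE0 hτ0 hσ2 hs1 ht ht0 ht1
        hts (C := C') hC'
      have hml : 0 < m ^ l := pow_pos hmp l
      have hu : u₀ ≤ m ^ l := by
        rw [hu₀]
        have h1 : min 1 m₀ ≤ 1 := min_le_left _ _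
        have h2 : 0 ≤ min 1 m₀ := (lt_min one_pos hm0).le
        calc (min 1 m₀) ^ b ≤ (min 1 m₀) ^ l := pow_le_pow_of_le_one h2 h1 hl.2
          _ ≤ m ^ l := pow_le_pow_left₀ h2 ((min_le_right _ _).trans hm) l
      have hEC : C ≤ c * m ^ l * E := by
        rw [hE, mul_div_assoc', le_div_iff₀ (mul_pos hc hu0)]
        have : c * u₀ ≤ c * m ^ l := mul_le_mul_of_nonneg_left hu hc.le
        nlinarith
      have h3 : c * m ^ l * a ^ l * (1 + t * (3 / 2 * (l : ℝ) ^ 2 * (2 * σ * KU))) +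
          C * t ^ 2 + 2 * σ * t * (c ^ 2 * (l - 1) * mt ^ l) ≤
          (1 - σ * t) * (c * (m * (1 + (2 / (τ * σ) + σ * Bb b c) * t + C' * t ^ 2)) ^ l) := by
        have h4 := mul_le_mul_of_nonneg_left hreal (mul_pos hc hml).le
        have h5 : mt ^ l = m ^ l * (1 + t / τ) ^ l := by rw [hmt1, mul_pow]
        have h6 : C * t ^ 2 ≤ c * m ^ l * (E * t ^ 2) := by
          have := mul_le_mul_of_nonneg_right hEC (sq_nonneg t)
          linarith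
        have h7 : c * m ^ l * a ^ l * (1 + t * (3 / 2 * (l : ℝ) ^ 2 * (2 * σ * KU))) +
          c * m ^ l * (E * t ^ 2) + 2 * σ * t * (c ^ 2 * (l - 1) * (m ^ l * (1 + t / τ) ^ l)) =
          c * m ^ l * (a ^ l * (1 + t * (3 / 2 * (l : ℝ) ^ 2 * (2 * σ * KU))) +
            2 * σ * t * (c * (l - 1) * (1 + t / τ) ^ l) + E * t ^ 2) := by ring
        rw [h5, mul_pow m]
        unfold Bb
        calc _ ≤ c * m ^ l * a ^ l * (1 + t * (3 / 2 * (l : ℝ) ^ 2 * (2 * σ * KU))) +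
              c * m ^ l * (E * t ^ 2) +
              2 * σ * t * (c ^ 2 * (l - 1) * (m ^ l * (1 + t / τ) ^ l)) := by linarith
          _ = _ := h7
          _ ≤ _ := h4
          _ = _ := by ring
      have h8 := mul_le_mul_of_nonneg_right h3 (hN0 l)
      calc _ = (c * m ^ l * a ^ l * (1 + t * (3 / 2 * (l : ℝ) ^ 2 * (2 * σ * KU))) +
          C * t ^ 2 + 2 * σ * t * (c ^ 2 * (l - 1) * mt ^ l)) * N l := by ring
        _ ≤ _ := h8
        _ = _ := by ring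
    exact le_of_mul_le_mul_left (hmain2.trans hfin) h1s
  exact hX

end Pool.Agent.Lib.MP_8d00da_gt.h42k.G
end

section

/-!
# The flow for polynomials (full KLS, part gamma): the flow theorem
-/

namespace Pool.Agent.Lib.MP_8d00da_gt.h42k.G

open MeasureTheory Set Filter
open scoped Topology NNReal ENNReal ContDiff
open Pool.Agent.Lib.MP_8d00da_gt.h42k.U (NF sw QT)

set_option linter.unusedSectionVars false
set_option linter.unusedVariables false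

variable {ι : Type} [Fintype ι] [DecidableEq ι]

variable {κ M : ℝ} {V : (ι → ℝ) → ℝ}

/-- OUTPUT 1 (`hQ` is Theorem U, `U.qt_univ`). -/
theorem PT_flow' (hQ : ∀ τ : ℝ, 0 < τ → QT ι τ KU) {b : ℕ} {c m₁ τ₁ : ℝ} (hc : 0 < c)
    (hm : 0 < m₁) (hτ₁ : 0 < τ₁) (h4 : Bb b c * τ₁ ≤ 1 / 4) (h : PT ι b τ₁ c m₁) {τ : ℝ}
    (hτ : 0 < τ) (hle : τ ≤ τ₁) : PT ι b τ c (m₁ * Real.exp (6 * √(Bb b c * τ₁))) := by
  have hB : 1 ≤ Bb b c := by
    have h1 : (0 : ℝ) ≤ 3 * KU * b := by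
      unfold KU
      positivity
    unfold Bb
    linarith
  refine iter_flow (P := fun τ m => PT ι b τ c m) hB hτ₁ h4 hm (fun τ m m' _ h0 hle hP => ?_)
    (fun τ m _ hP => PT.closed hP) (fun τ₀ σ₁ a d h0 ha => ?_) h hτ hle
  · exact PTw.mono_w hP fun j _ =>
      mul_le_mul_of_nonneg_left (pow_le_pow_left₀ h0 hle j) hc.le
  · exact PT_step ι b h0 hc ha hQ

end Pool.Agent.Lib.MP_8d00da_gt.h42k.G
end

section

/-!
# The flow for polynomials (full KLS, part gamma): the flow theorem with Theorem U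
-/

namespace Pool.Agent.Lib.MP_8d00da_gt.h42k.G

open MeasureTheory Set Filter
open scoped Topology NNReal ENNReal ContDiff
open Pool.Agent.Lib.MP_8d00da_gt.h42k.U (NF sw QT)

set_option linter.unusedSectionVars false
set_option linter.unusedVariables false

variable {ι : Type} [Fintype ι] [DecidableEq ι]

variable {κ M : ℝ} {V : (ι → ℝ) → ℝ}

/-- OUTPUT 1. -/
theorem PT_flow {b : ℕ} {c m₁ τ₁ : ℝ} (hc : 0 < c)
    (hm : 0 < m₁) (hτ₁ : 0 < τ₁) (h4 : Bb b c * τ₁ ≤ 1 / 4) (h : PT ι b τ₁ c m₁) {τ : ℝ}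
    (hτ : 0 < τ) (hle : τ ≤ τ₁) : PT ι b τ c (m₁ * Real.exp (6 * √(Bb b c * τ₁))) :=
  PT_flow' (fun _ h => by
    unfold KU
    exact U.qt_univ h) hc hm hτ₁ h4 h hτ hle

end Pool.Agent.Lib.MP_8d00da_gt.h42k.G
end

section

/-!
# Full KLS, part (delta): the moments of order `l` do not feel `κ`
-/

open scoped BigOperators

namespace Pool.Agent.Lib.MP_8d00da_gt.h28k

open h42k h42k.G

private theorem flow_Bb {l : ℕ} (hl : 1 ≤ l) {s : ℝ} (hs : 1 ≤ s) :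
    0 ≤ Bb l (2 * l / s) * (1 / (10 ^ 6 * (l : ℝ) ^ 4)) ∧
      Bb l (2 * l / s) * (1 / (10 ^ 6 * (l : ℝ) ^ 4)) ≤ 1 / (9 * (l : ℝ) ^ 2) := by
  have hl' : (1 : ℝ) ≤ l := by exact_mod_cast hl
  have h1 : 2 * (l : ℝ) / s ≤ 2 * l := div_le_self (by positivity) hs
  have h0 : 0 ≤ 2 * (l : ℝ) / s := by positivity
  have hB : Bb l (2 * l / s) ≤ 92933 * l := by
    unfold Bb KU
    linarith
  have hB0 : 0 ≤ Bb l (2 * l / s) := by
    unfold Bb KU
    positivity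
  refine ⟨by positivity, ?_⟩
  refine (mul_le_mul_of_nonneg_right hB (by positivity)).trans ?_
  rw [mul_one_div, div_le_div_iff₀ (by positivity) (by positivity)]
  have h2 : (1 : ℝ) ≤ (l : ℝ) ^ 3 := one_le_pow₀ hl'
  have h3 : (l : ℝ) ^ 3 ≤ (l : ℝ) ^ 4 := pow_le_pow_right₀ hl' (by norm_num)
  nlinarith

/-- Numbers: the constant of the flow at `τ = 1/(10^6 l^4)`, `c = 2l/s`.  `Bb l c = 3·30976·l + 4l/s
+ 1 ≤ 92933 l`, so `Bb l c * τ ≤ 0.093 / l³ ≤ 1/4` and `6 l √(Bb l c * τ) ≤ 6 √0.093 l^(-1/2) ≤ 2`. -/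
theorem flow_numbers {l : ℕ} (hl : 1 ≤ l) {s : ℝ} (hs : 1 ≤ s) :
    Bb l (2 * l / s) * (1 / (10 ^ 6 * (l : ℝ) ^ 4)) ≤ 1 / 4 ∧
      6 * l * √(Bb l (2 * l / s) * (1 / (10 ^ 6 * (l : ℝ) ^ 4))) ≤ 2 := by
  obtain ⟨h0, h1⟩ := flow_Bb hl hs
  have hl' : (1 : ℝ) ≤ l := by exact_mod_cast hl
  constructor
  · refine h1.trans ?_
    rw [div_le_div_iff₀ (by positivity) (by norm_num)]
    nlinarith
  · have h2 : √(Bb l (2 * l / s) * (1 / (10 ^ 6 * (l : ℝ) ^ 4))) ≤ 1 / (3 * l) := by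
      refine Real.sqrt_le_iff.2 ⟨by positivity, h1.trans (le_of_eq ?_)⟩
      field_simp
      norm_num
    calc 6 * (l : ℝ) * √(Bb l (2 * l / s) * (1 / (10 ^ 6 * (l : ℝ) ^ 4)))
        ≤ 6 * l * (1 / (3 * l)) := mul_le_mul_of_nonneg_left h2 (by positivity)
      _ = 2 := by field_simp; norm_num

/-- `c m^l ≤ 100 l s^(l-1)`: `(2l/s) ((1+1/l) s exp(6√(Bb τ)))^l = 2 l s^(l-1) (1+1/l)^l
exp(6 l √(Bb τ)) ≤ 2 e e² l s^(l-1)` and `2 e³ < 41`. -/
theorem flow_const {l : ℕ} (hl : 1 ≤ l) {s : ℝ} (hs : 1 ≤ s) :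
    2 * l / s * ((1 + 1 / l) * s *
      Real.exp (6 * √(Bb l (2 * l / s) * (1 / (10 ^ 6 * (l : ℝ) ^ 4))))) ^ l ≤
      100 * l * s ^ (l - 1) := by
  have hl' : (1 : ℝ) ≤ l := by exact_mod_cast hl
  have hl0 : (0 : ℝ) < l := by linarith
  have hs0 : 0 < s := by linarith
  have hn := (flow_numbers hl hs).2
  set y : ℝ := √(Bb l (2 * l / s) * (1 / (10 ^ 6 * (l : ℝ) ^ 4))) with hy
  have h1 : (1 + 1 / (l : ℝ)) ^ l ≤ Real.exp 1 := by
    have ha : 1 + 1 / (l : ℝ) ≤ Real.exp (1 / l) := by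
      have := Real.add_one_le_exp (1 / (l : ℝ))
      linarith
    calc (1 + 1 / (l : ℝ)) ^ l ≤ Real.exp (1 / l) ^ l :=
          pow_le_pow_left₀ (by positivity) ha l
      _ = Real.exp 1 := by
          rw [← Real.exp_nat_mul]
          congr 1
          field_simp
  have h2 : Real.exp (6 * y) ^ l ≤ Real.exp 2 := by
    rw [← Real.exp_nat_mul]
    refine Real.exp_le_exp.2 ?_
    linarith
  have h3 : Real.exp 1 * Real.exp 2 ≤ 50 := by
    have e1 : Real.exp 2 = Real.exp 1 * Real.exp 1 := by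
      rw [← Real.exp_add]
      norm_num
    have e2 := Real.exp_one_lt_d9
    have e3 := Real.exp_pos 1
    rw [e1]
    have e4 : Real.exp 1 * Real.exp 1 ≤ 3 * 3 :=
      mul_le_mul (by linarith) (by linarith) e3.le (by norm_num)
    nlinarith
  have h4 : s ^ l = s * s ^ (l - 1) := by
    conv_lhs => rw [show l = (l - 1) + 1 by omega]
    rw [pow_succ, mul_comm]
  have h5 : (1 + 1 / (l : ℝ)) ^ l * Real.exp (6 * y) ^ l ≤ 50 :=
    (mul_le_mul h1 h2 (by positivity) (Real.exp_pos 1).le).trans h3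
  have h6 : 0 ≤ 2 * (l : ℝ) * s ^ (l - 1) := by positivity
  calc 2 * (l : ℝ) / s * ((1 + 1 / l) * s * Real.exp (6 * y)) ^ l
      = 2 * l * s ^ (l - 1) * ((1 + 1 / (l : ℝ)) ^ l * Real.exp (6 * y) ^ l) := by
        rw [mul_pow, mul_pow, h4]
        field_simp
    _ ≤ 2 * l * s ^ (l - 1) * 50 := mul_le_mul_of_nonneg_left h5 h6
    _ = 100 * l * s ^ (l - 1) := by ring

/-- Monotonicity in the constant. -/
theorem AP.mono_m {κ : ℝ} {l : ℕ} {m m' : ℝ} (h : AP κ l m) (hm : m ≤ m') : AP κ l m' := by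
  intro ι _ _ M W hW H _ _ R C hC g
  refine (h ι M W hW H R C hC g).trans ?_
  refine mul_le_mul_of_nonneg_right ?_ (by positivity)
  exact mul_le_mul_of_nonneg_right hm (Finset.sum_nonneg fun _ _ => sq_nonneg _)

/-- Larger `κ`, smaller class. -/
theorem AP.mono_κ {κ κ' : ℝ} {l : ℕ} {m : ℝ} (h0 : 0 < κ) (hκ : κ ≤ κ') (h : AP κ l m) :
    AP κ' l m := by
  intro ι _ _ M W hW H _ _ R
  refine h ι M W ?_ H R
  obtain ⟨hN, L, L', h1, h2, h3⟩ := hW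
  refine ⟨hN.mono h0 hκ le_rfl, L, L', h1, h2, fun x u => ?_⟩
  exact (mul_le_mul_of_nonneg_right hκ (sq_nn _)).trans (h3 x u)

/-- The moments of order `l` for all `κ ≤ 1`.  PROOF: `base_PT` at `τ₁ = 1/(10^6 l^4)`, `b = l`;
if `κ ≤ τ₁`: `PT_flow` (`flow_numbers`), `AP_of_PT`, `flow_const`; if `κ > τ₁`: the same at
`κ = τ₁` and `AP.mono_κ`. -/
theorem hflow (l : ℕ) (hl : 1 ≤ l) (s : ℝ) (hs : 1 ≤ s) (hG : GP (1 / (10 ^ 6 * (l : ℝ) ^ 4)) s)
    (κ : ℝ) (h0 : 0 < κ) (h1 : κ ≤ 1) : AP κ l (100 * l * s ^ (l - 1)) := by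
  have hl' : (1 : ℝ) ≤ l := by exact_mod_cast hl
  have hs0 : 0 < s := by linarith
  have hτ : (0 : ℝ) < 1 / (10 ^ 6 * (l : ℝ) ^ 4) := by positivity
  have hc : (0 : ℝ) < 2 * l / s := by positivity
  have hm : (0 : ℝ) < (1 + 1 / l) * s := by positivity
  have key : ∀ κ' : ℝ, 0 < κ' → κ' ≤ 1 / (10 ^ 6 * (l : ℝ) ^ 4) →
      AP κ' l (100 * l * s ^ (l - 1)) := by
    intro κ' hκ' hle
    have h2 := AP_of_PT hl hκ' fun ι _ _ =>
      PT_flow hc hm hτ (flow_numbers hl hs).1 (base_PT ι hl hs0 hG) hκ' hle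
    exact h2.mono_m (flow_const hl hs)
  rcases le_total κ (1 / (10 ^ 6 * (l : ℝ) ^ 4)) with h | h
  · exact key κ h0 h
  · exact (key _ hτ le_rfl).mono_κ hτ h

end Pool.Agent.Lib.MP_8d00da_gt.h28k
end

section

/-!
# Full KLS, part (epsilon): a universal growth rate
-/

namespace Pool.Agent.Lib.MP_8d00da_gt.h28k

theorem universal_rate : ∃ S : ℝ, 1 ≤ S ∧ ∀ κ : ℝ, 0 < κ → κ ≤ 1 → GP κ S :=
  scale_induction GP AP hG hG0 hflow hex

end Pool.Agent.Lib.MP_8d00da_gt.h28k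
end

section

/-!
# Full KLS for nice potentials, with a universal constant
-/

namespace Pool.Agent.Lib.MP_8d00da_gt.h28k

open h42k

/-- FULL KLS (Poincare form, nice potentials). -/
theorem klsn : ∃ C : ℝ, 0 < C ∧ ∀ (ι : Type) [Fintype ι] [DecidableEq ι] (κ M : ℝ)
    (V : (ι → ℝ) → ℝ), Nice κ M V → CLe V 1 → PI V C := by
  obtain ⟨S, hS1, hS⟩ := universal_rate
  refine ⟨2 * (1 + 2 * S), by linarith, fun ι _ _ κ M V hV hC => ?_⟩
  have h0 : 0 < min κ 1 := lt_min hV.kpos one_pos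
  exact PI_of_GP (by linarith) (hS (min κ 1) h0 (min_le_right _ _))
    (hV.mono h0 (min_le_left _ _) le_rfl) hC

end Pool.Agent.Lib.MP_8d00da_gt.h28k
end
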